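import Mathlib
import Pool.Agent.R306.GP.Sums

/-!
Admissible sequences.
-/

set_option autoImplicit false

namespace Pool.Agent.Helper932CL

open Pool.Agent.R306.GP (pt pt_cont)

/-- admissible sequences: `R_n = b_n exp(a_n y)` grows at least geometrically -/
structure Sq (a b : ℕ → ℝ) (δ : ℝ) : Prop where
  dpos : 0 < δ
  one : ∀ n, 1 ≤ a n
  amono : Monotone a
  pos : ∀ n, 0 < b n
  mono : Monotone b
  gap : ∀ n, δ ≤ (a (n + 1) - a n) + (Real.log (b (n + 1)) - Real.log (b n))

variable {a b : ℕ → ℝ} {δ c d : ℝ}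

lemma pt_pos (h : Sq a b δ) (n : ℕ) (y : ℝ) : 0 < pt a b n y := mul_pos (h.pos n) (Real.exp_pos _)

lemma step (h : Sq a b δ) (hc : 0 < c) (hc1 : c ≤ 1) (n : ℕ) :
    b n * Real.exp (δ * c) ≤ b (n + 1) * Real.exp ((a (n + 1) - a n) * c) := by
  have h1 := h.gap n
  have h2 : Real.log (b n) ≤ Real.log (b (n + 1)) := Real.log_le_log (h.pos n) (h.mono (Nat.le_succ n))
  have e1 : b n = Real.exp (Real.log (b n)) := (Real.exp_log (h.pos n)).symm
  have e2 : b (n + 1) = Real.exp (Real.log (b (n + 1))) := (Real.exp_log (h.pos (n + 1))).symm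
  rw [e1, e2, ← Real.exp_add, ← Real.exp_add]
  apply Real.exp_le_exp.mpr
  nlinarith

lemma ratio (h : Sq a b δ) (hc : 0 < c) (hc1 : c ≤ 1) (n g : ℕ) :
    b n * Real.exp (δ * g * c) ≤ b (n + g) * Real.exp ((a (n + g) - a n) * c) := by
  induction g with
  | zero => simp
  | succ g ih =>
    have h1 := step h hc hc1 (n + g)
    have e0 : n + (g + 1) = n + g + 1 := by ring
    rw [e0]
    have e1 : b n * Real.exp (δ * ((g + 1 : ℕ) : ℝ) * c) = (b n * Real.exp (δ * g * c)) * Real.exp (δ * c) := by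
      rw [mul_assoc (b n), ← Real.exp_add]; congr 2; push_cast; ring
    have e2 : b (n + g + 1) * Real.exp ((a (n + g + 1) - a n) * c) =
        (b (n + g + 1) * Real.exp ((a (n + g + 1) - a (n + g)) * c)) * Real.exp ((a (n + g) - a n) * c) := by
      rw [mul_assoc (b (n + g + 1)), ← Real.exp_add]; congr 2; ring
    rw [e1, e2]
    calc (b n * Real.exp (δ * g * c)) * Real.exp (δ * c) ≤
          (b (n + g) * Real.exp ((a (n + g) - a n) * c)) * Real.exp (δ * c) :=
          mul_le_mul_of_nonneg_right ih (Real.exp_pos _).le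
      _ = (b (n + g) * Real.exp (δ * c)) * Real.exp ((a (n + g) - a n) * c) := by ring
      _ ≤ _ := mul_le_mul_of_nonneg_right h1 (Real.exp_pos _).le

lemma pt_low (h : Sq a b δ) (hc : 0 < c) (hc1 : c ≤ 1) (n : ℕ) : b 0 * Real.exp (δ * c * n) ≤ pt a b n c := by
  have h1 := ratio h hc hc1 0 n
  rw [Nat.zero_add] at h1
  unfold pt
  have h2 : Real.exp ((a n - a 0) * c) ≤ Real.exp (a n * c) := by
    apply Real.exp_le_exp.mpr
    have := h.one 0
    nlinarith
  calc b 0 * Real.exp (δ * c * n) = b 0 * Real.exp (δ * n * c) := by congr 2; ring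
    _ ≤ b n * Real.exp ((a n - a 0) * c) := h1
    _ ≤ _ := mul_le_mul_of_nonneg_left h2 (h.pos n).le

lemma pt_mono (h : Sq a b δ) (hc : 0 ≤ c) {n m : ℕ} (hnm : n ≤ m) : pt a b n c ≤ pt a b m c := by
  unfold pt
  apply mul_le_mul (h.mono hnm) _ (Real.exp_pos _).le (h.pos m).le
  apply Real.exp_le_exp.mpr
  exact mul_le_mul_of_nonneg_right (h.amono hnm) hc

/-- growth -/
lemma grow (h : Sq a b δ) (hc : 0 < c) (hc1 : c ≤ 1) (n g : ℕ) {K : ℝ} (hK : K ≤ Real.exp (δ * g * c))
    {u v : ℝ} (hu : c ≤ u) (huv : u < v) : K * (pt a b n v - pt a b n u) ≤ pt a b (n + g) v - pt a b (n + g) u := by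
  have h1 : a n ≤ a (n + g) := h.amono (Nat.le_add_right _ _)
  have hbn := h.pos n
  have hbg := h.pos (n + g)
  have ha : 0 < a n := lt_of_lt_of_le one_pos (h.one n)
  have h0 : 0 ≤ Real.exp (a n * v) - Real.exp (a n * u) := by
    have := Real.exp_le_exp.mpr (mul_le_mul_of_nonneg_left huv.le ha.le)
    linarith
  have h2 : Real.exp ((a (n + g) - a n) * c) ≤ Real.exp ((a (n + g) - a n) * u) := by
    apply Real.exp_le_exp.mpr
    exact mul_le_mul_of_nonneg_left hu (by linarith)
  have h3 : Real.exp ((a (n + g) - a n) * u) * (Real.exp (a n * v) - Real.exp (a n * u)) ≤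
      Real.exp (a (n + g) * v) - Real.exp (a (n + g) * u) := by
    have e1 : Real.exp (a (n + g) * v) = Real.exp ((a (n + g) - a n) * v) * Real.exp (a n * v) := by
      rw [← Real.exp_add]; congr 1; ring
    have e2 : Real.exp (a (n + g) * u) = Real.exp ((a (n + g) - a n) * u) * Real.exp (a n * u) := by
      rw [← Real.exp_add]; congr 1; ring
    have e3 : Real.exp ((a (n + g) - a n) * u) ≤ Real.exp ((a (n + g) - a n) * v) := by
      apply Real.exp_le_exp.mpr
      apply mul_le_mul_of_nonneg_left huv.le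
      linarith
    rw [e1, e2, mul_sub]
    have := mul_le_mul_of_nonneg_right e3 (Real.exp_pos (a n * v)).le
    linarith
  have h4 := ratio h hc hc1 n g
  unfold pt
  have e4 : K * (b n * Real.exp (a n * v) - b n * Real.exp (a n * u)) = (b n * K) * (Real.exp (a n * v) - Real.exp (a n * u)) := by ring
  have e5 : b (n + g) * Real.exp (a (n + g) * v) - b (n + g) * Real.exp (a (n + g) * u) =
    b (n + g) * (Real.exp (a (n + g) * v) - Real.exp (a (n + g) * u)) := by ring
  rw [e4, e5]
  calc (b n * K) * (Real.exp (a n * v) - Real.exp (a n * u))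
      ≤ (b (n + g) * Real.exp ((a (n + g) - a n) * c)) * (Real.exp (a n * v) - Real.exp (a n * u)) := by
        apply mul_le_mul_of_nonneg_right _ h0
        exact (mul_le_mul_of_nonneg_left hK hbn.le).trans h4
    _ ≤ (b (n + g) * Real.exp ((a (n + g) - a n) * u)) * (Real.exp (a n * v) - Real.exp (a n * u)) := by
        apply mul_le_mul_of_nonneg_right _ h0
        exact mul_le_mul_of_nonneg_left h2 hbg.le
    _ = b (n + g) * (Real.exp ((a (n + g) - a n) * u) * (Real.exp (a n * v) - Real.exp (a n * u))) := by ring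
    _ ≤ _ := mul_le_mul_of_nonneg_left h3 hbg.le

end Pool.Agent.Helper932CL
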