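import Mathlib
import Pool.Agent.R306.GP.AEa
import Pool.Agent.Helper932CL.Seq

/-!
Approximation of the error term by the model polynomials, almost everywhere.
-/

set_option autoImplicit false

open MeasureTheory Filter Topology

namespace Pool.Agent.Helper932CL

open Pool.Agent.R306.GP (pt pt_cont)
open Pool.Agent.H383.Gen (U Bd)
open Pool.Agent.H383.GW (Wt Sand)

lemma pow_help {P x : ℝ} {n K L : ℕ} (h2 : 2 * ((n:ℝ) + 1) ^ (K * L) ≤ x) (hP : x ≤ P) :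
    (((n ^ K : ℕ) : ℝ)) ^ L ≤ P / 2 := by
  have h4 : (((n ^ K : ℕ) : ℝ)) ^ L ≤ ((n:ℝ) + 1) ^ (K * L) := by
    rw [pow_mul]
    apply pow_le_pow_left₀ (by positivity)
    push_cast
    exact pow_le_pow_left₀ (Nat.cast_nonneg _) (by linarith) _
  linarith

theorem apx {a b : ℕ → ℝ} {δ c d : ℝ} (h : Sq a b δ) (hc : 0 < c) (hc1 : c ≤ 1) (hcd : c ≤ d) {E : ℝ → ℝ} {af : ℕ → ℝ} {φ : ℝ}
    {w : ℝ → ℂ} {κ₁ κ₂ C0 : ℝ} (ha : Bd af) (ha0 : af 0 = 0) (hw : Wt w) (hC0 : 0 < C0)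
    (hS : Sand E af φ w κ₁ κ₂ C0) (hE : Measurable E) :
    ∀ᵐ y ∂(volume.restrict (Set.Icc c d)),
      Tendsto (fun n : ℕ => (E (pt a b n y) - U af φ (pt a b n y) (n ^ 800)) ^ 2) atTop (𝓝 0) := by
  obtain ⟨C, hC, ρ, hρ, hl2⟩ := Pool.Agent.R306.GP.l2_y (φ := φ) ha ha0 hw hC0 hS hE hcd
  have hκ : 0 < δ * c := mul_pos h.dpos hc
  obtain ⟨n1, hn1⟩ := Pool.Agent.R306.GP.ev_poly (h.pos 0) hκ ρ 0
  obtain ⟨n2, hn2⟩ := Pool.Agent.R306.GP.ev_poly (h.pos 0) hκ 2 (800 * 100)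
  refine Pool.Agent.R306.GP.ae_zero (B := fun n : ℕ => C * ((n:ℝ) ^ 4)⁻¹) ?_ ?_ (j0 := max (max n1 n2) 1) ?_ ?_
  · intro n
    exact ((hE.comp (pt_cont a b n).measurable).sub
      ((Pool.Agent.R306.GP.U_cont af φ (n ^ 800)).comp (pt_cont a b n)).measurable).pow_const 2
  · exact (Real.summable_nat_pow_inv.mpr (by norm_num)).mul_left _
  · intro n hn
    have hn1' : n1 ≤ n := (le_max_left _ _).trans ((le_max_left _ _).trans hn)
    have hn2' : n2 ≤ n := (le_max_right _ _).trans ((le_max_left _ _).trans hn)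
    have hn3 : 1 ≤ n := (le_max_right _ _).trans hn
    have hn0 : (0:ℝ) < n := by exact_mod_cast hn3
    have hP := pt_low h hc hc1 n
    have h1 := hn1 n hn1'
    have h2 := hn2 n hn2'
    rw [pow_zero, mul_one] at h1
    have hM1 : 1 ≤ n ^ 800 := Nat.one_le_iff_ne_zero.mpr (by positivity)
    have h3 := hl2 (a n) (b n) (h.one n) (h.pos n) (h1.trans hP) (n ^ 800) hM1 (pow_help h2 hP)
    refine h3.trans (le_of_eq ?_)
    congr 2
    push_cast
    rw [← Real.rpow_natCast, ← Real.rpow_mul hn0.le, ← Real.rpow_natCast, ← Real.rpow_neg hn0.le]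
    congr 1
    norm_num
  · intro n y; positivity

end Pool.Agent.Helper932CL
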