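import Mathlib

/-!
Asymptotic inequalities.
-/

set_option autoImplicit false

open Filter Topology Asymptotics

namespace Pool.Agent.Helper932CL

lemma asy_pow (A B : ℝ) {p q κ : ℝ} (hpq : p < q) (hq : 0 < q) (hκ : 0 < κ) :
    ∀ᶠ x : ℝ in atTop, A + B * x ^ p ≤ κ * x ^ q := by
  have h1 : Tendsto (fun x : ℝ => A * x ^ (-q)) atTop (𝓝 (A * 0)) := (tendsto_rpow_neg_atTop hq).const_mul A
  have h2 : Tendsto (fun x : ℝ => B * x ^ (-(q - p))) atTop (𝓝 (B * 0)) :=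
    (tendsto_rpow_neg_atTop (by linarith)).const_mul B
  rw [mul_zero] at h1 h2
  filter_upwards [h1.eventually (gt_mem_nhds (half_pos hκ)), h2.eventually (gt_mem_nhds (half_pos hκ)),
    eventually_gt_atTop 0] with x hx1 hx2 hx0
  have hxq : 0 < x ^ q := Real.rpow_pos_of_pos hx0 q
  have e1 : A * x ^ (-q) * x ^ q = A := by
    rw [mul_assoc, ← Real.rpow_add hx0]; simp
  have e2 : B * x ^ (-(q - p)) * x ^ q = B * x ^ p := by
    rw [mul_assoc, ← Real.rpow_add hx0]; congr 2; ring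
  have h3 := mul_le_mul_of_nonneg_right hx1.le hxq.le
  have h4 := mul_le_mul_of_nonneg_right hx2.le hxq.le
  rw [e1] at h3
  rw [e2] at h4
  linarith

lemma asy_log (A B : ℝ) {q : ℝ} (hq : 0 < q) : ∀ᶠ x : ℝ in atTop, A + B * Real.log x ≤ x ^ q := by
  have h1 := asy_pow A (|B| / (q / 2)) (p := q / 2) (q := q) (κ := 1) (by linarith) hq one_pos
  filter_upwards [h1, eventually_ge_atTop 1] with x hx hx1
  have h2 : Real.log x ≤ x ^ (q / 2) / (q / 2) := Real.log_le_rpow_div (by linarith) (by positivity)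
  have h3 : 0 ≤ Real.log x := Real.log_nonneg hx1
  calc A + B * Real.log x ≤ A + |B| * Real.log x := by
        have := mul_le_mul_of_nonneg_right (le_abs_self B) h3
        linarith
    _ ≤ A + |B| * (x ^ (q / 2) / (q / 2)) := by
        have := mul_le_mul_of_nonneg_left h2 (abs_nonneg B)
        linarith
    _ = A + |B| / (q / 2) * x ^ (q / 2) := by ring
    _ ≤ x ^ q := by rw [one_mul] at hx; exact hx

/-- everything that is needed for large `N` -/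
lemma asy_all {ε η κ K K1 K2 : ℝ} (hε : 0 < ε) (hε1 : ε ≤ 1/8) (hη : 0 < η) (hη1 : η ≤ 1) (hκ : 0 < κ) (hK : 0 < K) :
    ∀ᶠ N : ℕ in atTop,
      1 ≤ N ∧ 1 ≤ Real.log N ∧ 10 ≤ (N:ℝ) ^ (η / 8) ∧ K * 4 ^ ⌊(Real.log N) ^ (1 - 2 * ε)⌋₊ ≤ (N:ℝ) ^ (η / 8) ∧
      K1 + 8000 * Real.log (2 * N) ≤ (N:ℝ) ^ (η / 8) ∧
      ((N:ℝ) ^ (η / 8)) ^ 2 + K2 ≤ κ * N ∧ 2 * Real.log N + 1 ≤ (N:ℝ) ^ (η / 8) ∧
      4 * (Real.log N) ^ (1/4 - ε) + 12 ≤ ((⌊(Real.log N) ^ (1 - 2 * ε)⌋₊ : ℕ) : ℝ) ^ (1/4 - ε/4) ∧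
      2 * ((⌊(Real.log N) ^ (1 - 2 * ε)⌋₊ : ℕ) : ℝ) ^ 2 ≤ N ∧
      1 + ((N:ℝ) ^ (η / 8)) ^ 2 + (N:ℝ) ^ (η / 8) ≤ κ * ((N:ℝ) ^ (η / 8)) ^ 4 := by
  have hlog : Tendsto (fun N : ℕ => Real.log N) atTop atTop := Real.tendsto_log_atTop.comp tendsto_natCast_atTop_atTop
  have hN : Tendsto (fun N : ℕ => (N:ℝ)) atTop atTop := tendsto_natCast_atTop_atTop
  have hT : Tendsto (fun N : ℕ => (N:ℝ) ^ (η / 8)) atTop atTop := (tendsto_rpow_atTop (by positivity)).comp hN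
  have a1 := hlog.eventually (asy_pow (Real.log K) (Real.log 4) (p := 1 - 2 * ε) (q := 1) (κ := η / 8) (by linarith) one_pos (by positivity))
  have a2 := hN.eventually (asy_log (K1 + 8000 * Real.log 2) 8000 (q := η / 8) (by positivity))
  have a3 := hN.eventually (asy_pow K2 1 (p := η / 4) (q := 1) (κ := κ) (by linarith) one_pos hκ)
  have a4 := hN.eventually (asy_log 1 2 (q := η / 8) (by positivity))
  have a5 := hlog.eventually (asy_pow 12 4 (p := 1/4 - ε) (q := 1/4 - 3/4 * ε) (κ := 1/2) (by linarith) (by linarith) (by norm_num))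
  have a6 := hN.eventually (asy_log 0 2 (q := 1/4) (by positivity))
  have a7 := hT.eventually (asy_pow 0 3 (p := 2) (q := 4) (κ := κ) (by norm_num) (by norm_num) hκ)
  have a8 := hlog.eventually (asy_pow 2 0 (p := 0) (q := 1 - 2 * ε) (κ := 1) (by linarith) (by linarith) one_pos)
  filter_upwards [a1, a2, a3, a4, a5, a6, a7, a8, hlog.eventually_ge_atTop 1, hT.eventually_ge_atTop 10, eventually_ge_atTop 1]
    with N b1 b2 b3 b4 b5 b6 b7 b8 b9 b10 b11
  have hN1 : (1:ℝ) ≤ N := by exact_mod_cast b11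
  have hN0 : (0:ℝ) < N := by linarith
  have hL0 : 0 < Real.log N := by linarith
  set L := Real.log N with hL
  set T := (N:ℝ) ^ (η / 8) with hTd
  have hT0 : 0 < T := by positivity
  set Y := ⌊L ^ (1 - 2 * ε)⌋₊ with hY
  have hYle : (Y:ℝ) ≤ L ^ (1 - 2 * ε) := Nat.floor_le (by positivity)
  have hYge : L ^ (1 - 2 * ε) < Y + 1 := Nat.lt_floor_add_one _
  have hTexp : T = Real.exp (η / 8 * L) := by
    rw [hTd, Real.rpow_def_of_pos hN0, mul_comm]
  refine ⟨b11, b9, b10, ?_, ?_, ?_, ?_, ?_, ?_, ?_⟩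
  · rw [hTexp, ← Real.exp_log hK]
    have h4 : (4:ℝ) ^ Y = Real.exp (Y * Real.log 4) := by
      rw [Real.exp_nat_mul, Real.exp_log (by norm_num)]
    rw [h4, ← Real.exp_add]
    apply Real.exp_le_exp.mpr
    have h5 : (Y:ℝ) * Real.log 4 ≤ Real.log 4 * L ^ (1 - 2 * ε) := by
      rw [mul_comm]
      exact mul_le_mul_of_nonneg_left hYle (Real.log_nonneg (by norm_num))
    rw [Real.rpow_one] at b1
    linarith
  · rw [Real.log_mul (by norm_num) hN0.ne']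
    linarith
  · have h5 : T ^ 2 = (N:ℝ) ^ (η / 4) := by
      rw [hTd, ← Real.rpow_natCast, ← Real.rpow_mul hN0.le]; congr 1; push_cast; ring
    rw [h5]
    rw [Real.rpow_one] at b3
    linarith
  · linarith
  · have h6 : (1/2) * L ^ (1 - 2 * ε) ≤ Y := by
      rw [Real.rpow_zero] at b8
      linarith
    have hLp : 0 < L ^ (1 - 2 * ε) := by positivity
    have h7 : (1/2) * L ^ (1/4 - 3/4 * ε) ≤ (Y:ℝ) ^ (1/4 - ε/4) := by
      calc (1/2) * L ^ (1/4 - 3/4 * ε) ≤ (1/2:ℝ) ^ (1/4 - ε/4) * (L ^ (1 - 2 * ε)) ^ (1/4 - ε/4) := by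
            apply mul_le_mul
            · calc (1/2:ℝ) = (1/2:ℝ) ^ (1:ℝ) := (Real.rpow_one _).symm
                _ ≤ _ := Real.rpow_le_rpow_of_exponent_ge (by norm_num) (by norm_num) (by linarith)
            · rw [← Real.rpow_mul hL0.le]
              apply Real.rpow_le_rpow_of_exponent_le b9
              nlinarith
            · positivity
            · positivity
        _ = ((1/2) * L ^ (1 - 2 * ε)) ^ (1/4 - ε/4) := (Real.mul_rpow (by norm_num) hLp.le).symm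
        _ ≤ _ := Real.rpow_le_rpow (by positivity) h6 (by linarith)
    linarith
  · have h8 : (Y:ℝ) ≤ L := by
      refine hYle.trans ?_
      calc L ^ (1 - 2 * ε) ≤ L ^ (1:ℝ) := Real.rpow_le_rpow_of_exponent_le b9 (by linarith)
        _ = L := Real.rpow_one L
    have h9 : (2 * L) ^ 2 ≤ ((N:ℝ) ^ (1/4:ℝ)) ^ 2 := pow_le_pow_left₀ (by positivity) (by linarith) 2
    have h10 : ((N:ℝ) ^ (1/4:ℝ)) ^ 2 ≤ N := by
      rw [← Real.rpow_natCast, ← Real.rpow_mul hN0.le]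
      calc (N:ℝ) ^ ((1/4:ℝ) * (2:ℕ)) ≤ (N:ℝ) ^ (1:ℝ) := Real.rpow_le_rpow_of_exponent_le hN1 (by norm_num)
        _ = N := Real.rpow_one _
    have h11 : (Y:ℝ) ^ 2 ≤ L ^ 2 := pow_le_pow_left₀ (Nat.cast_nonneg _) h8 2
    nlinarith
  · have e1 : T ^ (2:ℝ) = T ^ 2 := by rw [Real.rpow_two]
    have e2 : T ^ (4:ℝ) = T ^ 4 := by rw [← Real.rpow_natCast]; norm_num
    rw [e1, e2] at b7
    nlinarith

end Pool.Agent.Helper932CL
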