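import Mathlib
import Pool.Agent.W24.Liou

/-!
Averages over a window of real radii against a Riesz product (after the modules `W24.Riesz`, `Y938.Win.A` of the
starting files, with fewer imports).
-/

set_option autoImplicit false

open MeasureTheory Filter Topology Finset

namespace Pool.Agent.Helper932CL

/-- the character -/
noncomputable def ez (x : ℝ) : ℂ := Complex.exp (((2 * Real.pi * x : ℝ) : ℂ) * Complex.I)

lemma norm_ez (x : ℝ) : ‖ez x‖ = 1 := Complex.norm_exp_ofReal_mul_I _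

lemma ez_add (x y : ℝ) : ez (x + y) = ez x * ez y := by
  unfold ez
  rw [← Complex.exp_add]
  congr 1
  push_cast; ring

lemma ez_zero : ez 0 = 1 := by unfold ez; simp

lemma ez_mul (x r : ℝ) : ez (x * r) = Complex.exp ((2 * Real.pi * x * Complex.I) * (r : ℂ)) := by
  unfold ez
  congr 1
  push_cast; ring

lemma continuous_ez_mul (x : ℝ) : Continuous (fun r : ℝ => ez (x * r)) := by
  unfold ez
  fun_prop

lemma norm_int_ez {x : ℝ} (hx : x ≠ 0) (R H : ℝ) : ‖∫ r in R..(R+H), ez (x * r)‖ ≤ 1 / (Real.pi * |x|) := by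
  have hpi := Real.pi_pos
  have hc : (2 * Real.pi * x * Complex.I : ℂ) ≠ 0 := by
    apply mul_ne_zero _ Complex.I_ne_zero
    apply mul_ne_zero
    · exact mul_ne_zero two_ne_zero (by exact_mod_cast hpi.ne')
    · exact_mod_cast hx
  simp only [ez_mul]
  rw [integral_exp_mul_complex hc, norm_div]
  have h1 : ‖(2 * Real.pi * x * Complex.I : ℂ)‖ = 2 * Real.pi * |x| := by
    rw [norm_mul, Complex.norm_I, mul_one, norm_mul, norm_mul, Complex.norm_real, Complex.norm_real,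
      Real.norm_eq_abs, Real.norm_eq_abs, abs_of_pos hpi]
    norm_num
  rw [h1]
  have hx0 : 0 < |x| := abs_pos.mpr hx
  have h2 : ‖Complex.exp ((2 * Real.pi * x * Complex.I) * ((R + H : ℝ) : ℂ)) -
      Complex.exp ((2 * Real.pi * x * Complex.I) * (R : ℂ))‖ ≤ 2 := by
    refine (norm_sub_le _ _).trans ?_
    rw [← ez_mul, ← ez_mul, norm_ez, norm_ez]; norm_num
  calc _ ≤ 2 / (2 * Real.pi * |x|) := by gcongr
    _ = _ := by field_simp

set_option linter.unusedSectionVars false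

variable {J : Type*} [Fintype J] [DecidableEq J]

/-- the index set of signs -/
def sg : Finset ℤ := {-1, 0, 1}

/-- coefficient of one factor -/
noncomputable def cc (e : ℤ) : ℝ := if e = 0 then 1 else 1/2

/-- the coefficients of the Riesz product -/
noncomputable def Z (β : J → ℝ) (ε : J → ℤ) : ℂ := ∏ j, ((cc (ε j) : ℂ) * Complex.exp (((ε j * β j : ℝ) : ℂ) * Complex.I))

lemma norm_Z (β : J → ℝ) (ε : J → ℤ) : ‖Z β ε‖ = ∏ j, cc (ε j) := by
  unfold Z
  rw [norm_prod]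
  apply Finset.prod_congr rfl
  intro j _
  rw [norm_mul, Complex.norm_exp_ofReal_mul_I, mul_one, Complex.norm_real, Real.norm_eq_abs, abs_of_nonneg]
  unfold cc; split_ifs <;> norm_num

lemma sum_norm_Z (β : J → ℝ) : ∑ ε ∈ Fintype.piFinset (fun _ : J => sg), ‖Z β ε‖ = 2 ^ (Fintype.card J) := by
  simp only [norm_Z]
  rw [← Finset.prod_univ_sum (fun _ : J => sg) (fun _ e => cc e)]
  have : ∑ e ∈ sg, cc e = 2 := by
    unfold sg cc
    rw [Finset.sum_insert (by norm_num), Finset.sum_insert (by norm_num), Finset.sum_singleton]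
    norm_num
  rw [this, Finset.prod_const, Finset.card_univ]

/-- the frequencies of the Riesz product -/
noncomputable def fr (α : J → ℝ) (ε : J → ℤ) : ℝ := ∑ j, (ε j : ℝ) * α j

lemma zero_mem_sg : (0 : J → ℤ) ∈ Fintype.piFinset (fun _ : J => sg) := by
  rw [Fintype.mem_piFinset]
  intro j
  simp [sg]

lemma single_mem_sg (j : J) : (-Pi.single j 1 : J → ℤ) ∈ Fintype.piFinset (fun _ : J => sg) := by
  rw [Fintype.mem_piFinset]
  intro i
  rw [Pi.neg_apply]
  by_cases h : i = j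
  · subst h; simp [sg]
  · rw [Pi.single_eq_of_ne h]; simp [sg]

lemma Z_zero (β : J → ℝ) : Z β 0 = 1 := by
  unfold Z cc
  apply Finset.prod_eq_one
  intro j _
  simp

lemma Z_single (β : J → ℝ) (j : J) : Z β (-Pi.single j 1) = 1/2 * Complex.exp (((-β j : ℝ) : ℂ) * Complex.I) := by
  unfold Z
  rw [Finset.prod_eq_single j]
  · rw [Pi.neg_apply, Pi.single_eq_same]
    unfold cc
    rw [if_neg (by norm_num)]
    push_cast
    congr 2
    ring
  · intro i _ hi
    rw [Pi.neg_apply, Pi.single_eq_of_ne hi]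
    unfold cc
    simp
  · intro h; exact absurd (Finset.mem_univ j) h

lemma fr_zero (α : J → ℝ) : fr α 0 = 0 := by
  unfold fr; simp

lemma fr_single (α : J → ℝ) (j : J) : fr α (-Pi.single j 1) = -α j := by
  unfold fr
  rw [Finset.sum_eq_single j]
  · rw [Pi.neg_apply, Pi.single_eq_same]; push_cast; ring
  · intro i _ hi
    rw [Pi.neg_apply, Pi.single_eq_of_ne hi]; simp
  · intro h; exact absurd (Finset.mem_univ j) h

/-- the Riesz product on the line -/
noncomputable def KR (d : J → ℕ) (β : J → ℝ) (r : ℝ) : ℝ :=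
  ∏ j, (1 + Real.cos (2 * Real.pi * (r * √(d j : ℝ)) + β j))

lemma KR_nonneg (d : J → ℕ) (β : J → ℝ) (r : ℝ) : 0 ≤ KR d β r :=
  Finset.prod_nonneg (fun j _ => by have := Real.neg_one_le_cos (2 * Real.pi * (r * √(d j : ℝ)) + β j); linarith)

lemma KR_continuous (d : J → ℕ) (β : J → ℝ) : Continuous (KR d β) := by
  unfold KR
  fun_prop

lemma KR_le (d : J → ℕ) (β : J → ℝ) (r : ℝ) : KR d β r ≤ 2 ^ (Fintype.card J) := by
  unfold KR
  calc ∏ j, (1 + Real.cos (2 * Real.pi * (r * √(d j : ℝ)) + β j)) ≤ ∏ j : J, (2:ℝ) := by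
        apply Finset.prod_le_prod
        · intro j _
          have := Real.neg_one_le_cos (2 * Real.pi * (r * √(d j : ℝ)) + β j); linarith
        · intro j _
          have := Real.cos_le_one (2 * Real.pi * (r * √(d j : ℝ)) + β j); linarith
    _ = _ := by rw [Finset.prod_const, Finset.card_univ]

lemma KR_eq (d : J → ℕ) (β : J → ℝ) (r : ℝ) : ((KR d β r : ℝ) : ℂ) =
    ∑ ε ∈ Fintype.piFinset (fun _ : J => sg), Z β ε * ez (fr (fun j => √(d j : ℝ)) ε * r) := by
  have h1 : ∀ j, ((1 + Real.cos (2 * Real.pi * (r * √(d j : ℝ)) + β j) : ℝ) : ℂ) =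
      ∑ e ∈ sg, ((cc e : ℂ) * Complex.exp (((e * β j : ℝ) : ℂ) * Complex.I) * ez (e * √(d j : ℝ) * r)) := by
    intro j
    unfold sg cc
    rw [Finset.sum_insert (by norm_num), Finset.sum_insert (by norm_num), Finset.sum_singleton]
    rw [if_neg (by norm_num), if_pos rfl, if_neg (by norm_num)]
    push_cast
    rw [Complex.cos]
    unfold ez
    have e1 : Complex.exp (-1 * (β j : ℂ) * Complex.I) * Complex.exp (((2 * Real.pi * (-1 * √(d j : ℝ) * r) : ℝ) : ℂ) * Complex.I) =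
        Complex.exp (-(2 * Real.pi * (r * (√(d j : ℝ) : ℂ)) + β j) * Complex.I) := by
      rw [← Complex.exp_add]
      congr 1
      push_cast; ring
    have e2 : Complex.exp (1 * (β j : ℂ) * Complex.I) * Complex.exp (((2 * Real.pi * (1 * √(d j : ℝ) * r) : ℝ) : ℂ) * Complex.I) =
        Complex.exp ((2 * Real.pi * (r * (√(d j : ℝ) : ℂ)) + β j) * Complex.I) := by
      rw [← Complex.exp_add]
      congr 1
      push_cast; ring
    have e3 : Complex.exp (0 * (β j : ℂ) * Complex.I) = 1 := by rw [zero_mul, zero_mul, Complex.exp_zero]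
    have e4 : Complex.exp (((2 * Real.pi * (0 * √(d j : ℝ) * r) : ℝ) : ℂ) * Complex.I) = 1 := by
      rw [zero_mul, zero_mul, mul_zero, Complex.ofReal_zero, zero_mul, Complex.exp_zero]
    rw [e3, e4]
    linear_combination (-1/2 : ℂ) * e1 + (-1/2 : ℂ) * e2
  unfold KR
  rw [Complex.ofReal_prod, Finset.prod_congr rfl (fun j _ => h1 j), Finset.prod_univ_sum]
  apply Finset.sum_congr rfl
  intro ε _
  unfold Z fr
  rw [Finset.prod_mul_distrib]
  congr 1
  unfold ez
  rw [← Complex.exp_sum]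
  congr 1
  push_cast
  rw [← Finset.sum_mul]
  congr 1
  rw [Finset.sum_mul, Finset.mul_sum]

/-- averages over the window `[R, R + H]` -/
noncomputable def Av (R H : ℝ) (g : ℝ → ℂ) : ℂ := (∫ r in R..(R+H), g r) / H

lemma Av_ez_zero {R H : ℝ} (hH : 0 < H) : Av R H (fun r => ez (0 * r)) = 1 := by
  unfold Av
  have hH' : (H : ℂ) ≠ 0 := by exact_mod_cast hH.ne'
  simp only [zero_mul, ez_zero]
  rw [intervalIntegral.integral_const]
  rw [add_sub_cancel_left, Complex.real_smul, mul_one, div_self hH']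

lemma norm_Av_ez {x : ℝ} (hx : x ≠ 0) {R H : ℝ} (hH : 0 < H) :
    ‖Av R H (fun r => ez (x * r))‖ ≤ 1 / (Real.pi * H) * |x|⁻¹ := by
  unfold Av
  rw [norm_div, Complex.norm_real, Real.norm_eq_abs, abs_of_pos hH]
  have hpi := Real.pi_pos
  have hx0 : 0 < |x| := abs_pos.mpr hx
  calc _ ≤ 1 / (Real.pi * |x|) / H := by gcongr; exact norm_int_ez hx R H
    _ = _ := by field_simp

lemma Av_KR_ez (d : J → ℕ) (β : J → ℝ) (x R H : ℝ) : Av R H (fun r => ((KR d β r : ℝ) : ℂ) * ez (x * r)) =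
    ∑ ε ∈ Fintype.piFinset (fun _ : J => sg), Z β ε * Av R H (fun r => ez ((fr (fun j => √(d j : ℝ)) ε + x) * r)) := by
  unfold Av
  have h1 : ∀ r : ℝ, ((KR d β r : ℝ) : ℂ) * ez (x * r) =
      ∑ ε ∈ Fintype.piFinset (fun _ : J => sg), Z β ε * ez ((fr (fun j => √(d j : ℝ)) ε + x) * r) := by
    intro r
    rw [KR_eq, Finset.sum_mul]
    apply Finset.sum_congr rfl
    intro ε _
    rw [add_mul, ez_add]; ring
  simp only [h1]
  rw [intervalIntegral.integral_finsetSum]
  · rw [Finset.sum_div]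
    apply Finset.sum_congr rfl
    intro ε _
    rw [intervalIntegral.integral_const_mul, mul_div_assoc]
  · intro ε _
    exact ((continuous_ez_mul _).const_mul _).intervalIntegrable _ _

/-- the arithmetic input -/
structure RA (d : J → ℕ) (M : ℕ) (G : ℝ) : Prop where
  M_pos : 1 ≤ M
  G_ge : 1 ≤ G
  d_pos : ∀ j, 1 ≤ d j
  d_le : ∀ j, d j ≤ M^2
  d_inj : Function.Injective d
  ind0 : ∀ ε ∈ Fintype.piFinset (fun _ : J => sg), fr (fun j => √(d j : ℝ)) ε = 0 → ε = 0
  ind : ∀ ε ∈ Fintype.piFinset (fun _ : J => sg), ∀ m : ℕ, 1 ≤ m →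
    fr (fun j => √(d j : ℝ)) ε + √(m:ℝ) = 0 → ∃ j, m = d j ∧ ε = -Pi.single j 1
  gap : ∀ ε ∈ Fintype.piFinset (fun _ : J => sg), ∀ m : ℕ, m ≤ M^2 →
    fr (fun j => √(d j : ℝ)) ε + √(m:ℝ) ≠ 0 → 1 / G ≤ |fr (fun j => √(d j : ℝ)) ε + √(m:ℝ)|
  far : ∀ ε ∈ Fintype.piFinset (fun _ : J => sg), |fr (fun j => √(d j : ℝ)) ε| ≤ M / 2

lemma RA.inv_le {d : J → ℕ} {M : ℕ} {G : ℝ} (hA : RA d M G) {ε : J → ℤ}
    (hε : ε ∈ Fintype.piFinset (fun _ : J => sg)) {m : ℕ} (hm : 1 ≤ m)
    (hne : fr (fun j => √(d j : ℝ)) ε + √(m:ℝ) ≠ 0) :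
    |fr (fun j => √(d j : ℝ)) ε + √(m:ℝ)|⁻¹ ≤ 2 * M * G / √(m:ℝ) := by
  have hM : (1:ℝ) ≤ M := by exact_mod_cast hA.M_pos
  have hG := hA.G_ge
  have hm0 : (0:ℝ) < m := by exact_mod_cast hm
  have hs : 0 < √(m:ℝ) := Real.sqrt_pos.mpr hm0
  set x := fr (fun j => √(d j : ℝ)) ε + √(m:ℝ) with hx
  have hx0 : 0 < |x| := abs_pos.mpr hne
  by_cases hmM : m ≤ M^2
  · have h1 := hA.gap ε hε m hmM hne
    rw [← hx] at h1
    have h2 : √(m:ℝ) ≤ M := by
      rw [Real.sqrt_le_left (by linarith)]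
      exact_mod_cast hmM
    rw [le_div_iff₀ hs, inv_mul_le_iff₀ hx0]
    have h3 : 1 ≤ |x| * G := by
      rw [div_le_iff₀ (by linarith)] at h1; exact h1
    calc √(m:ℝ) ≤ M * 1 := by linarith
      _ ≤ M * (|x| * G) := by gcongr
      _ ≤ 2 * (M * (|x| * G)) := by
          have : 0 ≤ (M:ℝ) * (|x| * G) := by positivity
          linarith
      _ = |x| * (2 * M * G) := by ring
  · push Not at hmM
    have h2 : (M:ℝ) ≤ √(m:ℝ) := by
      apply Real.le_sqrt_of_sq_le
      exact_mod_cast hmM.le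
    have h3 := hA.far ε hε
    have h4 : √(m:ℝ) / 2 ≤ |x| := by
      have h5 := abs_le.mp h3
      rw [hx]
      refine le_trans ?_ (le_abs_self _)
      linarith [h5.1]
    rw [le_div_iff₀ hs, inv_mul_le_iff₀ hx0]
    have h6 : (1:ℝ) ≤ M * G := by nlinarith
    calc √(m:ℝ) ≤ 2 * |x| := by linarith
      _ = |x| * (2 * 1) := by ring
      _ ≤ |x| * (2 * (M * G)) := by gcongr
      _ = _ := by ring

/-- the average of the Riesz product -/
lemma Av_KR {d : J → ℕ} {M : ℕ} {G : ℝ} (hA : RA d M G) (β : J → ℝ) {R H : ℝ} (hH : 0 < H) :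
    ‖Av R H (fun r => ((KR d β r : ℝ) : ℂ)) - 1‖ ≤ 2 ^ (Fintype.card J) * (G / (Real.pi * H)) := by
  classical
  have hpi := Real.pi_pos
  have hG := hA.G_ge
  have h1 := Av_KR_ez d β 0 R H
  have h2 : (fun r : ℝ => ((KR d β r : ℝ) : ℂ) * ez (0 * r)) = fun r : ℝ => ((KR d β r : ℝ) : ℂ) := by
    funext r
    rw [zero_mul, ez_zero, mul_one]
  rw [h2] at h1
  rw [h1]
  have h3 : (1:ℂ) = ∑ ε ∈ Fintype.piFinset (fun _ : J => sg), if ε = 0 then Z β ε else 0 := by
    rw [Finset.sum_ite_eq' _ _ _, if_pos zero_mem_sg, Z_zero]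
  rw [h3, ← Finset.sum_sub_distrib, ← sum_norm_Z β, Finset.sum_mul]
  refine (norm_sum_le _ _).trans (Finset.sum_le_sum (fun ε hε => ?_))
  by_cases h0 : ε = 0
  · subst h0
    rw [if_pos rfl, fr_zero, zero_add, Av_ez_zero hH, mul_one, sub_self, norm_zero]
    positivity
  · rw [if_neg h0, sub_zero, norm_mul]
    apply mul_le_mul_of_nonneg_left _ (norm_nonneg _)
    have hne : fr (fun j => √(d j : ℝ)) ε + 0 ≠ 0 := by
      rw [add_zero]
      intro h; exact h0 (hA.ind0 ε hε h)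
    refine (norm_Av_ez hne hH).trans ?_
    have h4 := hA.gap ε hε 0 (Nat.zero_le _) (by rw [Nat.cast_zero, Real.sqrt_zero]; exact hne)
    rw [Nat.cast_zero, Real.sqrt_zero] at h4
    have h5 : |fr (fun j => √(d j : ℝ)) ε + 0|⁻¹ ≤ G := by
      rw [inv_le_comm₀ (abs_pos.mpr hne) (by linarith), ← one_div]; exact h4
    calc _ ≤ 1 / (Real.pi * H) * G := by gcongr
      _ = _ := by ring

/-- the average of the Riesz product times a character -/
lemma Av_KR_m {d : J → ℕ} {M : ℕ} {G : ℝ} (hA : RA d M G) (β : J → ℝ) {R H : ℝ} (hH : 0 < H) {m : ℕ} (hm : 1 ≤ m) :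
    ‖Av R H (fun r => ((KR d β r : ℝ) : ℂ) * ez (√(m:ℝ) * r)) -
      ∑ j, (if m = d j then 1/2 * Complex.exp (((-β j : ℝ) : ℂ) * Complex.I) else 0)‖ ≤
      2 ^ (Fintype.card J) * (2 * M * G / (Real.pi * H)) * (√(m:ℝ))⁻¹ := by
  classical
  have hpi := Real.pi_pos
  have hG := hA.G_ge
  have hM : (1:ℝ) ≤ M := by exact_mod_cast hA.M_pos
  have hm0 : (0:ℝ) < m := by exact_mod_cast hm
  have hs : 0 < √(m:ℝ) := Real.sqrt_pos.mpr hm0
  rw [Av_KR_ez]
  have h3 : ∑ j, (if m = d j then 1/2 * Complex.exp (((-β j : ℝ) : ℂ) * Complex.I) else 0) =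
      ∑ ε ∈ Fintype.piFinset (fun _ : J => sg), if fr (fun j => √(d j : ℝ)) ε + √(m:ℝ) = 0 then Z β ε else 0 := by
    have h4 : ∑ ε ∈ Fintype.piFinset (fun _ : J => sg), (if fr (fun j => √(d j : ℝ)) ε + √(m:ℝ) = 0 then Z β ε else 0) =
        ∑ ε ∈ (Fintype.piFinset (fun _ : J => sg)).filter (fun ε => fr (fun j => √(d j : ℝ)) ε + √(m:ℝ) = 0), Z β ε :=
      (Finset.sum_filter _ _).symm
    rw [h4]
    by_cases hj : ∃ j, m = d j
    · obtain ⟨j, hj⟩ := hj
      have h2 : (Fintype.piFinset (fun _ : J => sg)).filter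
          (fun ε => fr (fun j => √(d j : ℝ)) ε + √(m:ℝ) = 0) = {-Pi.single j 1} := by
        ext ε
        rw [Finset.mem_filter, Finset.mem_singleton]
        constructor
        · rintro ⟨h1, h2⟩
          obtain ⟨j', hj', h3⟩ := hA.ind ε h1 m hm h2
          have : j' = j := hA.d_inj (by rw [← hj', hj])
          rw [h3, this]
        · rintro rfl
          refine ⟨single_mem_sg j, ?_⟩
          rw [fr_single, hj]; ring
      rw [h2, Finset.sum_singleton, Z_single, Finset.sum_eq_single j, if_pos hj]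
      · intro i _ hi
        rw [if_neg]
        intro h3
        exact hi (hA.d_inj (by rw [← h3, hj]))
      · intro h; exact absurd (Finset.mem_univ j) h
    · push Not at hj
      have h2 : (Fintype.piFinset (fun _ : J => sg)).filter
          (fun ε => fr (fun j => √(d j : ℝ)) ε + √(m:ℝ) = 0) = ∅ := by
        apply Finset.filter_eq_empty_iff.mpr
        intro ε h1 h2
        obtain ⟨j', hj', -⟩ := hA.ind ε h1 m hm h2
        exact hj j' hj'
      rw [h2, Finset.sum_empty, Finset.sum_eq_zero]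
      intro j _
      rw [if_neg (hj j)]
  rw [h3, ← Finset.sum_sub_distrib, ← sum_norm_Z β, mul_assoc, Finset.sum_mul]
  refine (norm_sum_le _ _).trans (Finset.sum_le_sum (fun ε hε => ?_))
  by_cases h0 : fr (fun j => √(d j : ℝ)) ε + √(m:ℝ) = 0
  · rw [if_pos h0, h0, Av_ez_zero hH, mul_one, sub_self, norm_zero]
    positivity
  · rw [if_neg h0, sub_zero, norm_mul]
    apply mul_le_mul_of_nonneg_left _ (norm_nonneg _)
    refine (norm_Av_ez h0 hH).trans ?_
    have h5 := hA.inv_le hε hm h0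
    calc _ ≤ 1 / (Real.pi * H) * (2 * M * G / √(m:ℝ)) := by gcongr
      _ = _ := by field_simp

/-- the average of the Riesz product times a trigonometric polynomial -/
lemma Av_KR_poly {d : J → ℕ} {M : ℕ} {G : ℝ} (hA : RA d M G) (β : J → ℝ) {R H : ℝ} (hH : 0 < H) (b : ℕ → ℂ)
    {Y : ℕ} (hY : M ≤ Y) :
    ‖Av R H (fun r => ((KR d β r : ℝ) : ℂ) * ∑ m ∈ Finset.Icc 1 (Y^2), b m * ez (√(m:ℝ) * r)) -
      ∑ j, b (d j) * (1/2 * Complex.exp (((-β j : ℝ) : ℂ) * Complex.I))‖ ≤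
      2 ^ (Fintype.card J) * (2 * M * G / (Real.pi * H)) * ∑ m ∈ Finset.Icc 1 (Y^2), ‖b m‖ * (√(m:ℝ))⁻¹ := by
  classical
  have e1 : Av R H (fun r => ((KR d β r : ℝ) : ℂ) * ∑ m ∈ Finset.Icc 1 (Y^2), b m * ez (√(m:ℝ) * r)) =
      ∑ m ∈ Finset.Icc 1 (Y^2), b m * Av R H (fun r => ((KR d β r : ℝ) : ℂ) * ez (√(m:ℝ) * r)) := by
    unfold Av
    have h1 : ∀ r : ℝ, ((KR d β r : ℝ) : ℂ) * ∑ m ∈ Finset.Icc 1 (Y^2), b m * ez (√(m:ℝ) * r) =
        ∑ m ∈ Finset.Icc 1 (Y^2), b m * (((KR d β r : ℝ) : ℂ) * ez (√(m:ℝ) * r)) := by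
      intro r
      rw [Finset.mul_sum]
      apply Finset.sum_congr rfl
      intro m _
      ring
    simp only [h1]
    rw [intervalIntegral.integral_finsetSum]
    · rw [Finset.sum_div]
      apply Finset.sum_congr rfl
      intro m _
      rw [intervalIntegral.integral_const_mul, mul_div_assoc]
    · intro m _
      apply Continuous.intervalIntegrable
      apply Continuous.mul continuous_const
      exact (Complex.continuous_ofReal.comp (KR_continuous d β)).mul (continuous_ez_mul _)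
  have e2 : ∑ j, b (d j) * (1/2 * Complex.exp (((-β j : ℝ) : ℂ) * Complex.I)) =
      ∑ m ∈ Finset.Icc 1 (Y^2), b m * ∑ j, (if m = d j then 1/2 * Complex.exp (((-β j : ℝ) : ℂ) * Complex.I) else 0) := by
    simp only [Finset.mul_sum]
    rw [Finset.sum_comm]
    apply Finset.sum_congr rfl
    intro j _
    rw [Finset.sum_eq_single (d j)]
    · rw [if_pos rfl]
    · intro m _ hm
      rw [if_neg hm, mul_zero]
    · intro h
      exfalso
      apply h
      rw [Finset.mem_Icc]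
      exact ⟨hA.d_pos j, (hA.d_le j).trans (Nat.pow_le_pow_left hY 2)⟩
  rw [e1, e2, ← Finset.sum_sub_distrib, Finset.mul_sum]
  refine (norm_sum_le _ _).trans (Finset.sum_le_sum (fun m hm => ?_))
  rw [Finset.mem_Icc] at hm
  rw [← mul_sub, norm_mul]
  calc _ ≤ ‖b m‖ * (2 ^ (Fintype.card J) * (2 * M * G / (Real.pi * H)) * (√(m:ℝ))⁻¹) :=
        mul_le_mul_of_nonneg_left (Av_KR_m hA β hH hm.1) (norm_nonneg _)
    _ = _ := by ring


end Pool.Agent.Helper932CL
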