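import Mathlib
import Pool.Agent.H383.LinIndep
import Pool.Agent.Helper932CL.Riesz

/-!
Sets of integers with different squarefree parts: independence and gaps of the square roots.
-/

set_option autoImplicit false

open Finset

namespace Pool.Agent.Helper932CL

/-- squarefree part -/
noncomputable def sf (m : ℕ) : ℕ := (Nat.sq_mul_squarefree m).choose

/-- square part -/
noncomputable def rt (m : ℕ) : ℕ := (Nat.sq_mul_squarefree m).choose_spec.choose

lemma rt_sf (m : ℕ) : rt m ^ 2 * sf m = m := (Nat.sq_mul_squarefree m).choose_spec.choose_spec.1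

lemma sf_squarefree (m : ℕ) : Squarefree (sf m) := (Nat.sq_mul_squarefree m).choose_spec.choose_spec.2

lemma sqrt_eq (m : ℕ) : √(m:ℝ) = rt m * √(sf m : ℝ) := by
  have h := rt_sf m
  have h1 : (m:ℝ) = (rt m : ℝ) ^ 2 * sf m := by
    calc (m:ℝ) = ((rt m ^ 2 * sf m : ℕ) : ℝ) := by rw [h]
      _ = _ := by push_cast; ring
  rw [h1, Real.sqrt_mul (sq_nonneg _), Real.sqrt_sq (Nat.cast_nonneg _)]

lemma rt_pos {m : ℕ} (hm : 1 ≤ m) : 1 ≤ rt m := by
  by_contra h
  have h0 : rt m = 0 := by omega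
  have := rt_sf m
  rw [h0] at this
  simp at this
  omega

lemma sf_pos (m : ℕ) : 1 ≤ sf m := Nat.one_le_iff_ne_zero.mpr (sf_squarefree m).ne_zero

/-- independence -/
lemma indep {F : Finset ℕ} (hF : ∀ m ∈ F, 1 ≤ m) (hinj : Set.InjOn sf F) (c : ℕ → ℚ)
    (h : ∑ m ∈ F, (c m : ℝ) * √(m:ℝ) = 0) : ∀ m ∈ F, c m = 0 := by
  set φ : F → {s : ℕ // Squarefree s} := fun m => ⟨sf m.1, sf_squarefree m.1⟩ with hφ
  have hφi : Function.Injective φ := by
    intro m m' hmm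
    apply Subtype.ext
    exact hinj m.2 m'.2 (by have := congrArg Subtype.val hmm; exact this)
  have h1 := Pool.Agent.H383.Gauss.sf_indep.comp φ hφi
  rw [Fintype.linearIndependent_iff] at h1
  have h2 := h1 (fun m => c m.1 * (rt m.1 : ℚ)) (by
    have h3 : ∑ m ∈ F, (c m : ℝ) * √(m:ℝ) = ∑ m : F, (c m.1 : ℝ) * √((m.1 : ℕ) : ℝ) :=
      (Finset.sum_coe_sort F (fun m => (c m : ℝ) * √(m:ℝ))).symm
    rw [h3] at h
    rw [← h]
    apply Finset.sum_congr rfl
    intro m _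
    simp only [Function.comp, hφ]
    rw [sqrt_eq m.1, Rat.smul_def]
    push_cast
    ring)
  intro m hm
  have h4 := h2 ⟨m, hm⟩
  simp only at h4
  have h5 : (rt m : ℚ) ≠ 0 := by
    have := rt_pos (hF m hm)
    exact_mod_cast (by omega : rt m ≠ 0)
  exact (mul_eq_zero.mp h4).resolve_right h5

/-- relations with one more root -/
lemma indep_one {D : Finset ℕ} (hD : ∀ m ∈ D, 1 ≤ m) (hinj : Set.InjOn sf D) (ε : ℕ → ℤ)
    (hε : ∀ m ∈ D, ε m = -1 ∨ ε m = 0 ∨ ε m = 1) {n : ℕ} (hn : 1 ≤ n)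
    (h : ∑ m ∈ D, (ε m : ℝ) * √(m:ℝ) + √(n:ℝ) = 0) : n ∈ D ∧ ∀ m ∈ D, ε m = if m = n then -1 else 0 := by
  classical
  by_cases hq : ∃ m0 ∈ D, sf m0 = sf n
  · obtain ⟨m0, hm0, hq⟩ := hq
    have hr0 := rt_pos (hD m0 hm0)
    have hrn := rt_pos hn
    have hr0' : (0:ℝ) < rt m0 := by exact_mod_cast hr0
    have hn' : √(n:ℝ) = ((rt n : ℚ) / (rt m0 : ℚ) : ℚ) * √(m0:ℝ) := by
      rw [sqrt_eq n, sqrt_eq m0, hq]
      push_cast
      field_simp
    set c : ℕ → ℚ := fun m => (ε m : ℚ) + if m = m0 then (rt n : ℚ) / (rt m0 : ℚ) else 0 with hc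
    have h1 : ∑ m ∈ D, (c m : ℝ) * √(m:ℝ) = 0 := by
      rw [← h, hn']
      simp only [hc]
      have h2 : ∀ m ∈ D, (((ε m : ℚ) + if m = m0 then (rt n : ℚ) / (rt m0 : ℚ) else 0 : ℚ) : ℝ) * √(m:ℝ) =
          (ε m : ℝ) * √(m:ℝ) + if m = m0 then (((rt n : ℚ) / (rt m0 : ℚ) : ℚ) : ℝ) * √(m0:ℝ) else 0 := by
        intro m _
        split_ifs with h3
        · subst h3; push_cast; ring
        · push_cast; ring
      rw [Finset.sum_congr rfl h2, Finset.sum_add_distrib, Finset.sum_ite_eq' D m0, if_pos hm0]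
    have h2 := indep hD hinj c h1
    have h3 := h2 m0 hm0
    simp only [hc, if_true] at h3
    have hr0q : (0:ℚ) < rt m0 := by exact_mod_cast hr0
    have hrnq : (0:ℚ) < rt n := by exact_mod_cast hrn
    have h4 : (0:ℚ) < (rt n : ℚ) / (rt m0 : ℚ) := by positivity
    have h5 : ε m0 = -1 := by
      rcases hε m0 hm0 with h6 | h6 | h6
      · exact h6
      · rw [h6] at h3; push_cast at h3; linarith
      · rw [h6] at h3; push_cast at h3; linarith
    have h6 : (rt n : ℚ) / (rt m0 : ℚ) = 1 := by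
      rw [h5] at h3; push_cast at h3; linarith
    have h7 : rt n = rt m0 := by
      rw [div_eq_one_iff_eq hr0q.ne'] at h6
      exact_mod_cast h6
    have h8 : n = m0 := by
      rw [← rt_sf n, ← rt_sf m0, h7, hq]
    refine ⟨h8 ▸ hm0, ?_⟩
    intro m hm
    by_cases hmn : m = n
    · rw [if_pos hmn, hmn, h8, h5]
    · rw [if_neg hmn]
      have h9 := h2 m hm
      simp only [hc] at h9
      rw [if_neg (by rw [← h8]; exact hmn), add_zero] at h9
      exact_mod_cast h9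
  · push Not at hq
    exfalso
    have hnD : n ∉ D := fun hnD => hq n hnD rfl
    have hinj' : Set.InjOn sf ((insert n D : Finset ℕ) : Set ℕ) := by
      intro x hx y hy hxy
      rw [Finset.mem_coe, Finset.mem_insert] at hx hy
      rcases hx with rfl | hx <;> rcases hy with rfl | hy
      · rfl
      · exact absurd hxy.symm (hq y hy)
      · exact absurd hxy (hq x hx)
      · exact hinj hx hy hxy
    have h1 := indep (F := insert n D) (by
      intro m hm
      rw [Finset.mem_insert] at hm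
      rcases hm with rfl | hm
      · exact hn
      · exact hD m hm) hinj' (fun m => if m = n then 1 else (ε m : ℚ)) (by
      rw [Finset.sum_insert hnD, if_pos rfl, ← h, add_comm]
      congr 1
      · apply Finset.sum_congr rfl
        intro m hm
        rw [if_neg (fun h : m = n => hnD (h ▸ hm))]
        push_cast; ring
      · push_cast; ring) n (Finset.mem_insert_self _ _)
    simp at h1

open Pool.Agent.W24.Liou in
/-- the gap -/
lemma gap_gen {D : Finset ℕ} {M : ℕ} (hM : 1 ≤ M) (hD : ∀ m ∈ D, 1 ≤ m ∧ m ≤ M^2) (ε : {m // m ∈ D} → ℤ)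
    (hε : ∀ j, |(ε j : ℝ)| ≤ 1) {n : ℕ} (hn : n ≤ M^2)
    (hne : ∑ j, (ε j : ℝ) * √((j.1 : ℕ):ℝ) + √(n:ℝ) ≠ 0) :
    1 ≤ |∑ j, (ε j : ℝ) * √((j.1 : ℕ):ℝ) + √(n:ℝ)| * (((D.card + 1) * M : ℕ) : ℝ) ^ (2 ^ (D.card + 1)) := by
  classical
  obtain ⟨g0, e0, hg0, hg0M, he0, hge⟩ : ∃ (g0 : ℕ) (e0 : ℤ), 1 ≤ g0 ∧ g0 ≤ M^2 ∧ |(e0 : ℝ)| ≤ 1 ∧
      (e0 : ℝ) * √(g0 : ℝ) = √(n:ℝ) := by
    by_cases hn0 : n = 0
    · exact ⟨1, 0, le_rfl, Nat.one_le_pow _ _ hM, by norm_num, by rw [hn0]; norm_num⟩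
    · exact ⟨n, 1, by omega, hn, by norm_num, by norm_num⟩
  obtain ⟨g, hgn, hgs⟩ : ∃ g : Option {m // m ∈ D} → ℕ, g none = g0 ∧ ∀ j, g (some j) = j.1 :=
    ⟨fun k => k.elim g0 (fun j => j.1), rfl, fun _ => rfl⟩
  obtain ⟨e, hen, hes⟩ : ∃ e : Option {m // m ∈ D} → ℤ, e none = e0 ∧ ∀ j, e (some j) = ε j :=
    ⟨fun k => k.elim e0 (fun j => ε j), rfl, fun _ => rfl⟩
  have hg1 : ∀ i, 1 ≤ g i := by
    intro i
    cases i with
    | none => rw [hgn]; exact hg0
    | some j => rw [hgs]; exact (hD j.1 j.2).1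
  have hgM : ∀ i, √(g i : ℝ) ≤ M := by
    intro i
    rw [Real.sqrt_le_left (Nat.cast_nonneg _)]
    have : g i ≤ M^2 := by
      cases i with
      | none => rw [hgn]; exact hg0M
      | some j => rw [hgs]; exact (hD j.1 j.2).2
    exact_mod_cast this
  have he1 : ∀ i, |(e i : ℝ)| ≤ 1 := by
    intro i
    cases i with
    | none => rw [hen]; exact he0
    | some j => rw [hes]; exact hε j
  set c : Finset (Option {m // m ∈ D}) → ℤ := fun T => ∑ k, if ({k} : Finset (Option {m // m ∈ D})) = T then e k else 0 with hc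
  have hv : ∀ k : Option {m // m ∈ D}, vv g {k} = √(g k : ℝ) := by
    intro k; unfold vv; rw [Finset.prod_singleton]
  have h1 : ∑ T, (c T : ℝ) * vv g T = ∑ k, (e k : ℝ) * √(g k : ℝ) := by
    simp only [hc]
    push_cast
    simp only [Finset.sum_mul]
    rw [Finset.sum_comm]
    apply Finset.sum_congr rfl
    intro k _
    rw [Finset.sum_eq_single ({k} : Finset (Option {m // m ∈ D}))]
    · rw [if_pos rfl, hv]
    · intro T _ hT
      rw [if_neg (Ne.symm hT), zero_mul]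
    · intro h; exact absurd (Finset.mem_univ _) h
  have h2 : ∑ T, |(c T : ℝ)| * vv g T ≤ ∑ k, √(g k : ℝ) := by
    have h3 : ∀ T, |(c T : ℝ)| * vv g T ≤ ∑ k, (if ({k} : Finset (Option {m // m ∈ D})) = T then (1:ℝ) else 0) * vv g T := by
      intro T
      rw [← Finset.sum_mul]
      apply mul_le_mul_of_nonneg_right _ (vv_pos hg1 T).le
      simp only [hc]
      push_cast
      refine (Finset.abs_sum_le_sum_abs _ _).trans (Finset.sum_le_sum ?_)
      intro k _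
      split_ifs
      · exact he1 k
      · simp
    refine (Finset.sum_le_sum (fun T _ => h3 T)).trans (le_of_eq ?_)
    rw [Finset.sum_comm]
    apply Finset.sum_congr rfl
    intro k _
    rw [Finset.sum_eq_single ({k} : Finset (Option {m // m ∈ D}))]
    · rw [if_pos rfl, hv, one_mul]
    · intro T _ hT
      rw [if_neg (Ne.symm hT), zero_mul]
    · intro h; exact absurd (Finset.mem_univ _) h
  have hcard : Fintype.card (Option {m // m ∈ D}) = D.card + 1 := by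
    rw [Fintype.card_option, Fintype.card_coe]
  have h3 : ∑ k, √(g k : ℝ) ≤ (((D.card + 1) * M : ℕ) : ℝ) := by
    calc ∑ k, √(g k : ℝ) ≤ ∑ _k : Option {m // m ∈ D}, (M:ℝ) := Finset.sum_le_sum fun k _ => hgM k
      _ = _ := by rw [Finset.sum_const, Finset.card_univ, hcard, nsmul_eq_mul]; push_cast; ring
  have h4 : ∑ k, (e k : ℝ) * √(g k : ℝ) = ∑ j, (ε j : ℝ) * √((j.1 : ℕ):ℝ) + √(n:ℝ) := by
    rw [Fintype.sum_option, add_comm, hgn, hen, hge]
    congr 1
    apply Finset.sum_congr rfl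
    intro j _
    rw [hgs, hes]
  have h5 := liou hg1 c (B := (((D.card + 1) * M : ℕ) : ℝ)) (by
    have : 1 ≤ (D.card + 1) * M := Nat.one_le_iff_ne_zero.mpr (by positivity)
    exact_mod_cast this) (h2.trans h3) (by rw [h1, h4]; exact hne)
  rw [h1, h4, hcard] at h5
  exact h5

/-- the arithmetic input for the Riesz product -/
theorem RA_ker {D : Finset ℕ} {M : ℕ} (hM : 1 ≤ M) (hD : ∀ m ∈ D, 1 ≤ m ∧ m ≤ M^2) (hinj : Set.InjOn sf D)
    (hfar : ∑ m ∈ D, √(m:ℝ) ≤ M / 2) :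
    RA (fun j : {m // m ∈ D} => j.1) M ((((D.card + 1) * M : ℕ) : ℝ) ^ (2 ^ (D.card + 1))) := by
  classical
  have hsg : ∀ ε ∈ Fintype.piFinset (fun _ : {m // m ∈ D} => sg), ∀ j, ε j = -1 ∨ ε j = 0 ∨ ε j = 1 := by
    intro ε hε j
    have h := (Fintype.mem_piFinset.mp hε) j
    simpa [sg] using h
  have hsg1 : ∀ ε ∈ Fintype.piFinset (fun _ : {m // m ∈ D} => sg), ∀ j, |(ε j : ℝ)| ≤ 1 := by
    intro ε hε j
    rcases hsg ε hε j with h | h | h <;> rw [h] <;> norm_num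
  have hext : ∀ ε : {m // m ∈ D} → ℤ, fr (fun j : {m // m ∈ D} => √((j.1 : ℕ):ℝ)) ε =
      ∑ m ∈ D, ((if h : m ∈ D then ε ⟨m, h⟩ else 0 : ℤ) : ℝ) * √(m:ℝ) := by
    intro ε
    unfold fr
    rw [← Finset.sum_coe_sort D (fun m => ((if h : m ∈ D then ε ⟨m, h⟩ else 0 : ℤ) : ℝ) * √(m:ℝ))]
    apply Finset.sum_congr rfl
    intro j _
    rw [dif_pos j.2]
  have hG : (1:ℝ) ≤ (((D.card + 1) * M : ℕ) : ℝ) := by
    have : 1 ≤ (D.card + 1) * M := Nat.one_le_iff_ne_zero.mpr (by positivity)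
    exact_mod_cast this
  refine ⟨hM, one_le_pow₀ hG, fun j => (hD j.1 j.2).1, fun j => (hD j.1 j.2).2, Subtype.val_injective, ?_, ?_, ?_, ?_⟩
  · intro ε hε h0
    rw [hext] at h0
    have h1 := indep (fun m hm => (hD m hm).1) hinj (fun m => ((if h : m ∈ D then ε ⟨m, h⟩ else 0 : ℤ) : ℚ)) (by
      rw [← h0]
      apply Finset.sum_congr rfl
      intro m _
      push_cast; ring)
    funext j
    have h2 := h1 j.1 j.2
    rw [dif_pos j.2] at h2
    exact_mod_cast h2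
  · intro ε hε n hn h0
    rw [hext] at h0
    obtain ⟨h1, h2⟩ := indep_one (fun m hm => (hD m hm).1) hinj (fun m => (if h : m ∈ D then ε ⟨m, h⟩ else 0 : ℤ)) (by
      intro m hm
      rw [dif_pos hm]
      exact hsg ε hε _) hn h0
    refine ⟨⟨n, h1⟩, rfl, ?_⟩
    funext j
    have h3 := h2 j.1 j.2
    rw [dif_pos j.2] at h3
    rw [show (⟨j.1, j.2⟩ : {m // m ∈ D}) = j from rfl] at h3
    rw [h3, Pi.neg_apply]
    by_cases hj : j.1 = n
    · rw [if_pos hj]
      have : j = ⟨n, h1⟩ := Subtype.ext hj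
      rw [this, Pi.single_eq_same]
    · rw [if_neg hj, Pi.single_eq_of_ne (fun h => hj (by rw [h])), neg_zero]
  · intro ε hε n hn hne
    have h1 := gap_gen hM hD ε (hsg1 ε hε) hn hne
    rw [div_le_iff₀ (by positivity)]
    exact h1
  · intro ε hε
    refine le_trans ?_ hfar
    unfold fr
    refine (Finset.abs_sum_le_sum_abs _ _).trans ?_
    rw [← Finset.sum_coe_sort D (fun m => √(m:ℝ))]
    apply Finset.sum_le_sum
    intro j _
    rw [abs_mul, abs_of_nonneg (Real.sqrt_nonneg _)]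
    calc |(ε j : ℝ)| * √((j.1 : ℕ):ℝ) ≤ 1 * √((j.1 : ℕ):ℝ) := mul_le_mul_of_nonneg_right (hsg1 ε hε j) (Real.sqrt_nonneg _)
      _ = _ := one_mul _

/-- a subset with different squarefree parts -/
theorem exists_ker {T : Finset ℕ} {Y : ℕ} (hT : ∀ m ∈ T, 1 ≤ m ∧ m ≤ Y) :
    ∃ D : Finset ℕ, D ⊆ T ∧ Set.InjOn sf D ∧ (T.card : ℝ) ^ 2 ≤ 9 * Y * D.card := by
  classical
  set Q := T.image sf with hQ
  have hrep : ∀ q ∈ Q, ∃ m ∈ T, sf m = q := by
    intro q hq
    rw [hQ, Finset.mem_image] at hq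
    exact hq
  choose! rep hrep1 hrep2 using hrep
  set D := Q.image rep with hD
  have hDT : D ⊆ T := by
    intro m hm
    rw [hD, Finset.mem_image] at hm
    obtain ⟨q, hq, rfl⟩ := hm
    exact hrep1 q hq
  have hrinj : Set.InjOn rep Q := by
    intro q hq q' hq' h
    rw [← hrep2 q hq, ← hrep2 q' hq', h]
  have hDinj : Set.InjOn sf D := by
    intro m hm m' hm' h
    rw [hD, Finset.mem_coe, Finset.mem_image] at hm hm'
    obtain ⟨q, hq, rfl⟩ := hm
    obtain ⟨q', hq', rfl⟩ := hm'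
    rw [hrep2 q hq, hrep2 q' hq'] at h
    rw [h]
  have hDc : D.card = Q.card := Finset.card_image_of_injOn hrinj
  refine ⟨D, hDT, hDinj, ?_⟩
  rw [hDc]
  by_cases hT0 : T = ∅
  · rw [hT0]; simp; positivity
  have hQ1 : 1 ≤ Q.card := by
    rw [hQ]
    exact Finset.card_pos.mpr (Finset.Nonempty.image (Finset.nonempty_iff_ne_empty.mpr hT0) _)
  have hQ0 : (0:ℝ) < Q.card := by exact_mod_cast hQ1
  obtain ⟨m1, hm1⟩ := Finset.nonempty_iff_ne_empty.mpr hT0
  have hY0 : (0:ℝ) < Y := by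
    have := hT m1 hm1
    exact_mod_cast (by omega : 0 < Y)
  -- fibres
  have hfib : ∀ q ∈ Q, ((T.filter (fun m => sf m = q)).card : ℝ) ≤ √((Y:ℝ) / q) := by
    intro q hq
    have hq1 : 1 ≤ q := by
      rw [← hrep2 q hq]; exact sf_pos _
    have hq0 : (0:ℝ) < q := by exact_mod_cast hq1
    have h1 : (T.filter (fun m => sf m = q)).card ≤ (Finset.Icc 1 (Nat.floor (√((Y:ℝ) / q)))).card := by
      apply Finset.card_le_card_of_injOn rt
      · intro m hm
        rw [Finset.mem_coe, Finset.mem_filter] at hm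
        have h2 := hT m hm.1
        rw [Finset.mem_coe, Finset.mem_Icc]
        refine ⟨rt_pos h2.1, Nat.le_floor (Real.le_sqrt_of_sq_le ?_)⟩
        rw [le_div_iff₀ hq0]
        have h3 := rt_sf m
        rw [hm.2] at h3
        have h4 : (rt m : ℝ) ^ 2 * q = m := by exact_mod_cast h3
        rw [h4]
        exact_mod_cast h2.2
      · intro m hm m' hm' h
        rw [Finset.mem_coe, Finset.mem_filter] at hm hm'
        rw [← rt_sf m, ← rt_sf m', h, hm.2, hm'.2]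
    calc ((T.filter (fun m => sf m = q)).card : ℝ) ≤ ((Finset.Icc 1 (Nat.floor (√((Y:ℝ) / q)))).card : ℝ) := by exact_mod_cast h1
      _ = (Nat.floor (√((Y:ℝ) / q)) : ℝ) := by rw [Nat.card_Icc, Nat.add_sub_cancel]
      _ ≤ _ := Nat.floor_le (Real.sqrt_nonneg _)
  have hTc : (T.card : ℝ) = ∑ q ∈ Q, ((T.filter (fun m => sf m = q)).card : ℝ) := by
    rw [← Nat.cast_sum, ← Finset.card_eq_sum_card_image sf T]
  -- sum over the kernels
  have hsum : ∑ q ∈ Q, √((Y:ℝ) / q) ≤ 3 * √(Y * Q.card) := by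
    set X := Q.card with hX
    have h1 : ∀ q ∈ Q, √((Y:ℝ) / q) ≤ (if q ∈ Finset.Icc 1 X then √((Y:ℝ) / q) else 0) + √((Y:ℝ) / X) := by
      intro q hq
      split_ifs with h2
      · have := Real.sqrt_nonneg ((Y:ℝ) / X); linarith
      · rw [zero_add]
        have hq1 : 1 ≤ q := by rw [← hrep2 q hq]; exact sf_pos _
        rw [Finset.mem_Icc] at h2
        have h3 : X ≤ q := by omega
        apply Real.sqrt_le_sqrt
        apply div_le_div_of_nonneg_left hY0.le hQ0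
        exact_mod_cast h3
    have h2 : ∑ q ∈ Finset.Icc 1 X, √((Y:ℝ) / q) ≤ 2 * √(Y * X) := by
      have h3 : ∀ K : ℕ, ∑ q ∈ Finset.Icc 1 K, √((Y:ℝ) / q) ≤ 2 * √(Y * K) := by
        intro K
        induction K with
        | zero => simp
        | succ K ih =>
          rw [Finset.sum_Icc_succ_top (by omega)]
          have e1 : √((Y:ℝ) / (K+1:ℕ)) = √(Y:ℝ) / √((K+1:ℕ):ℝ) := Real.sqrt_div hY0.le _
          have e2 : √((Y:ℝ) * (K+1:ℕ)) = √(Y:ℝ) * √((K+1:ℕ):ℝ) := Real.sqrt_mul hY0.le _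
          have e3 : √((Y:ℝ) * K) = √(Y:ℝ) * √(K:ℝ) := Real.sqrt_mul hY0.le _
          rw [e1, e2]
          rw [e3] at ih
          have hs : 0 < √(Y:ℝ) := Real.sqrt_pos.mpr hY0
          have hk1 : 0 < √((K+1:ℕ):ℝ) := Real.sqrt_pos.mpr (by positivity)
          have a1 : √((K+1:ℕ):ℝ) * √((K+1:ℕ):ℝ) = K + 1 := by rw [Real.mul_self_sqrt (Nat.cast_nonneg _)]; push_cast; ring
          have a2 : √(K:ℝ) * √(K:ℝ) = K := Real.mul_self_sqrt (Nat.cast_nonneg _)
          have a3 : 0 ≤ √(K:ℝ) := Real.sqrt_nonneg _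
          have a4 : 2 * √(K:ℝ) + 1 / √((K+1:ℕ):ℝ) ≤ 2 * √((K+1:ℕ):ℝ) := by
            rw [← sub_nonneg]
            have : 2 * √((K+1:ℕ):ℝ) - (2 * √(K:ℝ) + 1 / √((K+1:ℕ):ℝ)) =
                (√((K+1:ℕ):ℝ) - √(K:ℝ)) ^ 2 / √((K+1:ℕ):ℝ) := by
              field_simp
              nlinarith
            rw [this]; positivity
          have a5 := mul_le_mul_of_nonneg_left a4 hs.le
          have e4 : √(Y:ℝ) / √((K+1:ℕ):ℝ) = √(Y:ℝ) * (1 / √((K+1:ℕ):ℝ)) := by ring
          rw [e4]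
          nlinarith
      exact h3 X
    have h3 : ∑ q ∈ Q, (if q ∈ Finset.Icc 1 X then √((Y:ℝ) / q) else 0) ≤ ∑ q ∈ Finset.Icc 1 X, √((Y:ℝ) / q) := by
      rw [← Finset.sum_filter]
      apply Finset.sum_le_sum_of_subset_of_nonneg
      · intro q hq; exact (Finset.mem_filter.mp hq).2
      · intro q _ _; exact Real.sqrt_nonneg _
    have h4 : (X:ℝ) * √((Y:ℝ) / X) = √(Y * X) := by
      have e1 : (Y:ℝ) * X = (X:ℝ)^2 * ((Y:ℝ) / X) := by field_simp
      rw [e1, Real.sqrt_mul (sq_nonneg _), Real.sqrt_sq hQ0.le]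
    calc ∑ q ∈ Q, √((Y:ℝ) / q) ≤ ∑ q ∈ Q, ((if q ∈ Finset.Icc 1 X then √((Y:ℝ) / q) else 0) + √((Y:ℝ) / X)) :=
          Finset.sum_le_sum h1
      _ = ∑ q ∈ Q, (if q ∈ Finset.Icc 1 X then √((Y:ℝ) / q) else 0) + X * √((Y:ℝ) / X) := by
          rw [Finset.sum_add_distrib, Finset.sum_const, nsmul_eq_mul]
      _ ≤ _ := by rw [h4]; linarith
  have h5 : (T.card : ℝ) ≤ 3 * √(Y * Q.card) := by
    rw [hTc]
    exact (Finset.sum_le_sum hfib).trans hsum
  calc (T.card : ℝ) ^ 2 ≤ (3 * √(Y * Q.card)) ^ 2 := pow_le_pow_left₀ (Nat.cast_nonneg _) h5 2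
    _ = 9 * Y * Q.card := by rw [mul_pow, Real.sq_sqrt (by positivity)]; ring

end Pool.Agent.Helper932CL
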