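import Mathlib

/-!
Nested intervals: the probability that all of a sequence of events of faster and faster oscillation fail.
-/

set_option autoImplicit false

open MeasureTheory Set

namespace Pool.Agent.Helper932CL

/-- partition of an interval into cells of equal `f`-length -/
lemma exists_part {f : ℝ → ℝ} (hf : StrictMono f) (hc : Continuous f) {u v : ℝ} (huv : u < v) {N : ℕ} (hN : 1 ≤ N) :
    ∃ t : ℕ → ℝ, t 0 = u ∧ t N = v ∧ (∀ i, i < N → t i < t (i + 1)) ∧ (∀ i, i ≤ N → u ≤ t i ∧ t i ≤ v) ∧
      ∀ i, i < N → f (t (i + 1)) - f (t i) = (f v - f u) / N := by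
  have hN0 : (0:ℝ) < N := by exact_mod_cast hN
  have hfuv : f u < f v := hf huv
  have h1 : ∀ i : ℕ, i ≤ N → ∃ x ∈ Icc u v, f x = f u + i * ((f v - f u) / N) := by
    intro i hi
    have hi' : (i:ℝ) ≤ N := by exact_mod_cast hi
    have hd : 0 ≤ (f v - f u) / N := div_nonneg (by linarith) hN0.le
    have h2 : f u + i * ((f v - f u) / N) ∈ Icc (f u) (f v) := by
      constructor
      · have : 0 ≤ (i:ℝ) * ((f v - f u) / N) := mul_nonneg (Nat.cast_nonneg _) hd
        linarith
      · have h3 : (i:ℝ) * ((f v - f u) / N) ≤ N * ((f v - f u) / N) := mul_le_mul_of_nonneg_right hi' hd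
        have h4 : (N:ℝ) * ((f v - f u) / N) = f v - f u := by field_simp
        linarith
    obtain ⟨x, hx, hxe⟩ := intermediate_value_Icc huv.le hc.continuousOn h2
    exact ⟨x, hx, hxe⟩
  choose! t ht using h1
  refine ⟨t, ?_, ?_, ?_, ?_, ?_⟩
  · have h2 := (ht 0 (Nat.zero_le _)).2
    apply hf.injective
    rw [h2]; simp
  · have h2 := (ht N le_rfl).2
    apply hf.injective
    rw [h2]
    field_simp
    ring
  · intro i hi
    rw [← hf.lt_iff_lt, (ht i hi.le).2, (ht (i+1) hi).2]
    have : 0 < (f v - f u) / N := div_pos (by linarith) hN0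
    push_cast
    nlinarith
  · intro i hi
    exact (ht i hi).1
  · intro i hi
    rw [(ht i hi.le).2, (ht (i+1) hi).2]
    push_cast
    ring

lemma vol_split (B : Set ℝ) (hB : MeasurableSet B) (t : ℕ → ℝ) (N : ℕ) (ht : ∀ i, i < N → t i < t (i + 1)) :
    volume.real (B ∩ Ioc (t 0) (t N)) = ∑ i ∈ Finset.range N, volume.real (B ∩ Ioc (t i) (t (i + 1))) := by
  induction N with
  | zero => simp
  | succ N ih =>
    have ih' := ih (fun i hi => ht i (by omega))
    rw [Finset.sum_range_succ, ← ih']
    have hm : ∀ K : ℕ, K ≤ N → t 0 ≤ t K := by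
      intro K
      induction K with
      | zero => intro _; exact le_rfl
      | succ K ihK =>
        intro hK
        exact (ihK (by omega)).trans (ht K (by omega)).le
    have h1 := hm N le_rfl
    have h2 := ht N (Nat.lt_succ_self N)
    have e : B ∩ Ioc (t 0) (t (N + 1)) = (B ∩ Ioc (t 0) (t N)) ∪ (B ∩ Ioc (t N) (t (N + 1))) := by
      rw [← inter_union_distrib_left, Ioc_union_Ioc_eq_Ioc h1 h2.le]
    have hfin : ∀ (u v : ℝ), volume (B ∩ Ioc u v) ≠ ⊤ := fun u v =>
      ne_of_lt (lt_of_le_of_lt (measure_mono inter_subset_right) (by rw [Real.volume_Ioc]; exact ENNReal.ofReal_lt_top))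
    rw [e, measureReal_union _ (hB.inter measurableSet_Ioc) (hfin _ _) (hfin _ _)]
    rw [Set.disjoint_left]
    rintro x ⟨_, hx1⟩ ⟨_, hx2⟩
    exact absurd hx1.2 (not_le.mpr hx2.1)

/-- the probability that all the events fail -/
theorem nest {f W : ℕ → ℝ → ℝ} (hf : ∀ j, StrictMono (f j)) (hfc : ∀ j, Continuous (f j)) (hW : ∀ j, Continuous (W j))
    {c ρ H p V : ℝ} (hρ : 0 < ρ) (hρH : ρ ≤ H) (hp1 : p ≤ 1)
    (hg : ∀ j u v, c ≤ u → u < v → (2 * H / ρ) * (f j v - f j u) ≤ f (j + 1) v - f (j + 1) u)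
    (hL : ∀ j y y', |f j y - f j y'| ≤ ρ → |W j y - W j y'| ≤ 1)
    (hloc : ∀ j u v, c ≤ u → u < v → H ≤ f j v - f j u → p * (v - u) ≤ volume.real ({y | V + 1 < W j y} ∩ Ioc u v)) :
    ∀ m j : ℕ, ∀ u v : ℝ, c ≤ u → u < v → H ≤ f j v - f j u →
      volume.real ({y | ∀ i, i < m → W (j + i) y ≤ V} ∩ Ioc u v) ≤ (1 - p) ^ m * (v - u) := by
  have hp1' : 0 ≤ 1 - p := by linarith
  have hmeasB : ∀ m j : ℕ, MeasurableSet {y : ℝ | ∀ i, i < m → W (j + i) y ≤ V} := by
    intro m j
    have : {y : ℝ | ∀ i, i < m → W (j + i) y ≤ V} = ⋂ i : ℕ, ⋂ _ : i < m, {y | W (j + i) y ≤ V} := by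
      ext y; simp
    rw [this]
    exact MeasurableSet.iInter fun i => MeasurableSet.iInter fun _ => measurableSet_le (hW _).measurable measurable_const
  have hfin : ∀ (B : Set ℝ) (u v : ℝ), volume (B ∩ Ioc u v) ≠ ⊤ := fun B u v =>
    ne_of_lt (lt_of_le_of_lt (measure_mono inter_subset_right) (by rw [Real.volume_Ioc]; exact ENNReal.ofReal_lt_top))
  intro m
  induction m with
  | zero =>
    intro j u v _ huv _
    rw [pow_zero, one_mul]
    calc volume.real ({y | ∀ i, i < 0 → W (j + i) y ≤ V} ∩ Ioc u v) ≤ volume.real (Ioc u v) :=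
          measureReal_mono inter_subset_right (by rw [Real.volume_Ioc]; exact ENNReal.ofReal_ne_top)
      _ = v - u := by rw [Real.volume_real_Ioc_of_le huv.le]
  | succ m ih =>
    intro j u v hcu huv hH
    set L := f j v - f j u with hLdef
    have hL0 : 0 < L := by linarith
    -- number of cells
    set N : ℕ := ⌈L / ρ⌉₊ with hNdef
    have hLρ : 1 ≤ L / ρ := by rw [le_div_iff₀ hρ]; linarith
    have hN1 : 1 ≤ N := by
      rw [hNdef]; exact Nat.one_le_iff_ne_zero.mpr (by
        intro h; rw [Nat.ceil_eq_zero] at h; linarith)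
    have hN0 : (0:ℝ) < N := by exact_mod_cast hN1
    have hNle : L / N ≤ ρ := by
      rw [div_le_iff₀ hN0]
      have := Nat.le_ceil (L / ρ)
      rw [div_le_iff₀ hρ] at this
      linarith
    have hNge : ρ / 2 ≤ L / N := by
      rw [le_div_iff₀ hN0]
      have h1 := (Nat.ceil_lt_add_one (by linarith : 0 ≤ L / ρ)).le
      have h2 : (N:ℝ) ≤ 2 * (L / ρ) := by linarith
      calc ρ / 2 * N ≤ ρ / 2 * (2 * (L / ρ)) := mul_le_mul_of_nonneg_left h2 (by linarith)
        _ = L := by field_simp
    obtain ⟨t, ht0, htN, htlt, htin, htd⟩ := exists_part (hf j) (hfc j) huv hN1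
    have hcell : ∀ i, i < N → c ≤ t i ∧ t i < t (i+1) ∧ f j (t (i+1)) - f j (t i) = L / N := fun i hi =>
      ⟨hcu.trans (htin i hi.le).1, htlt i hi, htd i hi⟩
    set Bad : Set ℝ := {y | ∀ i, i < m + 1 → W (j + i) y ≤ V} with hBad
    set Good : Set ℝ := {y | V + 1 < W j y} with hGood
    have hmG : MeasurableSet Good := measurableSet_lt measurable_const (hW j).measurable
    have e1 : volume.real (Bad ∩ Ioc u v) = ∑ i ∈ Finset.range N, volume.real (Bad ∩ Ioc (t i) (t (i+1))) := by
      rw [← ht0, ← htN]; exact vol_split Bad (hmeasB _ _) t N htlt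
    have e2 : volume.real (Good ∩ Ioc u v) = ∑ i ∈ Finset.range N, volume.real (Good ∩ Ioc (t i) (t (i+1))) := by
      rw [← ht0, ← htN]; exact vol_split Good hmG t N htlt
    have e3 : v - u = ∑ i ∈ Finset.range N, (t (i+1) - t i) := by
      rw [Finset.sum_range_sub, ht0, htN]
    -- each cell
    have hkey : ∀ i ∈ Finset.range N, volume.real (Bad ∩ Ioc (t i) (t (i+1))) ≤
        (1 - p) ^ m * ((t (i+1) - t i) - volume.real (Good ∩ Ioc (t i) (t (i+1)))) := by
      intro i hi
      rw [Finset.mem_range] at hi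
      obtain ⟨hci, hlt, hdi⟩ := hcell i hi
      have hGle : volume.real (Good ∩ Ioc (t i) (t (i+1))) ≤ t (i+1) - t i := by
        calc _ ≤ volume.real (Ioc (t i) (t (i+1))) :=
              measureReal_mono inter_subset_right (by rw [Real.volume_Ioc]; exact ENNReal.ofReal_ne_top)
          _ = _ := by rw [Real.volume_real_Ioc_of_le hlt.le]
      by_cases hex : ∃ y0 ∈ Ioc (t i) (t (i+1)), y0 ∈ Good
      · obtain ⟨y0, hy0, hy0G⟩ := hex
        have hemp : Bad ∩ Ioc (t i) (t (i+1)) = ∅ := by
          rw [Set.eq_empty_iff_forall_notMem]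
          rintro y ⟨hyB, hy⟩
          have h1 : |f j y0 - f j y| ≤ ρ := by
            have a1 := (hf j).monotone hy0.1.le
            have a2 := (hf j).monotone hy0.2
            have a3 := (hf j).monotone hy.1.le
            have a4 := (hf j).monotone hy.2
            rw [abs_le]
            constructor <;> linarith
          have h2 := hL j y0 y h1
          have h3 := hyB 0 (Nat.succ_pos m)
          rw [add_zero] at h3
          have h4 : V + 1 < W j y0 := hy0G
          have h5 := (abs_le.mp h2).2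
          linarith
        rw [hemp, measureReal_empty]
        exact mul_nonneg (pow_nonneg hp1' _) (by linarith)
      · push Not at hex
        have hemp : Good ∩ Ioc (t i) (t (i+1)) = ∅ := by
          rw [Set.eq_empty_iff_forall_notMem]
          rintro y ⟨hyG, hy⟩
          exact hex y hy hyG
        rw [hemp, measureReal_empty, sub_zero]
        have hadm : H ≤ f (j+1) (t (i+1)) - f (j+1) (t i) := by
          have h1 := hg j (t i) (t (i+1)) hci hlt
          rw [hdi] at h1
          have h2 : (2 * H / ρ) * (ρ / 2) ≤ (2 * H / ρ) * (L / N) :=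
            mul_le_mul_of_nonneg_left hNge (by have : 0 < H := by linarith
                                               positivity)
          have h3 : (2 * H / ρ) * (ρ / 2) = H := by field_simp
          linarith
        refine le_trans ?_ (ih (j+1) (t i) (t (i+1)) hci hlt hadm)
        apply measureReal_mono _ (hfin _ _ _)
        rintro y ⟨hyB, hy⟩
        refine ⟨fun k hk => ?_, hy⟩
        have := hyB (k+1) (by omega)
        rwa [show j + (k + 1) = j + 1 + k by ring] at this
    have hsum := Finset.sum_le_sum hkey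
    rw [← e1, ← Finset.mul_sum, Finset.sum_sub_distrib, ← e3, ← e2] at hsum
    have h5 := hloc j u v hcu huv hH
    calc volume.real (Bad ∩ Ioc u v) ≤ (1 - p) ^ m * (v - u - volume.real (Good ∩ Ioc u v)) := hsum
      _ ≤ (1 - p) ^ m * ((1 - p) * (v - u)) := by
          apply mul_le_mul_of_nonneg_left _ (pow_nonneg hp1' _)
          linarith
      _ = (1 - p) ^ (m + 1) * (v - u) := by ring

end Pool.Agent.Helper932CL
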