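import Mathlib
import Pool.Agent.H383.Gen
import Pool.Agent.Helper932CL.Riesz

/-!
A lower bound for the measure of the radii of a window with large values of a model polynomial.
-/

set_option autoImplicit false

open MeasureTheory Filter Topology
open Pool.Agent.H383.Gen (U)

namespace Pool.Agent.Helper932CL

/-- the analytic polynomial -/
noncomputable def SS (b : ℕ → ℂ) (M : ℕ) (r : ℝ) : ℂ := ∑ m ∈ Finset.Icc 1 (M^2), b m * ez (√(m:ℝ) * r)

/-- coefficients with phase -/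
noncomputable def bp (a : ℕ → ℝ) (φ : ℝ) (m : ℕ) : ℂ := (a m : ℂ) * Complex.exp (((-φ : ℝ) : ℂ) * Complex.I)

lemma norm_bp (a : ℕ → ℝ) (φ : ℝ) (m : ℕ) : ‖bp a φ m‖ = |a m| := by
  unfold bp
  rw [norm_mul, Complex.norm_exp_ofReal_mul_I, mul_one, Complex.norm_real, Real.norm_eq_abs]

lemma SS_cont (b : ℕ → ℂ) (M : ℕ) : Continuous (SS b M) := by
  unfold SS
  exact continuous_finsetSum _ fun m _ => continuous_const.mul (continuous_ez_mul _)

lemma U_re (a : ℕ → ℝ) (φ r : ℝ) (M : ℕ) : U a φ r M = (SS (bp a φ) M r).re := by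
  unfold U SS bp ez
  rw [Complex.re_sum]
  apply Finset.sum_congr rfl
  intro m _
  rw [mul_assoc (a m : ℂ), ← Complex.exp_add, Complex.re_ofReal_mul]
  congr 1
  have : ((-φ : ℝ) : ℂ) * Complex.I + ((2 * Real.pi * (√(m:ℝ) * r) : ℝ) : ℂ) * Complex.I =
      ((2 * Real.pi * (r * √(m:ℝ)) - φ : ℝ) : ℂ) * Complex.I := by push_cast; ring
  rw [this, Complex.exp_ofReal_mul_I_re]

lemma U_cont' (a : ℕ → ℝ) (φ : ℝ) (M : ℕ) : Continuous fun r => U a φ r M := by
  simp only [U_re]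
  exact Complex.continuous_re.comp (SS_cont _ _)

/-- the sum of the absolute values of the coefficients -/
noncomputable def A1 (a : ℕ → ℝ) (M : ℕ) : ℝ := ∑ m ∈ Finset.Icc 1 (M^2), |a m|

lemma A1_nonneg (a : ℕ → ℝ) (M : ℕ) : 0 ≤ A1 a M := Finset.sum_nonneg fun _ _ => abs_nonneg _

/-- differences of square roots -/
lemma sqrt_gap {M m m' : ℕ} (hm : m ∈ Finset.Icc 1 (M^2)) (hm' : m' ∈ Finset.Icc 1 (M^2)) (hne : m ≠ m') :
    √(m:ℝ) - √(m':ℝ) ≠ 0 ∧ |√(m:ℝ) - √(m':ℝ)|⁻¹ ≤ 2 * M := by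
  rw [Finset.mem_Icc] at hm hm'
  have h1 : √(m:ℝ) ≤ M := by
    rw [Real.sqrt_le_left (Nat.cast_nonneg _)]; exact_mod_cast hm.2
  have h2 : √(m':ℝ) ≤ M := by
    rw [Real.sqrt_le_left (Nat.cast_nonneg _)]; exact_mod_cast hm'.2
  have e1 : √(m:ℝ) * √(m:ℝ) = m := Real.mul_self_sqrt (Nat.cast_nonneg _)
  have e2 : √(m':ℝ) * √(m':ℝ) = m' := Real.mul_self_sqrt (Nat.cast_nonneg _)
  have h3 : (1:ℝ) ≤ |(m:ℝ) - m'| := by
    have : (1:ℤ) ≤ |(m:ℤ) - m'| := Int.one_le_abs (by omega)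
    exact_mod_cast this
  have h4 : |(m:ℝ) - m'| = |√(m:ℝ) - √(m':ℝ)| * (√(m:ℝ) + √(m':ℝ)) := by
    have e : (m:ℝ) - m' = (√(m:ℝ) - √(m':ℝ)) * (√(m:ℝ) + √(m':ℝ)) := by nlinarith
    rw [e, abs_mul, abs_of_nonneg (a := √(m:ℝ) + √(m':ℝ)) (by positivity)]
  have h0 : 0 ≤ |√(m:ℝ) - √(m':ℝ)| := abs_nonneg _
  have h5 : 1 ≤ |√(m:ℝ) - √(m':ℝ)| * (2 * M) := by
    calc (1:ℝ) ≤ |√(m:ℝ) - √(m':ℝ)| * (√(m:ℝ) + √(m':ℝ)) := by rw [← h4]; exact h3
      _ ≤ _ := mul_le_mul_of_nonneg_left (by linarith) h0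
  have h6 : 0 < |√(m:ℝ) - √(m':ℝ)| := by
    rcases h0.lt_or_eq with h | h
    · exact h
    · rw [← h] at h5; norm_num at h5
  refine ⟨abs_pos.mp h6, ?_⟩
  rw [inv_le_iff_one_le_mul₀ h6]
  linarith

lemma ez_conj (x : ℝ) : (starRingEnd ℂ) (ez x) = ez (-x) := by
  unfold ez
  rw [← Complex.exp_conj, map_mul, Complex.conj_ofReal, Complex.conj_I]
  congr 1
  push_cast; ring

/-- mean square over a window -/
lemma ms_window (b : ℕ → ℂ) (M : ℕ) (R : ℝ) {H : ℝ} (hH : 0 < H) :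
    ∫ r in R..(R+H), ‖SS b M r‖ ^ 2 ≤ H * (∑ m ∈ Finset.Icc 1 (M^2), ‖b m‖ ^ 2) +
      M * (∑ m ∈ Finset.Icc 1 (M^2), ‖b m‖) ^ 2 := by
  have hpi := Real.pi_pos
  have h1 : ∀ r : ℝ, (((‖SS b M r‖ ^ 2 : ℝ)) : ℂ) = ∑ m ∈ Finset.Icc 1 (M^2), ∑ m' ∈ Finset.Icc 1 (M^2),
      (b m * (starRingEnd ℂ) (b m')) * ez ((√(m:ℝ) - √(m':ℝ)) * r) := by
    intro r
    have h2 : (((‖SS b M r‖ ^ 2 : ℝ)) : ℂ) = SS b M r * (starRingEnd ℂ) (SS b M r) := by
      rw [Complex.mul_conj, Complex.normSq_eq_norm_sq]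
    rw [h2]
    unfold SS
    rw [map_sum, Finset.sum_mul_sum]
    apply Finset.sum_congr rfl
    intro m _
    apply Finset.sum_congr rfl
    intro m' _
    rw [map_mul, ez_conj, sub_mul, sub_eq_add_neg, ez_add]
    ring
  have h3 : ((∫ r in R..(R+H), ‖SS b M r‖ ^ 2 : ℝ) : ℂ) = ∑ m ∈ Finset.Icc 1 (M^2), ∑ m' ∈ Finset.Icc 1 (M^2),
      (b m * (starRingEnd ℂ) (b m')) * ∫ r in R..(R+H), ez ((√(m:ℝ) - √(m':ℝ)) * r) := by
    rw [← intervalIntegral.integral_ofReal]
    rw [intervalIntegral.integral_congr (fun r _ => h1 r)]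
    rw [intervalIntegral.integral_finsetSum]
    · apply Finset.sum_congr rfl
      intro m _
      rw [intervalIntegral.integral_finsetSum]
      · apply Finset.sum_congr rfl
        intro m' _
        rw [intervalIntegral.integral_const_mul]
      · intro m' _
        exact (continuous_const.mul (continuous_ez_mul _)).intervalIntegrable _ _
    · intro m _
      exact (continuous_finsetSum _ fun m' _ => continuous_const.mul (continuous_ez_mul _)).intervalIntegrable _ _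
  have h4 : ∫ r in R..(R+H), ‖SS b M r‖ ^ 2 ≤ ∑ m ∈ Finset.Icc 1 (M^2), ∑ m' ∈ Finset.Icc 1 (M^2),
      ‖b m‖ * ‖b m'‖ * ‖∫ r in R..(R+H), ez ((√(m:ℝ) - √(m':ℝ)) * r)‖ := by
    have h5 : ∫ r in R..(R+H), ‖SS b M r‖ ^ 2 ≤ ‖((∫ r in R..(R+H), ‖SS b M r‖ ^ 2 : ℝ) : ℂ)‖ := by
      rw [Complex.norm_real]; exact Real.le_norm_self _
    refine h5.trans ?_
    rw [h3]
    refine (norm_sum_le _ _).trans (Finset.sum_le_sum fun m _ => (norm_sum_le _ _).trans (Finset.sum_le_sum fun m' _ => ?_))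
    rw [norm_mul, norm_mul, Complex.norm_conj]
  refine h4.trans ?_
  have h6 : ∀ m ∈ Finset.Icc 1 (M^2), ∀ m' ∈ Finset.Icc 1 (M^2),
      ‖b m‖ * ‖b m'‖ * ‖∫ r in R..(R+H), ez ((√(m:ℝ) - √(m':ℝ)) * r)‖ ≤
        (if m' = m then H * ‖b m‖ ^ 2 else 0) + ‖b m‖ * ‖b m'‖ * M := by
    intro m hm m' hm'
    by_cases h : m' = m
    · subst h
      rw [if_pos rfl, sub_self]
      simp only [zero_mul, ez_zero]
      rw [intervalIntegral.integral_const, add_sub_cancel_left, norm_smul, norm_one, mul_one, Real.norm_eq_abs,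
        abs_of_pos hH]
      have : 0 ≤ ‖b m'‖ * ‖b m'‖ * M := by positivity
      nlinarith
    · rw [if_neg h, zero_add]
      apply mul_le_mul_of_nonneg_left _ (by positivity)
      obtain ⟨h7, h8⟩ := sqrt_gap hm hm' (Ne.symm h)
      refine (norm_int_ez h7 R H).trans ?_
      have h9 : 1 / (Real.pi * |√(m:ℝ) - √(m':ℝ)|) = (1 / Real.pi) * |√(m:ℝ) - √(m':ℝ)|⁻¹ := by
        rw [one_div, mul_inv, one_div]
      rw [h9]
      have hpi3 := Real.pi_gt_three
      have h10 : 1 / Real.pi ≤ 1 / 2 := one_div_le_one_div_of_le (by norm_num) (by linarith)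
      calc 1 / Real.pi * |√(m:ℝ) - √(m':ℝ)|⁻¹ ≤ 1 / 2 * (2 * M) := mul_le_mul h10 h8 (by positivity) (by norm_num)
        _ = M := by ring
  refine (Finset.sum_le_sum fun m hm => Finset.sum_le_sum fun m' hm' => h6 m hm m' hm').trans (le_of_eq ?_)
  simp only [Finset.sum_add_distrib]
  congr 1
  · rw [Finset.mul_sum]
    apply Finset.sum_congr rfl
    intro m hm
    rw [Finset.sum_ite_eq' _ m, if_pos hm]
  · rw [show (∑ m ∈ Finset.Icc 1 (M^2), ‖b m‖) ^ 2 = (∑ m ∈ Finset.Icc 1 (M^2), ‖b m‖) * (∑ m ∈ Finset.Icc 1 (M^2), ‖b m‖)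
      from pow_two _, Finset.sum_mul_sum, Finset.mul_sum]
    apply Finset.sum_congr rfl
    intro m _
    rw [Finset.mul_sum]
    apply Finset.sum_congr rfl
    intro m' _
    ring

variable {J : Type*} [Fintype J] [DecidableEq J]

/-- large values in a window -/
theorem window {a : ℕ → ℝ} {φ : ℝ} {d : J → ℕ} {M : ℕ} {G : ℝ} (hA : RA d M G) {s : ℝ} (hs : s = 1 ∨ s = -1)
    {V H C2 : ℝ} (hV : 1 ≤ V) (hH : 0 < H) (hC2 : ∑ m ∈ Finset.Icc 1 (M^2), (a m) ^ 2 + 1 ≤ C2)
    (hsum : 4 * V + 4 ≤ ∑ j, a (d j))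
    (hH1 : 2 ^ (Fintype.card J) * (2 * M * G) * (A1 a M + 1) ≤ H) (hH2 : M * (A1 a M) ^ 2 ≤ H) (R : ℝ) :
    H / (4 ^ (Fintype.card J) * C2) ≤ volume.real ({r | V < s * U a φ r M} ∩ Set.Ioc R (R + H)) := by
  have hpi := Real.pi_gt_three
  have hG := hA.G_ge
  have hM : (1:ℝ) ≤ M := by exact_mod_cast hA.M_pos
  have hA1 := A1_nonneg a M
  have hC2' : 1 ≤ C2 := by
    have : 0 ≤ ∑ m ∈ Finset.Icc 1 (M^2), (a m) ^ 2 := Finset.sum_nonneg fun _ _ => sq_nonneg _
    linarith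
  set c2 : ℝ := 2 ^ (Fintype.card J) with hc2
  have hc2p : 1 ≤ c2 := one_le_pow₀ (by norm_num)
  obtain ⟨β0, hβ0⟩ : ∃ β0 : ℝ, Complex.exp (((-φ : ℝ) : ℂ) * Complex.I) * Complex.exp (((-β0 : ℝ) : ℂ) * Complex.I) = (s:ℂ) := by
    rcases hs with rfl | rfl
    · refine ⟨-φ, ?_⟩
      rw [← Complex.exp_add]
      have : ((-φ : ℝ) : ℂ) * Complex.I + ((-(-φ) : ℝ) : ℂ) * Complex.I = 0 := by push_cast; ring
      rw [this, Complex.exp_zero]; norm_num
    · refine ⟨Real.pi - φ, ?_⟩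
      rw [← Complex.exp_add]
      have : ((-φ : ℝ) : ℂ) * Complex.I + ((-(Real.pi - φ) : ℝ) : ℂ) * Complex.I = -(Real.pi * Complex.I) := by push_cast; ring
      rw [this, Complex.exp_neg, Complex.exp_pi_mul_I]; norm_num
  set β : J → ℝ := fun _ => β0 with hβ
  -- average of the kernel times the polynomial
  have hp := Av_KR_poly hA β (R := R) hH (bp a φ) (le_refl M)
  have hmain : ∑ j, bp a φ (d j) * (1/2 * Complex.exp (((-β j : ℝ) : ℂ) * Complex.I)) = ((s * ((∑ j, a (d j)) / 2) : ℝ) : ℂ) := by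
    have : ∀ j, bp a φ (d j) * (1/2 * Complex.exp (((-β j : ℝ) : ℂ) * Complex.I)) = (s:ℂ) * ((a (d j) : ℂ) / 2) := by
      intro j
      unfold bp
      simp only [hβ]
      rw [← hβ0]; ring
    rw [Finset.sum_congr rfl (fun j _ => this j), ← Finset.mul_sum]
    push_cast
    rw [Finset.sum_div]
  have herr : 2 ^ (Fintype.card J) * (2 * M * G / (Real.pi * H)) * ∑ m ∈ Finset.Icc 1 (M^2), ‖bp a φ m‖ * (√(m:ℝ))⁻¹ ≤ 1 := by
    have h1 : ∑ m ∈ Finset.Icc 1 (M^2), ‖bp a φ m‖ * (√(m:ℝ))⁻¹ ≤ A1 a M := by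
      apply Finset.sum_le_sum
      intro m hm
      rw [Finset.mem_Icc] at hm
      rw [norm_bp]
      have h2 : (1:ℝ) ≤ √(m:ℝ) := by
        rw [Real.one_le_sqrt]; exact_mod_cast hm.1
      have h3 : (√(m:ℝ))⁻¹ ≤ 1 := inv_le_one_of_one_le₀ h2
      calc |a m| * (√(m:ℝ))⁻¹ ≤ |a m| * 1 := mul_le_mul_of_nonneg_left h3 (abs_nonneg _)
        _ = _ := mul_one _
    calc _ ≤ c2 * (2 * M * G / (Real.pi * H)) * A1 a M := by gcongr
      _ ≤ c2 * (2 * M * G / (1 * H)) * (A1 a M + 1) := by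
          gcongr
          · linarith
          · linarith
      _ = (c2 * (2 * M * G) * (A1 a M + 1)) / H := by rw [one_mul]; ring
      _ ≤ 1 := by rw [div_le_one hH]; exact hH1
  rw [hmain] at hp
  have hp1 := hp.trans herr
  have hAvint : ∀ g : ℝ → ℂ, Continuous g → (Av R H g).re = (∫ r in R..(R+H), (g r).re) / H := by
    intro g hg
    unfold Av
    rw [Complex.div_ofReal_re]
    congr 1
    rw [show (∫ r in R..(R+H), (g r).re) = ∫ r in R..(R+H), Complex.reCLM (g r) from rfl]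
    rw [ContinuousLinearMap.intervalIntegral_comp_comm _ (hg.intervalIntegrable _ _)]
    rfl
  have hKc : Continuous fun r : ℝ => ((KR d β r : ℝ) : ℂ) := Complex.continuous_ofReal.comp (KR_continuous d β)
  have hre : (Av R H (fun r => ((KR d β r : ℝ) : ℂ) * ∑ m ∈ Finset.Icc 1 (M^2), bp a φ m * ez (√(m:ℝ) * r))).re =
      (∫ r in R..(R+H), KR d β r * U a φ r M) / H := by
    have h := hAvint (fun r => ((KR d β r : ℝ) : ℂ) * SS (bp a φ) M r) (hKc.mul (SS_cont _ _))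
    have e : (fun r => ((KR d β r : ℝ) : ℂ) * ∑ m ∈ Finset.Icc 1 (M^2), bp a φ m * ez (√(m:ℝ) * r)) =
      fun r => ((KR d β r : ℝ) : ℂ) * SS (bp a φ) M r := rfl
    rw [e, h]
    congr 1
    apply intervalIntegral.integral_congr
    intro r _
    simp only
    rw [Complex.re_ofReal_mul, U_re]
  have hI1 : H * ((∑ j, a (d j)) / 2 - 1) ≤ s * ∫ r in R..(R+H), KR d β r * U a φ r M := by
    have h1 := Complex.abs_re_le_norm (Av R H (fun r => ((KR d β r : ℝ) : ℂ) * ∑ m ∈ Finset.Icc 1 (M^2), bp a φ m * ez (√(m:ℝ) * r)) -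
      ((s * ((∑ j, a (d j)) / 2) : ℝ) : ℂ))
    rw [Complex.sub_re, Complex.ofReal_re, hre] at h1
    have h2 := abs_le.mp (h1.trans hp1)
    have h3 : (∫ r in R..(R+H), KR d β r * U a φ r M) = H * ((∫ r in R..(R+H), KR d β r * U a φ r M) / H) := by field_simp
    rw [h3]
    rcases hs with hs1 | hs1 <;> rw [hs1] at h2 ⊢ <;> nlinarith [h2.1, h2.2]
  -- average of the kernel
  have hK := Av_KR hA β (R := R) hH
  have herr2 : 2 ^ (Fintype.card J) * (G / (Real.pi * H)) ≤ 1 := by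
    have h1 : G / (Real.pi * H) ≤ (2 * M * G) / H := by
      rw [div_le_div_iff₀ (by positivity) hH]
      have : G * H ≤ 2 * M * G * (Real.pi * H) := by
        have e : 2 * M * G * (Real.pi * H) = (G * H) * (2 * M * Real.pi) := by ring
        rw [e]
        have h2 : 1 ≤ 2 * M * Real.pi := by nlinarith
        have h3 : 0 ≤ G * H := by positivity
        nlinarith
      exact this
    calc c2 * (G / (Real.pi * H)) ≤ c2 * ((2 * M * G) / H) := by gcongr
      _ = (c2 * (2 * M * G)) / H := by ring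
      _ ≤ 1 := by
          rw [div_le_one hH]
          refine le_trans ?_ hH1
          have : 0 ≤ c2 * (2 * M * G) := by positivity
          nlinarith
  have hI2 : ∫ r in R..(R+H), KR d β r ≤ 2 * H := by
    have h1 := Complex.abs_re_le_norm (Av R H (fun r => ((KR d β r : ℝ) : ℂ)) - 1)
    rw [Complex.sub_re, hAvint _ hKc, Complex.one_re] at h1
    simp only [Complex.ofReal_re] at h1
    have h2 := (abs_le.mp ((h1.trans hK).trans herr2)).2
    have h3 : (∫ r in R..(R+H), KR d β r) / H ≤ 2 := by linarith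
    rw [div_le_iff₀ hH] at h3
    linarith
  -- mean square
  have hI3 : ∫ r in R..(R+H), (U a φ r M) ^ 2 ≤ H * C2 := by
    have h1 := ms_window (bp a φ) M R hH
    simp only [norm_bp, sq_abs] at h1
    have h2 : ∫ r in R..(R+H), (U a φ r M) ^ 2 ≤ ∫ r in R..(R+H), ‖SS (bp a φ) M r‖ ^ 2 := by
      apply intervalIntegral.integral_mono_on (by linarith) (((U_cont' a φ M).pow 2).intervalIntegrable _ _)
        (((SS_cont _ _).norm.pow 2).intervalIntegrable _ _)
      intro r _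
      show (U a φ r M) ^ 2 ≤ ‖SS (bp a φ) M r‖ ^ 2
      rw [U_re, ← sq_abs]
      exact pow_le_pow_left₀ (abs_nonneg _) (Complex.abs_re_le_norm _) 2
    have h3 : H * (∑ m ∈ Finset.Icc 1 (M^2), (a m) ^ 2) + M * (∑ m ∈ Finset.Icc 1 (M^2), |a m|) ^ 2 ≤ H * C2 := by
      have : H * (∑ m ∈ Finset.Icc 1 (M^2), (a m) ^ 2 + 1) ≤ H * C2 := mul_le_mul_of_nonneg_left hC2 hH.le
      have h4 : M * (∑ m ∈ Finset.Icc 1 (M^2), |a m|) ^ 2 ≤ H := hH2
      linarith
    linarith
  -- pointwise inequality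
  set B : Set ℝ := {r | V < s * U a φ r M} with hB
  have hBm : MeasurableSet B := measurableSet_lt measurable_const ((continuous_const.mul (U_cont' a φ M)).measurable)
  set lam : ℝ := c2 * C2 with hlam
  have hlam0 : 0 < lam := by positivity
  have hpt : ∀ r : ℝ, KR d β r * (s * U a φ r M) ≤ V * KR d β r + (c2 * lam / 2) * (B.indicator (fun _ => (1:ℝ)) r) +
      c2 / (2 * lam) * (U a φ r M) ^ 2 := by
    intro r
    have hK0 := KR_nonneg d β r
    have hK1 := KR_le d β r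
    rw [← hc2] at hK1
    have hU2 : 0 ≤ c2 / (2 * lam) * (U a φ r M) ^ 2 := by positivity
    by_cases hr : r ∈ B
    · rw [Set.indicator_of_mem hr, mul_one]
      have h1 : s * U a φ r M ≤ |U a φ r M| := by
        rcases hs with h | h <;> rw [h]
        · rw [one_mul]; exact le_abs_self _
        · rw [neg_one_mul]; exact neg_le_abs _
      have h2 : |U a φ r M| ≤ lam / 2 + (U a φ r M) ^ 2 / (2 * lam) := by
        have h3 : 0 ≤ (lam - |U a φ r M|) ^ 2 / (2 * lam) := by positivity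
        have h4 : (lam - |U a φ r M|) ^ 2 / (2 * lam) = lam / 2 - |U a φ r M| + (U a φ r M) ^ 2 / (2 * lam) := by
          rw [← sq_abs (U a φ r M)]
          field_simp
          ring
        linarith
      have h5 : KR d β r * (s * U a φ r M) ≤ c2 * (lam / 2 + (U a φ r M) ^ 2 / (2 * lam)) := by
        have h6 : 0 < s * U a φ r M := by
          have : V < s * U a φ r M := hr
          linarith
        exact mul_le_mul hK1 (h1.trans h2) h6.le (by positivity)
      have h7 : c2 * (lam / 2 + (U a φ r M) ^ 2 / (2 * lam)) = c2 * lam / 2 + c2 / (2 * lam) * (U a φ r M) ^ 2 := by ring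
      have h8 : 0 ≤ V * KR d β r := by positivity
      linarith
    · rw [Set.indicator_of_notMem hr, mul_zero, add_zero]
      have h1 : s * U a φ r M ≤ V := not_lt.mp hr
      have h2 : KR d β r * (s * U a φ r M) ≤ KR d β r * V := mul_le_mul_of_nonneg_left h1 hK0
      linarith
  have hUc := U_cont' a φ M
  have hind : IntervalIntegrable (B.indicator (fun _ => (1:ℝ))) volume R (R+H) := by
    rw [intervalIntegrable_iff]
    have h0 : IntegrableOn (fun _ : ℝ => (1:ℝ)) (Set.uIoc R (R+H)) volume :=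
      integrableOn_const (by rw [Set.uIoc_of_le (by linarith), Real.volume_Ioc]; exact ENNReal.ofReal_ne_top)
    exact h0.indicator hBm
  have hindv : ∫ r in R..(R+H), B.indicator (fun _ => (1:ℝ)) r = volume.real (B ∩ Set.Ioc R (R+H)) := by
    rw [intervalIntegral.integral_of_le (by linarith), integral_indicator_const _ hBm, smul_eq_mul, mul_one,
      measureReal_restrict_apply hBm]
  have hint : ∫ r in R..(R+H), KR d β r * (s * U a φ r M) ≤ V * (∫ r in R..(R+H), KR d β r) +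
      (c2 * lam / 2) * volume.real (B ∩ Set.Ioc R (R+H)) + c2 / (2 * lam) * ∫ r in R..(R+H), (U a φ r M) ^ 2 := by
    have i1 : IntervalIntegrable (fun r => V * KR d β r) volume R (R+H) :=
      ((KR_continuous d β).const_mul V).intervalIntegrable _ _
    have i2 : IntervalIntegrable (fun r => (c2 * lam / 2) * B.indicator (fun _ => (1:ℝ)) r) volume R (R+H) :=
      hind.const_mul _
    have i3 : IntervalIntegrable (fun r => c2 / (2 * lam) * (U a φ r M) ^ 2) volume R (R+H) :=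
      ((hUc.pow 2).const_mul _).intervalIntegrable _ _
    rw [← hindv, ← intervalIntegral.integral_const_mul, ← intervalIntegral.integral_const_mul,
      ← intervalIntegral.integral_const_mul, ← intervalIntegral.integral_add i1 i2,
      ← intervalIntegral.integral_add (i1.add i2) i3]
    apply intervalIntegral.integral_mono_on (by linarith)
      (((KR_continuous d β).mul (hUc.const_mul s)).intervalIntegrable _ _) ((i1.add i2).add i3)
    intro r _
    exact hpt r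
  have hs2 : ∫ r in R..(R+H), KR d β r * (s * U a φ r M) = s * ∫ r in R..(R+H), KR d β r * U a φ r M := by
    rw [← intervalIntegral.integral_const_mul]
    apply intervalIntegral.integral_congr
    intro r _
    simp only
    ring
  rw [hs2] at hint
  set vB := volume.real (B ∩ Set.Ioc R (R+H)) with hvB
  have h10 : c2 / (2 * lam) * ∫ r in R..(R+H), (U a φ r M) ^ 2 ≤ H / 2 := by
    calc c2 / (2 * lam) * ∫ r in R..(R+H), (U a φ r M) ^ 2 ≤ c2 / (2 * lam) * (H * C2) := by gcongr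
      _ = H / 2 := by rw [hlam]; field_simp
  have h11 : V * (∫ r in R..(R+H), KR d β r) ≤ V * (2 * H) := by gcongr
  have h12 : H / 2 ≤ c2 * lam / 2 * vB := by nlinarith
  have h13 : (4:ℝ) ^ (Fintype.card J) = c2 * c2 := by
    rw [hc2, ← mul_pow]; norm_num
  rw [h13, div_le_iff₀ (by positivity)]
  have h14 : c2 * lam / 2 * vB = vB * (c2 * c2 * C2) / 2 := by rw [hlam]; ring
  linarith

end Pool.Agent.Helper932CL
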