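import Mathlib
import Pool.Agent.Helper932CL.Nest
import Pool.Agent.Helper932CL.Win
import Pool.Agent.Helper932CL.Ker
import Pool.Agent.Helper932CL.Seq

/-!
From windows in `R` to intervals in `y`, and a long series of trials.
-/

set_option autoImplicit false

open MeasureTheory Finset

namespace Pool.Agent.Helper932CL

open Pool.Agent.R306.GP (pt pt_cont)
open Pool.Agent.H383.Gen (U)

/-- one piece -/
lemma loc_piece {A B : ℝ} (hA : 0 < A) (hB : 0 < B) {S : Set ℝ} (hS : MeasurableSet S) {u v H q : ℝ} (hH : 0 < H)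
    (huv : u < v) (hu : H ≤ B * Real.exp (A * u)) (h1 : H ≤ B * Real.exp (A * v) - B * Real.exp (A * u))
    (h2 : B * Real.exp (A * v) - B * Real.exp (A * u) ≤ 2 * H) (hq0 : 0 ≤ q)
    (hq : q * H ≤ volume.real (S ∩ Set.Ioc (B * Real.exp (A * u)) (B * Real.exp (A * u) + H))) :
    (q / 6) * (v - u) ≤ volume.real ({y | B * Real.exp (A * y) ∈ S} ∩ Set.Ioc u v) := by
  set f : ℝ → ℝ := fun y => B * Real.exp (A * y) with hf
  have hfpos : ∀ y, 0 < f y := fun y => by simp only [hf]; positivity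
  have hfc : Continuous f := by simp only [hf]; fun_prop
  have hfd : ∀ y, HasDerivAt f (A * f y) y := by
    intro y
    have h := ((hasDerivAt_id y).const_mul A).exp.const_mul B
    simp only [id] at h
    exact h.congr_deriv (by simp only [hf]; ring)
  have hmono : StrictMono f := by
    intro x y hxy
    simp only [hf]
    have := Real.exp_lt_exp.mpr (mul_lt_mul_of_pos_left hxy hA)
    nlinarith
  set T : Set ℝ := {y | f y ∈ S} ∩ Set.Ioc u v with hT
  have hTm : MeasurableSet T := (hfc.measurable hS).inter measurableSet_Ioc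
  have hTfin : volume T ≠ ⊤ := ne_of_lt (lt_of_le_of_lt (measure_mono Set.inter_subset_right)
    (by rw [Real.volume_Ioc]; exact ENNReal.ofReal_lt_top))
  have himg := lintegral_image_eq_lintegral_abs_deriv_mul (s := T) hTm
    (fun y _ => (hfd y).hasDerivWithinAt) (hmono.injective.injOn) (fun _ => 1)
  have h3 : volume (f '' T) ≤ ENNReal.ofReal (A * f v) * volume T := by
    rw [lintegral_one, Measure.restrict_apply_univ] at himg
    rw [himg, ← setLIntegral_const]
    apply setLIntegral_mono measurable_const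
    intro y hy
    rw [mul_one]
    apply ENNReal.ofReal_le_ofReal
    rw [abs_of_pos (mul_pos hA (hfpos y))]
    apply mul_le_mul_of_nonneg_left _ hA.le
    exact hmono.monotone hy.2.2
  have h4 : S ∩ Set.Ioc (f u) (f u + H) ⊆ f '' T := by
    rintro r ⟨hr, hr1, hr2⟩
    have h5 : r ∈ Set.Icc (f u) (f v) := ⟨hr1.le, by linarith⟩
    obtain ⟨y, hy, hyr⟩ := intermediate_value_Icc huv.le hfc.continuousOn h5
    refine ⟨y, ⟨?_, ?_, hy.2⟩, hyr⟩
    · show f y ∈ S
      rw [hyr]; exact hr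
    · rw [← hmono.lt_iff_lt, hyr]; exact hr1
  have h5 : volume (f '' T) ≠ ⊤ := ne_top_of_le_ne_top (ENNReal.mul_ne_top ENNReal.ofReal_ne_top hTfin) h3
  have h6 : q * H ≤ (A * f v) * volume.real T := by
    calc q * H ≤ volume.real (S ∩ Set.Ioc (f u) (f u + H)) := hq
      _ ≤ volume.real (f '' T) := measureReal_mono h4 h5
      _ ≤ (ENNReal.ofReal (A * f v) * volume T).toReal :=
          ENNReal.toReal_mono (ENNReal.mul_ne_top ENNReal.ofReal_ne_top hTfin) h3
      _ = _ := by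
          rw [ENNReal.toReal_mul, ENNReal.toReal_ofReal (mul_pos hA (hfpos v)).le]; rfl
  have h7 : A * f u * (v - u) ≤ f v - f u := by
    have h8 : f v = f u * Real.exp (A * (v - u)) := by
      simp only [hf]
      rw [mul_assoc, ← Real.exp_add]; congr 2; ring
    have h9 := Real.add_one_le_exp (A * (v - u))
    rw [h8]
    have := hfpos u
    nlinarith
  have hfu := hfpos u
  have h10 : f v ≤ 3 * f u := by
    have : f v - f u ≤ 2 * H := h2
    have : H ≤ f u := hu
    linarith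
  have hT0 : 0 ≤ volume.real T := measureReal_nonneg
  have h11 : f v - f u ≤ 2 * H := h2
  -- (q/6)(v-u) ≤ vol T
  have h12 : q * (A * f u * (v - u)) ≤ 2 * (A * f v * volume.real T) := by
    calc q * (A * f u * (v - u)) ≤ q * (2 * H) := mul_le_mul_of_nonneg_left (h7.trans h11) hq0
      _ = 2 * (q * H) := by ring
      _ ≤ _ := by linarith
  have h13 : 2 * (A * f v * volume.real T) ≤ 2 * (A * (3 * f u) * volume.real T) := by
    gcongr
  have h14 : (A * f u) * (q * (v - u)) ≤ (A * f u) * (6 * volume.real T) := by linarith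
  have h15 := le_of_mul_le_mul_left h14 (mul_pos hA hfu)
  linarith

/-- from windows to all intervals -/
lemma loc_all {A B : ℝ} (hA : 0 < A) (hB : 0 < B) {S : Set ℝ} (hS : MeasurableSet S) {u v H q : ℝ} (hH : 0 < H)
    (huv : u < v) (hu : H ≤ B * Real.exp (A * u)) (h1 : H ≤ B * Real.exp (A * v) - B * Real.exp (A * u)) (hq0 : 0 ≤ q)
    (hq : ∀ R : ℝ, q * H ≤ volume.real (S ∩ Set.Ioc R (R + H))) :
    (q / 6) * (v - u) ≤ volume.real ({y | B * Real.exp (A * y) ∈ S} ∩ Set.Ioc u v) := by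
  set f : ℝ → ℝ := fun y => B * Real.exp (A * y) with hf
  have hfc : Continuous f := by simp only [hf]; fun_prop
  have hmono : StrictMono f := by
    intro x y hxy
    simp only [hf]
    have := Real.exp_lt_exp.mpr (mul_lt_mul_of_pos_left hxy hA)
    nlinarith
  set L := f v - f u with hL
  have hLH : 1 ≤ L / H := by rw [le_div_iff₀ hH]; linarith
  set N := ⌊L / H⌋₊ with hN
  have hN1 : 1 ≤ N := Nat.le_floor (by exact_mod_cast hLH)
  have hN0 : (0:ℝ) < N := by exact_mod_cast hN1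
  have hNle : (N:ℝ) ≤ L / H := Nat.floor_le (by linarith)
  have hNlt : L / H < N + 1 := Nat.lt_floor_add_one _
  obtain ⟨t, ht0, htN, hlt, hmem, hlen⟩ := exists_part hmono hfc huv hN1
  have hN1' : (1:ℝ) ≤ N := by exact_mod_cast hN1
  have hcell1 : H ≤ L / N := by
    rw [le_div_iff₀ hN0]
    rw [le_div_iff₀ hH] at hNle
    linarith
  have hcell2 : L / N ≤ 2 * H := by
    rw [div_le_iff₀ hN0]
    rw [div_lt_iff₀ hH] at hNlt
    nlinarith
  have hm : MeasurableSet {y | f y ∈ S} := hfc.measurable hS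
  have h2 := vol_split {y | f y ∈ S} hm t N hlt
  rw [ht0, htN] at h2
  rw [h2]
  have h3 : ∀ i ∈ Finset.range N, (q / 6) * (t (i + 1) - t i) ≤ volume.real ({y | f y ∈ S} ∩ Set.Ioc (t i) (t (i + 1))) := by
    intro i hi
    rw [Finset.mem_range] at hi
    have h4 := (hmem i hi.le).1
    have h5 : f u ≤ f (t i) := hmono.monotone h4
    have h6 := hlen i hi
    exact loc_piece hA hB hS hH (hlt i hi) (hu.trans h5) (by
      change H ≤ f (t (i+1)) - f (t i)
      rw [h6]; exact hcell1) (by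
      change f (t (i+1)) - f (t i) ≤ 2 * H
      rw [h6]; exact hcell2) hq0 (hq _)
  refine le_trans (le_of_eq ?_) (Finset.sum_le_sum h3)
  rw [← Finset.mul_sum, Finset.sum_range_sub, ht0, htN]

lemma A1_mono (a : ℕ → ℝ) {M M' : ℕ} (h : M ≤ M') : A1 a M ≤ A1 a M' := by
  unfold A1
  apply Finset.sum_le_sum_of_subset_of_nonneg
  · exact Finset.Icc_subset_Icc_right (Nat.pow_le_pow_left h 2)
  · intro _ _ _; exact abs_nonneg _

lemma U_lip (af : ℕ → ℝ) (φ : ℝ) (M : ℕ) (r r' : ℝ) : |U af φ r M - U af φ r' M| ≤ 2 * Real.pi * (A1 af M * M) * |r - r'| := by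
  have hpi := Real.pi_pos
  unfold U A1
  rw [← Finset.sum_sub_distrib]
  refine (Finset.abs_sum_le_sum_abs _ _).trans ?_
  rw [Finset.sum_mul, Finset.mul_sum, Finset.sum_mul]
  apply Finset.sum_le_sum
  intro m hm
  rw [Finset.mem_Icc] at hm
  have hs : √(m:ℝ) ≤ M := by
    rw [Real.sqrt_le_left (Nat.cast_nonneg _)]; exact_mod_cast hm.2
  rw [← mul_sub, abs_mul]
  have h1 : |Real.cos (2 * Real.pi * (r * √(m:ℝ)) - φ) - Real.cos (2 * Real.pi * (r' * √(m:ℝ)) - φ)| ≤
      |(2 * Real.pi * (r * √(m:ℝ)) - φ) - (2 * Real.pi * (r' * √(m:ℝ)) - φ)| := by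
    have h2 := Real.abs_cos_sub_cos_le (2 * Real.pi * (r * √(m:ℝ)) - φ) (2 * Real.pi * (r' * √(m:ℝ)) - φ)
    exact h2
  have h2 : |(2 * Real.pi * (r * √(m:ℝ)) - φ) - (2 * Real.pi * (r' * √(m:ℝ)) - φ)| = 2 * Real.pi * √(m:ℝ) * |r - r'| := by
    rw [show (2 * Real.pi * (r * √(m:ℝ)) - φ) - (2 * Real.pi * (r' * √(m:ℝ)) - φ) = 2 * Real.pi * √(m:ℝ) * (r - r') by ring,
      abs_mul, abs_of_nonneg (by positivity)]
  calc |af m| * _ ≤ |af m| * (2 * Real.pi * √(m:ℝ) * |r - r'|) := by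
        apply mul_le_mul_of_nonneg_left _ (abs_nonneg _)
        rw [← h2]; exact h1
    _ ≤ |af m| * (2 * Real.pi * M * |r - r'|) := by gcongr
    _ = _ := by ring

/-- a long series of trials -/
theorem trial {a b : ℕ → ℝ} {δ c d : ℝ} (h : Sq a b δ) (hc : 0 < c) (hc1 : c ≤ 1) (hcd : c < d) {af : ℕ → ℝ} {φ s : ℝ}
    (hs : s = 1 ∨ s = -1) {D : Finset ℕ} {n0 g Mx : ℕ} {M' : ℕ → ℕ} (hM1 : ∀ j, 1 ≤ M' j) (hMx : ∀ j, M' j ≤ Mx)
    (hD1 : ∀ m ∈ D, 1 ≤ m) (hD : ∀ j, ∀ m ∈ D, m ≤ (M' j) ^ 2) (hinj : Set.InjOn sf D)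
    (hfar : ∀ j, ∑ m ∈ D, √(m:ℝ) ≤ M' j / 2) {V H ρ C2 : ℝ} (hV : 0 ≤ V) (hH : 0 < H) (hρ : 0 < ρ) (hρH : ρ ≤ H)
    (hρ1 : 2 * Real.pi * (A1 af Mx * Mx) * ρ ≤ 1)
    (hC2 : ∑ m ∈ Finset.Icc 1 (Mx^2), (af m) ^ 2 + 1 ≤ C2)
    (hsum : 4 * (V + 1) + 4 ≤ ∑ m ∈ D, af m)
    (hH1 : 2 ^ D.card * (2 * Mx * ((((D.card + 1) * Mx : ℕ) : ℝ) ^ (2 ^ (D.card + 1)))) * (A1 af Mx + 1) ≤ H)
    (hH2 : Mx * (A1 af Mx) ^ 2 ≤ H) (hgrow : 2 * H / ρ ≤ Real.exp (δ * g * c))
    (hlow : H ≤ pt a b n0 c) (hlen : H ≤ pt a b n0 d - pt a b n0 c) (m : ℕ) :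
    volume.real ({y | ∀ i, i < m → s * U af φ (pt a b (n0 + i * g) y) (M' i) ≤ V} ∩ Set.Ioc c d) ≤
      (1 - 1 / (6 * (4 ^ D.card * C2))) ^ m * (d - c) := by
  classical
  have hpi := Real.pi_pos
  have habs : |s| = 1 := by rcases hs with hs | hs <;> rw [hs] <;> simp
  have hC2' : 1 ≤ C2 := by
    have : 0 ≤ ∑ m ∈ Finset.Icc 1 (Mx^2), (af m) ^ 2 := Finset.sum_nonneg fun _ _ => sq_nonneg _
    linarith
  have hMx1 : 1 ≤ Mx := (hM1 0).trans (hMx 0)
  have hA0 := A1_nonneg af Mx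
  set f : ℕ → ℝ → ℝ := fun j => pt a b (n0 + j * g) with hf
  set W : ℕ → ℝ → ℝ := fun j y => s * U af φ (pt a b (n0 + j * g) y) (M' j) with hW
  have h4 : (1:ℝ) ≤ 4 ^ D.card := one_le_pow₀ (by norm_num)
  have hden : 1 ≤ 6 * (4 ^ D.card * C2) := by nlinarith
  have key := nest (f := f) (W := W) (c := c) (ρ := ρ) (H := H) (p := 1 / (6 * (4 ^ D.card * C2))) (V := V) ?_ ?_ ?_ hρ hρH ?_ ?_ ?_ ?_
    m 0 c d le_rfl hcd ?_
  · simpa only [hW, Nat.zero_add] using key
  · intro j x y hxy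
    simp only [hf, pt]
    have hA : 0 < a (n0 + j * g) := lt_of_lt_of_le one_pos (h.one _)
    exact mul_lt_mul_of_pos_left (Real.exp_lt_exp.mpr (mul_lt_mul_of_pos_left hxy hA)) (h.pos _)
  · intro j; exact pt_cont _ _ _
  · intro j
    exact continuous_const.mul ((U_cont' af φ (M' j)).comp (pt_cont _ _ _))
  · rw [div_le_one (by linarith)]; exact hden
  · intro j u v hu huv
    simp only [hf]
    have e1 : n0 + (j + 1) * g = n0 + j * g + g := by ring
    rw [e1]
    exact grow h hc hc1 _ _ hgrow hu huv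
  · intro j y y' hyy
    simp only [hW, hf] at hyy ⊢
    rw [← mul_sub, abs_mul, habs, one_mul]
    refine (U_lip af φ (M' j) _ _).trans ?_
    have h5 := A1_mono af (hMx j)
    have h6 : (M' j : ℝ) ≤ Mx := by exact_mod_cast hMx j
    have h7 := A1_nonneg af (M' j)
    calc 2 * Real.pi * (A1 af (M' j) * (M' j)) * |pt a b (n0 + j * g) y - pt a b (n0 + j * g) y'|
        ≤ 2 * Real.pi * (A1 af Mx * Mx) * ρ := by gcongr
      _ ≤ 1 := hρ1
  · intro j u v hu huv hHj
    have hwin : ∀ R : ℝ, (1 / (4 ^ D.card * C2)) * H ≤ volume.real ({r | V + 1 < s * U af φ r (M' j)} ∩ Set.Ioc R (R + H)) := by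
      intro R
      have hRA := RA_ker (hM1 j) (fun m hm => ⟨hD1 m hm, hD j m hm⟩) hinj (hfar j)
      have hcard : Fintype.card {m // m ∈ D} = D.card := Fintype.card_coe D
      have h6 : (M' j : ℝ) ≤ Mx := by exact_mod_cast hMx j
      have h5 := A1_mono af (hMx j)
      have h7 := A1_nonneg af (M' j)
      have hw := window (a := af) (φ := φ) hRA hs (V := V + 1) (H := H) (C2 := C2) (by linarith) hH (by
          refine le_trans ?_ hC2
          have : ∑ m ∈ Finset.Icc 1 ((M' j)^2), (af m) ^ 2 ≤ ∑ m ∈ Finset.Icc 1 (Mx^2), (af m) ^ 2 := by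
            apply Finset.sum_le_sum_of_subset_of_nonneg
            · exact Finset.Icc_subset_Icc_right (Nat.pow_le_pow_left (hMx j) 2)
            · intro _ _ _; exact sq_nonneg _
          linarith) (by
          rw [Finset.sum_coe_sort D (fun m => af m)]
          exact hsum) (by
          rw [hcard]
          refine le_trans ?_ hH1
          have h8 : ((((D.card + 1) * M' j : ℕ) : ℝ)) ≤ (((D.card + 1) * Mx : ℕ) : ℝ) := by
            exact_mod_cast Nat.mul_le_mul_left _ (hMx j)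
          gcongr) (by
          refine le_trans ?_ hH2
          gcongr) R
      rw [hcard] at hw
      calc (1 / (4 ^ D.card * C2)) * H = H / (4 ^ D.card * C2) := by ring
        _ ≤ _ := hw
    have hS : MeasurableSet {r | V + 1 < s * U af φ r (M' j)} :=
      measurableSet_lt measurable_const (continuous_const.mul (U_cont' af φ (M' j))).measurable
    have hlowj : H ≤ pt a b (n0 + j * g) u := by
      refine hlow.trans ((pt_mono h hc.le (Nat.le_add_right n0 (j * g))).trans ?_)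
      unfold pt
      apply mul_le_mul_of_nonneg_left _ (h.pos _).le
      apply Real.exp_le_exp.mpr
      exact mul_le_mul_of_nonneg_left hu (le_trans zero_le_one (h.one _))
    have hl := loc_all (lt_of_lt_of_le one_pos (h.one (n0 + j * g))) (h.pos (n0 + j * g)) hS hH huv hlowj hHj
      (q := 1 / (4 ^ D.card * C2)) (by positivity) hwin
    have e1 : 1 / (6 * (4 ^ D.card * C2)) = 1 / (4 ^ D.card * C2) / 6 := by
      field_simp
    rw [e1]
    exact hl
  · simp only [hf, Nat.zero_mul, Nat.add_zero]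
    exact hlen

end Pool.Agent.Helper932CL
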