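import Mathlib
import Pool.Agent.Helper932CL.Ker

/-!
Even moments of exponential polynomials with frequencies `√m`, the `m` having different squarefree parts.
-/

set_option autoImplicit false

open MeasureTheory Finset

namespace Pool.Agent.Helper932CL

lemma exists_perm {k : ℕ} {x x' : Fin k → ℕ}
    (h : ∀ m, (univ.filter (fun i => x i = m)).card = (univ.filter (fun i => x' i = m)).card) :
    ∃ σ : Equiv.Perm (Fin k), x' = x ∘ σ := by
  classical
  have e : ∀ m, {i // x' i = m} ≃ {i // x i = m} := fun m =>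
    Fintype.equivOfCardEq (by rw [Fintype.card_subtype, Fintype.card_subtype]; exact (h m).symm)
  refine ⟨(Equiv.sigmaFiberEquiv x').symm.trans ((Equiv.sigmaCongrRight e).trans (Equiv.sigmaFiberEquiv x)), ?_⟩
  funext i
  simp only [Function.comp, Equiv.trans_apply]
  have h1 : (Equiv.sigmaFiberEquiv x').symm i = ⟨x' i, ⟨i, rfl⟩⟩ := by
    rw [Equiv.symm_apply_eq]; rfl
  rw [h1]
  exact ((e (x' i)) ⟨i, rfl⟩).2.symm

/-- zero frequency -/
lemma zero_freq {F : Finset ℕ} (hF : ∀ m ∈ F, 1 ≤ m) (hinj : Set.InjOn sf F) {k : ℕ} {x x' : Fin k → ℕ}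
    (hx : ∀ i, x i ∈ F) (hx' : ∀ i, x' i ∈ F)
    (h : ∑ i, √(x i : ℝ) - ∑ i, √(x' i : ℝ) = 0) : ∃ σ : Equiv.Perm (Fin k), x' = x ∘ σ := by
  classical
  apply exists_perm
  have hc : ∀ z : Fin k → ℕ, (∀ i, z i ∈ F) → ∑ i, √(z i : ℝ) =
      ∑ m ∈ F, ((univ.filter (fun i => z i = m)).card : ℝ) * √(m:ℝ) := by
    intro z hz
    rw [← Finset.sum_fiberwise_of_maps_to (s := univ) (t := F) (g := z) (fun i _ => hz i)]
    apply Finset.sum_congr rfl
    intro m _
    rw [Finset.sum_congr rfl (g := fun _ => √(m:ℝ)) (fun i hi => by rw [(Finset.mem_filter.mp hi).2]),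
      Finset.sum_const, nsmul_eq_mul]
  rw [hc x hx, hc x' hx', ← Finset.sum_sub_distrib] at h
  have h1 := indep hF hinj (fun m => ((univ.filter (fun i => x i = m)).card : ℚ) - ((univ.filter (fun i => x' i = m)).card : ℚ)) (by
    rw [← h]
    apply Finset.sum_congr rfl
    intro m _
    push_cast
    ring)
  intro m
  by_cases hm : m ∈ F
  · have := h1 m hm
    have h2 := sub_eq_zero.mp this
    exact_mod_cast h2
  · rw [Finset.filter_false_of_mem (fun i _ (h : x i = m) => hm (h ▸ hx i)), Finset.filter_false_of_mem (fun i _ (h : x' i = m) => hm (h ▸ hx' i))]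

lemma ez_sum {ι : Type*} (s : Finset ι) (f : ι → ℝ) : ez (∑ i ∈ s, f i) = ∏ i ∈ s, ez (f i) := by
  unfold ez
  rw [← Complex.exp_sum]
  congr 1
  push_cast
  rw [Finset.mul_sum, Finset.sum_mul]

lemma ez_conj' (x : ℝ) : (starRingEnd ℂ) (ez x) = ez (-x) := by
  unfold ez
  rw [← Complex.exp_conj, map_mul, Complex.conj_ofReal, Complex.conj_I]
  congr 1
  push_cast; ring

lemma pow_expand' (F : Finset ℕ) (b : ℕ → ℂ) (k : ℕ) (r : ℝ) :
    (∑ m ∈ F, b m * ez (√(m:ℝ) * r)) ^ k =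
      ∑ x ∈ Fintype.piFinset (fun _ : Fin k => F), (∏ i, b (x i)) * ez ((∑ i, √(x i : ℝ)) * r) := by
  have h1 : (∑ m ∈ F, b m * ez (√(m:ℝ) * r)) ^ k = ∏ _i : Fin k, ∑ m ∈ F, b m * ez (√(m:ℝ) * r) := by
    rw [Finset.prod_const, Finset.card_univ, Fintype.card_fin]
  rw [h1, Finset.prod_univ_sum]
  apply Finset.sum_congr rfl
  intro x _
  rw [Finset.prod_mul_distrib, Finset.sum_mul, ez_sum]

/-- the moment inequality -/
theorem moment {F : Finset ℕ} (hF : ∀ m ∈ F, 1 ≤ m) (hinj : Set.InjOn sf F) (b : ℕ → ℂ) (k : ℕ) {c d : ℝ} (hcd : c ≤ d)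
    {R : ℝ → ℝ} (hR : Continuous R) {E : ℝ} (hE0 : 0 ≤ E)
    (hE : ∀ x ∈ Fintype.piFinset (fun _ : Fin k => F), ∀ x' ∈ Fintype.piFinset (fun _ : Fin k => F),
      ∑ i, √(x i : ℝ) - ∑ i, √(x' i : ℝ) ≠ 0 → ‖∫ y in c..d, ez ((∑ i, √(x i : ℝ) - ∑ i, √(x' i : ℝ)) * R y)‖ ≤ E) :
    ∫ y in c..d, ‖∑ m ∈ F, b m * ez (√(m:ℝ) * R y)‖ ^ (2 * k) ≤
      (k.factorial : ℝ) * (∑ m ∈ F, ‖b m‖ ^ 2) ^ k * (d - c) + (∑ m ∈ F, ‖b m‖) ^ (2 * k) * E := by
  classical
  set T := Fintype.piFinset (fun _ : Fin k => F) with hT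
  set bb : (Fin k → ℕ) → ℂ := fun x => ∏ i, b (x i) with hbb
  set ω : (Fin k → ℕ) → (Fin k → ℕ) → ℝ := fun x x' => ∑ i, √(x i : ℝ) - ∑ i, √(x' i : ℝ) with hω
  have hcont : ∀ z : ℝ, Continuous fun y => ez (z * R y) := fun z => (continuous_ez_mul z).comp hR
  have h1 : ∀ y : ℝ, (((‖∑ m ∈ F, b m * ez (√(m:ℝ) * R y)‖ ^ (2 * k) : ℝ)) : ℂ) =
      ∑ x ∈ T, ∑ x' ∈ T, (bb x * (starRingEnd ℂ) (bb x')) * ez (ω x x' * R y) := by
    intro y
    set S := ∑ m ∈ F, b m * ez (√(m:ℝ) * R y) with hS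
    have h2 : (((‖S‖ ^ (2 * k) : ℝ)) : ℂ) = S ^ k * (starRingEnd ℂ) (S ^ k) := by
      rw [Complex.mul_conj, Complex.normSq_eq_norm_sq, norm_pow, ← pow_mul, mul_comm k 2]
    rw [h2, hS, pow_expand', map_sum, Finset.sum_mul_sum]
    apply Finset.sum_congr rfl
    intro x _
    apply Finset.sum_congr rfl
    intro x' _
    rw [map_mul, ez_conj']
    have h3 : ez (ω x x' * R y) = ez ((∑ i, √(x i : ℝ)) * R y) * ez (-((∑ i, √(x' i : ℝ)) * R y)) := by
      rw [← ez_add]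
      congr 1
      simp only [hω]
      ring
    rw [h3]
    ring
  have h3 : ((∫ y in c..d, ‖∑ m ∈ F, b m * ez (√(m:ℝ) * R y)‖ ^ (2 * k) : ℝ) : ℂ) =
      ∑ x ∈ T, ∑ x' ∈ T, (bb x * (starRingEnd ℂ) (bb x')) * ∫ y in c..d, ez (ω x x' * R y) := by
    rw [← intervalIntegral.integral_ofReal]
    rw [intervalIntegral.integral_congr (fun y _ => h1 y)]
    rw [intervalIntegral.integral_finsetSum]
    · apply Finset.sum_congr rfl
      intro x _
      rw [intervalIntegral.integral_finsetSum]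
      · apply Finset.sum_congr rfl
        intro x' _
        rw [intervalIntegral.integral_const_mul]
      · intro x' _
        exact (continuous_const.mul (hcont _)).intervalIntegrable _ _
    · intro x _
      exact (continuous_finsetSum _ fun x' _ => continuous_const.mul (hcont _)).intervalIntegrable _ _
  have h4 : ∫ y in c..d, ‖∑ m ∈ F, b m * ez (√(m:ℝ) * R y)‖ ^ (2 * k) ≤ ∑ x ∈ T, ∑ x' ∈ T,
      ‖bb x‖ * ‖bb x'‖ * ‖∫ y in c..d, ez (ω x x' * R y)‖ := by
    have h5 : ∫ y in c..d, ‖∑ m ∈ F, b m * ez (√(m:ℝ) * R y)‖ ^ (2 * k) ≤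
        ‖((∫ y in c..d, ‖∑ m ∈ F, b m * ez (√(m:ℝ) * R y)‖ ^ (2 * k) : ℝ) : ℂ)‖ := by
      rw [Complex.norm_real]; exact Real.le_norm_self _
    refine h5.trans ?_
    rw [h3]
    refine (norm_sum_le _ _).trans (Finset.sum_le_sum fun x _ => (norm_sum_le _ _).trans (Finset.sum_le_sum fun x' _ => ?_))
    rw [norm_mul, norm_mul, Complex.norm_conj]
  refine h4.trans ?_
  have h6 : ∀ x ∈ T, ∀ x' ∈ T, ‖bb x‖ * ‖bb x'‖ * ‖∫ y in c..d, ez (ω x x' * R y)‖ ≤
      (if ω x x' = 0 then ‖bb x‖ ^ 2 * (d - c) else 0) + ‖bb x‖ * ‖bb x'‖ * E := by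
    intro x hx x' hx'
    by_cases h : ω x x' = 0
    · rw [if_pos h, h]
      simp only [zero_mul, ez_zero]
      obtain ⟨σ, hσ⟩ := zero_freq hF hinj (fun i => (Fintype.mem_piFinset.mp hx) i) (fun i => (Fintype.mem_piFinset.mp hx') i) h
      have h7 : bb x' = bb x := by
        simp only [hbb, hσ, Function.comp]
        exact Equiv.prod_comp σ (fun i => b (x i))
      rw [intervalIntegral.integral_const, norm_smul, norm_one, mul_one, Real.norm_eq_abs,
        abs_of_nonneg (by linarith), h7]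
      have : 0 ≤ ‖bb x‖ * ‖bb x‖ * E := by positivity
      nlinarith
    · rw [if_neg h, zero_add]
      exact mul_le_mul_of_nonneg_left (hE x hx x' hx' h) (by positivity)
  refine (Finset.sum_le_sum fun x hx => Finset.sum_le_sum fun x' hx' => h6 x hx x' hx').trans ?_
  simp only [Finset.sum_add_distrib]
  apply add_le_add
  · -- diagonal
    have h8 : ∀ x ∈ T, ∑ x' ∈ T, (if ω x x' = 0 then ‖bb x‖ ^ 2 * (d - c) else 0) ≤
        (k.factorial : ℝ) * (‖bb x‖ ^ 2 * (d - c)) := by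
      intro x hx
      rw [← Finset.sum_filter, Finset.sum_const, nsmul_eq_mul]
      apply mul_le_mul_of_nonneg_right _ (mul_nonneg (sq_nonneg _) (by linarith))
      have h9 : (T.filter (fun x' => ω x x' = 0)) ⊆ Finset.image (fun σ : Equiv.Perm (Fin k) => (x ∘ (σ : Fin k → Fin k))) Finset.univ := by
        intro x' hx'
        rw [Finset.mem_filter] at hx'
        obtain ⟨σ, hσ⟩ := zero_freq hF hinj (fun i => (Fintype.mem_piFinset.mp hx) i)
          (fun i => (Fintype.mem_piFinset.mp hx'.1) i) hx'.2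
        rw [Finset.mem_image]
        exact ⟨σ, Finset.mem_univ _, hσ.symm⟩
      have h10 := (Finset.card_le_card h9).trans Finset.card_image_le
      rw [Finset.card_univ, Fintype.card_perm, Fintype.card_fin] at h10
      exact_mod_cast h10
    refine (Finset.sum_le_sum h8).trans (le_of_eq ?_)
    rw [← Finset.mul_sum, ← Finset.sum_mul, mul_assoc]
    congr 2
    have h11 : ∀ x : Fin k → ℕ, ‖bb x‖ ^ 2 = ∏ i, ‖b (x i)‖ ^ 2 := by
      intro x
      simp only [hbb]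
      rw [norm_prod, Finset.prod_pow]
    simp only [h11]
    rw [hT, ← Finset.prod_univ_sum (fun _ : Fin k => F) (fun _ m => ‖b m‖ ^ 2), Finset.prod_const, Finset.card_univ,
      Fintype.card_fin]
  · have h12 : ∑ x ∈ T, ‖bb x‖ = (∑ m ∈ F, ‖b m‖) ^ k := by
      have h11 : ∀ x : Fin k → ℕ, ‖bb x‖ = ∏ i, ‖b (x i)‖ := by
        intro x
        simp only [hbb]
        rw [norm_prod]
      simp only [h11]
      rw [hT, ← Finset.prod_univ_sum (fun _ : Fin k => F) (fun _ m => ‖b m‖), Finset.prod_const, Finset.card_univ,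
        Fintype.card_fin]
    apply le_of_eq
    rw [two_mul, pow_add, ← h12, Finset.sum_mul_sum, Finset.sum_mul]
    apply Finset.sum_congr rfl
    intro x _
    rw [Finset.sum_mul]

end Pool.Agent.Helper932CL
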