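import Mathlib
import Pool.Agent.Helper932CL.Mom

/-!
Oscillatory integrals along `b exp(A y)` and gaps.
-/

set_option autoImplicit false

open MeasureTheory Finset

namespace Pool.Agent.Helper932CL

lemma phase_bd {A b c d ω : ℝ} (hA : 0 < A) (hb : 0 < b) (hcd : c ≤ d) (hω : ω ≠ 0) :
    ‖∫ y in c..d, ez (ω * (b * Real.exp (A * y)))‖ ≤ 1 / (|ω| * (A * (b * Real.exp (A * c)))) := by
  have hpi := Real.pi_gt_three
  set R : ℝ → ℝ := fun y => b * Real.exp (A * y) with hR
  have hR0 : ∀ y, 0 < R y := fun y => by simp only [hR]; positivity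
  have hRd : ∀ y, HasDerivAt R (A * R y) y := by
    intro y
    have h := ((hasDerivAt_id y).const_mul A).exp.const_mul b
    simp only [id] at h
    exact h.congr_deriv (by simp only [hR]; ring)
  set K : ℂ := ((2 * Real.pi * ω : ℝ) : ℂ) * Complex.I with hK
  have hK0 : K ≠ 0 := by
    rw [hK]
    apply mul_ne_zero _ Complex.I_ne_zero
    exact_mod_cast (by positivity : (2 * Real.pi * ω) ≠ 0)
  have hKn : ‖K‖ = 2 * Real.pi * |ω| := by
    rw [hK, norm_mul, Complex.norm_I, mul_one, Complex.norm_real, Real.norm_eq_abs, abs_mul, abs_of_pos (by positivity)]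
  set f : ℝ → ℂ := fun y => ez (ω * R y) with hf
  have hfe : ∀ y, f y = Complex.exp (K * (R y : ℂ)) := by
    intro y
    simp only [hf, ez, hK]
    congr 1
    push_cast; ring
  have hfd : ∀ y, HasDerivAt f (K * (A * R y) * f y) y := by
    intro y
    have h1 : HasDerivAt (fun y : ℝ => ((R y : ℝ) : ℂ)) ((A * R y : ℝ) : ℂ) y := (hRd y).ofReal_comp
    have h2 := (h1.const_mul K).cexp
    have h3 : (fun y : ℝ => Complex.exp (K * (R y : ℂ))) = f := by funext y; rw [hfe]
    rw [h3] at h2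
    refine h2.congr_deriv ?_
    rw [← hfe]; push_cast; ring
  set g : ℝ → ℂ := fun y => f y * ((R y : ℂ))⁻¹ with hg
  have hgd : ∀ y, HasDerivAt g (K * A * f y - A * g y) y := by
    intro y
    have h1 : HasDerivAt (fun y : ℝ => ((R y : ℝ) : ℂ)) ((A * R y : ℝ) : ℂ) y := (hRd y).ofReal_comp
    have hne : ((R y : ℝ) : ℂ) ≠ 0 := by exact_mod_cast (hR0 y).ne'
    have h2 := (hfd y).mul (h1.inv hne)
    refine h2.congr_deriv ?_
    simp only [hg, Pi.inv_apply]
    push_cast
    field_simp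
    ring
  have hfc : Continuous f := by
    rw [continuous_iff_continuousAt]; exact fun y => (hfd y).continuousAt
  have hgc : Continuous g := by
    rw [continuous_iff_continuousAt]; exact fun y => (hgd y).continuousAt
  have hi1 : IntervalIntegrable (fun y => K * A * f y) volume c d := (continuous_const.mul hfc).intervalIntegrable _ _
  have hi2 : IntervalIntegrable (fun y => (A:ℂ) * g y) volume c d := (continuous_const.mul hgc).intervalIntegrable _ _
  have hI : ∫ y in c..d, (K * A * f y - A * g y) = g d - g c :=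
    intervalIntegral.integral_eq_sub_of_hasDerivAt (fun y _ => hgd y) (hi1.sub hi2)
  rw [intervalIntegral.integral_sub hi1 hi2, intervalIntegral.integral_const_mul,
    intervalIntegral.integral_const_mul] at hI
  have hgn : ∀ y, ‖g y‖ = (R y)⁻¹ := by
    intro y
    simp only [hg, hf]
    rw [norm_mul, norm_ez, one_mul, norm_inv, Complex.norm_real, Real.norm_eq_abs, abs_of_pos (hR0 y)]
  have hinv : ∫ y in c..d, (R y)⁻¹ = (1 / A) * ((R c)⁻¹ - (R d)⁻¹) := by
    have h1 : ∀ y, HasDerivAt (fun y => -(1 / A) * (R y)⁻¹) ((R y)⁻¹) y := by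
      intro y
      have h2 := ((hRd y).inv (hR0 y).ne').const_mul (-(1 / A))
      refine h2.congr_deriv ?_
      have := (hR0 y).ne'
      field_simp
    have hc : Continuous fun y => (R y)⁻¹ := by
      rw [continuous_iff_continuousAt]
      intro y
      exact ((hRd y).continuousAt).inv₀ (hR0 y).ne'
    rw [intervalIntegral.integral_eq_sub_of_hasDerivAt (fun y _ => h1 y) (hc.intervalIntegrable _ _)]
    ring
  have hgint : ‖∫ y in c..d, g y‖ ≤ (1 / A) * ((R c)⁻¹ - (R d)⁻¹) := by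
    rw [← hinv]
    refine (intervalIntegral.norm_integral_le_integral_norm hcd).trans (le_of_eq ?_)
    apply intervalIntegral.integral_congr
    intro y _
    exact hgn y
  have h5 : ‖K * A * ∫ y in c..d, f y‖ ≤ 2 * (R c)⁻¹ := by
    have h6 : K * A * ∫ y in c..d, f y = g d - g c + A * ∫ y in c..d, g y := by linear_combination hI
    rw [h6]
    refine (norm_add_le _ _).trans ?_
    have h7 := norm_sub_le (g d) (g c)
    rw [hgn, hgn] at h7
    have h8 : ‖(A:ℂ) * ∫ y in c..d, g y‖ ≤ (R c)⁻¹ - (R d)⁻¹ := by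
      rw [norm_mul, Complex.norm_real, Real.norm_eq_abs, abs_of_pos hA]
      calc A * ‖∫ y in c..d, g y‖ ≤ A * ((1 / A) * ((R c)⁻¹ - (R d)⁻¹)) := mul_le_mul_of_nonneg_left hgint hA.le
        _ = _ := by field_simp
    linarith
  rw [norm_mul, norm_mul, hKn, Complex.norm_real, Real.norm_eq_abs, abs_of_pos hA] at h5
  have hω0 : 0 < |ω| := abs_pos.mpr hω
  rw [le_div_iff₀ (by positivity)]
  have hRc := hR0 c
  have h9 : (2 * Real.pi * |ω| * A * ‖∫ y in c..d, f y‖) * R c ≤ 2 := by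
    calc _ ≤ (2 * (R c)⁻¹) * R c := mul_le_mul_of_nonneg_right h5 hRc.le
      _ = 2 := by field_simp
  have h10 : 0 ≤ ‖∫ y in c..d, f y‖ * (|ω| * (A * R c)) := by positivity
  nlinarith

open Pool.Agent.W24.Liou in
/-- the gap of a family of square roots -/
lemma gap_fam {ι : Type*} [Fintype ι] [DecidableEq ι] [Nonempty ι] {g : ι → ℕ} {e : ι → ℤ} {M : ℕ} (hM : 1 ≤ M)
    (hg1 : ∀ i, 1 ≤ g i) (hgM' : ∀ i, g i ≤ M^2) (he1 : ∀ i, |(e i : ℝ)| ≤ 1)
    (hne : ∑ k, (e k : ℝ) * √(g k : ℝ) ≠ 0) :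
    1 ≤ |∑ k, (e k : ℝ) * √(g k : ℝ)| * ((Fintype.card ι * M : ℕ) : ℝ) ^ (2 ^ (Fintype.card ι)) := by
  classical
  have hgM : ∀ i, √(g i : ℝ) ≤ M := by
    intro i
    rw [Real.sqrt_le_left (Nat.cast_nonneg _)]
    exact_mod_cast hgM' i
  set c : Finset ι → ℤ := fun T => ∑ k, if ({k} : Finset ι) = T then e k else 0 with hc
  have hv : ∀ k : ι, vv g {k} = √(g k : ℝ) := by
    intro k; unfold vv; rw [Finset.prod_singleton]
  have h1 : ∑ T, (c T : ℝ) * vv g T = ∑ k, (e k : ℝ) * √(g k : ℝ) := by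
    simp only [hc]
    push_cast
    simp only [Finset.sum_mul]
    rw [Finset.sum_comm]
    apply Finset.sum_congr rfl
    intro k _
    rw [Finset.sum_eq_single ({k} : Finset ι)]
    · rw [if_pos rfl, hv]
    · intro T _ hT
      rw [if_neg (Ne.symm hT), zero_mul]
    · intro h; exact absurd (Finset.mem_univ _) h
  have h2 : ∑ T, |(c T : ℝ)| * vv g T ≤ ∑ k, √(g k : ℝ) := by
    have h3 : ∀ T, |(c T : ℝ)| * vv g T ≤ ∑ k, (if ({k} : Finset ι) = T then (1:ℝ) else 0) * vv g T := by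
      intro T
      rw [← Finset.sum_mul]
      apply mul_le_mul_of_nonneg_right _ (vv_pos hg1 T).le
      simp only [hc]
      push_cast
      refine (Finset.abs_sum_le_sum_abs _ _).trans (Finset.sum_le_sum ?_)
      intro k _
      split_ifs
      · exact he1 k
      · simp
    refine (Finset.sum_le_sum (fun T _ => h3 T)).trans (le_of_eq ?_)
    rw [Finset.sum_comm]
    apply Finset.sum_congr rfl
    intro k _
    rw [Finset.sum_eq_single ({k} : Finset ι)]
    · rw [if_pos rfl, hv, one_mul]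
    · intro T _ hT
      rw [if_neg (Ne.symm hT), zero_mul]
    · intro h; exact absurd (Finset.mem_univ _) h
  have h3 : ∑ k, √(g k : ℝ) ≤ ((Fintype.card ι * M : ℕ) : ℝ) := by
    calc ∑ k, √(g k : ℝ) ≤ ∑ _k : ι, (M:ℝ) := Finset.sum_le_sum fun k _ => hgM k
      _ = _ := by rw [Finset.sum_const, Finset.card_univ, nsmul_eq_mul]; push_cast; ring
  have h5 := liou hg1 c (B := ((Fintype.card ι * M : ℕ) : ℝ)) (by
    have h6 : 0 < Fintype.card ι := Fintype.card_pos
    have : 1 ≤ Fintype.card ι * M := Nat.one_le_iff_ne_zero.mpr (by positivity)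
    exact_mod_cast this) (h2.trans h3) (by rw [h1]; exact hne)
  rw [h1] at h5
  exact h5

/-- gap for differences of sums of `k` square roots -/
lemma gap_pair {k M : ℕ} (hk : 1 ≤ k) (hM : 1 ≤ M) {x x' : Fin k → ℕ} (hx : ∀ i, 1 ≤ x i ∧ x i ≤ M^2)
    (hx' : ∀ i, 1 ≤ x' i ∧ x' i ≤ M^2) (hne : ∑ i, √(x i : ℝ) - ∑ i, √(x' i : ℝ) ≠ 0) :
    1 / |∑ i, √(x i : ℝ) - ∑ i, √(x' i : ℝ)| ≤ ((2 * k * M : ℕ) : ℝ) ^ (4 ^ k) := by
  haveI : Nonempty (Fin k ⊕ Fin k) := ⟨Sum.inl ⟨0, hk⟩⟩
  have hsum : ∑ j : Fin k ⊕ Fin k, ((Sum.elim (fun _ => (1:ℤ)) (fun _ => (-1:ℤ)) j : ℤ) : ℝ) * √((Sum.elim x x' j : ℕ) : ℝ) =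
      ∑ i, √(x i : ℝ) - ∑ i, √(x' i : ℝ) := by
    rw [Fintype.sum_sum_type]
    simp only [Sum.elim_inl, Sum.elim_inr]
    rw [sub_eq_add_neg, ← Finset.sum_neg_distrib]
    congr 1
    · apply Finset.sum_congr rfl; intro i _; push_cast; ring
    · apply Finset.sum_congr rfl; intro i _; push_cast; ring
  have h1 := gap_fam (ι := Fin k ⊕ Fin k) (g := Sum.elim x x') (e := Sum.elim (fun _ => (1:ℤ)) (fun _ => (-1:ℤ))) hM
    (by rintro (i | i); exacts [(hx i).1, (hx' i).1]) (by rintro (i | i); exacts [(hx i).2, (hx' i).2])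
    (by rintro (i | i) <;> simp) (by rw [hsum]; exact hne)
  rw [hsum, Fintype.card_sum, Fintype.card_fin] at h1
  have h0 : 0 < |∑ i, √(x i : ℝ) - ∑ i, √(x' i : ℝ)| := abs_pos.mpr hne
  rw [div_le_iff₀ h0]
  have e1 : (2:ℕ) ^ (k + k) = 4 ^ k := by rw [← two_mul, pow_mul]; norm_num
  have e2 : (k + k) * M = 2 * k * M := by ring
  rw [e1, e2] at h1
  linarith

end Pool.Agent.Helper932CL
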