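import Mathlib
import Pool.Agent.Helper932CL.Phase
import Pool.Agent.Helper932CL.Win
import Pool.Agent.Helper932CL.Seq
import Pool.Agent.R306.GP.AEa

/-!
High moments of the model polynomials, split by the square part of the index.
-/

set_option autoImplicit false

open MeasureTheory Finset

namespace Pool.Agent.Helper932CL

open Pool.Agent.R306.GP (pt pt_cont)
open Pool.Agent.H383.Gen (U)

/-- sums of `s ^ (-1-e)` are bounded -/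
lemma zeta_fin {e : ℝ} (he : 0 < e) : ∃ Z : ℝ, 1 ≤ Z ∧ ∀ S : Finset ℕ, ∑ s ∈ S, (s:ℝ) ^ (-1 - e) ≤ Z := by
  have hs : Summable fun s : ℕ => (s:ℝ) ^ (-1 - e) := Real.summable_nat_rpow.mpr (by linarith)
  refine ⟨max 1 (∑' s : ℕ, (s:ℝ) ^ (-1 - e)), le_max_left _ _, fun S => ?_⟩
  refine le_trans ?_ (le_max_right _ _)
  exact hs.sum_le_tsum S fun s _ => by positivity

/-- the indices above `Y` with square part `l` -/
noncomputable def FF (M Y l : ℕ) : Finset ℕ := (Finset.Icc 1 (M^2)).filter fun m => Y < m ∧ rt m = l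

/-- partial sum over `FF` -/
noncomputable def WW (b : ℕ → ℂ) (M Y l : ℕ) (r : ℝ) : ℂ := ∑ m ∈ FF M Y l, b m * ez (√(m:ℝ) * r)

lemma FF_pos {M Y l m : ℕ} (h : m ∈ FF M Y l) : 1 ≤ m := by
  unfold FF at h
  exact (Finset.mem_Icc.mp (Finset.mem_filter.mp h).1).1

lemma FF_inj (M Y l : ℕ) : Set.InjOn sf (FF M Y l) := by
  intro m hm m' hm' h
  have h1 := (Finset.mem_filter.mp (Finset.mem_coe.mp hm)).2.2
  have h2 := (Finset.mem_filter.mp (Finset.mem_coe.mp hm')).2.2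
  rw [← rt_sf m, ← rt_sf m', h1, h2, h]

lemma WW_cont (b : ℕ → ℂ) (M Y l : ℕ) : Continuous (WW b M Y l) := by
  unfold WW
  exact continuous_finsetSum _ fun m _ => continuous_const.mul (continuous_ez_mul _)

lemma split_norm (b : ℕ → ℂ) (M Y : ℕ) (r : ℝ) :
    ‖SS b M r‖ ≤ ∑ m ∈ Finset.Icc 1 Y, ‖b m‖ + ∑ l ∈ Finset.Icc 1 M, ‖WW b M Y l r‖ := by
  classical
  have h1 : SS b M r = ∑ m ∈ (Finset.Icc 1 (M^2)).filter (fun m => m ≤ Y), b m * ez (√(m:ℝ) * r) +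
      ∑ l ∈ Finset.Icc 1 M, WW b M Y l r := by
    unfold SS WW
    rw [← Finset.sum_filter_add_sum_filter_not (Finset.Icc 1 (M^2)) (fun m => m ≤ Y)]
    congr 1
    rw [← Finset.sum_fiberwise_of_maps_to (t := Finset.Icc 1 M) (g := rt)]
    · apply Finset.sum_congr rfl
      intro l _
      unfold FF
      rw [Finset.filter_filter]
      apply Finset.sum_congr _ (fun _ _ => rfl)
      apply Finset.filter_congr
      intro m _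
      rw [not_le]
    · intro m hm
      have h2 := Finset.mem_Icc.mp (Finset.mem_filter.mp hm).1
      rw [Finset.mem_Icc]
      refine ⟨rt_pos h2.1, ?_⟩
      have h3 := rt_sf m
      have h4 := sf_pos m
      have h5 : rt m ^ 2 ≤ M ^ 2 := by
        calc rt m ^ 2 = rt m ^ 2 * 1 := (mul_one _).symm
          _ ≤ rt m ^ 2 * sf m := Nat.mul_le_mul_left _ h4
          _ = m := h3
          _ ≤ _ := h2.2
      exact (Nat.pow_le_pow_iff_left (by norm_num)).mp h5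
  rw [h1]
  refine (norm_add_le _ _).trans (add_le_add ?_ (norm_sum_le _ _))
  refine (norm_sum_le _ _).trans ?_
  have h2 : ∀ m : ℕ, ‖b m * ez (√(m:ℝ) * r)‖ = ‖b m‖ := by
    intro m
    rw [norm_mul, norm_ez, mul_one]
  simp only [h2]
  apply Finset.sum_le_sum_of_subset_of_nonneg
  · intro m hm
    rw [Finset.mem_filter, Finset.mem_Icc] at hm
    rw [Finset.mem_Icc]
    exact ⟨hm.1.1, hm.2⟩
  · intro _ _ _; exact norm_nonneg _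

/-- the coefficients are small -/
def Sm (a : ℕ → ℝ) : Prop := ∀ e : ℝ, 0 < e → ∃ C : ℝ, 1 ≤ C ∧ ∀ m : ℕ, 1 ≤ m → |a m| ≤ C * (m:ℝ) ^ (-(3/4) + e)

lemma triv_sum {b : ℕ → ℂ} {C Z e : ℝ} (hC : 0 ≤ C) (hZ : ∀ S : Finset ℕ, ∑ s ∈ S, (s:ℝ) ^ (-1 - e) ≤ Z)
    (he : 0 < e) (hb : ∀ m : ℕ, 1 ≤ m → ‖b m‖ ≤ C * (m:ℝ) ^ (-(3/4) + e)) (Y : ℕ) :
    ∑ m ∈ Finset.Icc 1 Y, ‖b m‖ ≤ C * Z * (Y:ℝ) ^ (1/4 + 2 * e) := by
  have h1 : ∀ m ∈ Finset.Icc 1 Y, ‖b m‖ ≤ C * (Y:ℝ) ^ (1/4 + 2 * e) * (m:ℝ) ^ (-1 - e) := by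
    intro m hm
    rw [Finset.mem_Icc] at hm
    have hm0 : (0:ℝ) < m := by exact_mod_cast hm.1
    refine (hb m hm.1).trans ?_
    have h2 : (m:ℝ) ^ (-(3/4) + e) = (m:ℝ) ^ (1/4 + 2 * e) * (m:ℝ) ^ (-1 - e) := by
      rw [← Real.rpow_add hm0]; congr 1; ring
    rw [h2, ← mul_assoc]
    apply mul_le_mul_of_nonneg_right _ (by positivity)
    apply mul_le_mul_of_nonneg_left _ hC
    exact Real.rpow_le_rpow hm0.le (by exact_mod_cast hm.2) (by linarith)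
  calc ∑ m ∈ Finset.Icc 1 Y, ‖b m‖ ≤ ∑ m ∈ Finset.Icc 1 Y, C * (Y:ℝ) ^ (1/4 + 2 * e) * (m:ℝ) ^ (-1 - e) :=
        Finset.sum_le_sum h1
    _ = C * (Y:ℝ) ^ (1/4 + 2 * e) * ∑ m ∈ Finset.Icc 1 Y, (m:ℝ) ^ (-1 - e) := by rw [Finset.mul_sum]
    _ ≤ C * (Y:ℝ) ^ (1/4 + 2 * e) * Z := mul_le_mul_of_nonneg_left (hZ _) (by positivity)
    _ = _ := by ring

lemma sumsq {b : ℕ → ℂ} {C Z e : ℝ} (hC : 0 ≤ C) (hZ : ∀ S : Finset ℕ, ∑ s ∈ S, (s:ℝ) ^ (-1 - e) ≤ Z)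
    (he : 0 < e) (he2 : 3 * e ≤ 1/2) (hb : ∀ m : ℕ, 1 ≤ m → ‖b m‖ ≤ C * (m:ℝ) ^ (-(3/4) + e)) {M Y l : ℕ} (hY : 1 ≤ Y)
    (hl : 1 ≤ l) : ∑ m ∈ FF M Y l, ‖b m‖ ^ 2 ≤ C ^ 2 * Z * (Y:ℝ) ^ (-(1/2) + 3 * e) * ((l:ℝ) ^ (-1 - e)) ^ 2 := by
  classical
  have hl0 : (0:ℝ) < l := by exact_mod_cast hl
  have hY0 : (0:ℝ) < Y := by exact_mod_cast hY
  have h1 : ∀ m ∈ FF M Y l, ‖b m‖ ^ 2 ≤ C ^ 2 * (Y:ℝ) ^ (-(1/2) + 3 * e) * ((l:ℝ) ^ (-1 - e)) ^ 2 * (sf m : ℝ) ^ (-1 - e) := by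
    intro m hm
    have hm1 := FF_pos hm
    have hm2 := (Finset.mem_filter.mp hm).2
    have hm0 : (0:ℝ) < m := by exact_mod_cast hm1
    have h2 := hb m hm1
    have h3 : ‖b m‖ ^ 2 ≤ C ^ 2 * ((m:ℝ) ^ (-(1/2) + 3 * e) * (m:ℝ) ^ (-1 - e)) := by
      calc ‖b m‖ ^ 2 ≤ (C * (m:ℝ) ^ (-(3/4) + e)) ^ 2 := pow_le_pow_left₀ (norm_nonneg _) h2 2
        _ = C ^ 2 * ((m:ℝ) ^ (-(3/4) + e) * (m:ℝ) ^ (-(3/4) + e)) := by ring
        _ = _ := by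
          rw [← Real.rpow_add hm0, ← Real.rpow_add hm0]
          congr 2; ring
    have h4 : (m:ℝ) ^ (-(1/2) + 3 * e) ≤ (Y:ℝ) ^ (-(1/2) + 3 * e) :=
      Real.rpow_le_rpow_of_nonpos hY0 (by exact_mod_cast hm2.1.le) (by linarith)
    have h5 : (m:ℝ) ^ (-1 - e) = ((l:ℝ) ^ (-1 - e)) ^ 2 * (sf m : ℝ) ^ (-1 - e) := by
      have h6 : (m:ℝ) = (l:ℝ) ^ 2 * (sf m : ℝ) := by
        have := rt_sf m
        rw [hm2.2] at this
        exact_mod_cast this.symm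
      rw [h6, Real.mul_rpow (by positivity) (Nat.cast_nonneg _)]
      congr 1
      rw [← Real.rpow_natCast, ← Real.rpow_natCast, ← Real.rpow_mul hl0.le, ← Real.rpow_mul hl0.le]
      congr 1
      ring
    refine h3.trans ?_
    rw [h5]
    calc C ^ 2 * ((m:ℝ) ^ (-(1/2) + 3 * e) * (((l:ℝ) ^ (-1 - e)) ^ 2 * (sf m : ℝ) ^ (-1 - e)))
        ≤ C ^ 2 * ((Y:ℝ) ^ (-(1/2) + 3 * e) * (((l:ℝ) ^ (-1 - e)) ^ 2 * (sf m : ℝ) ^ (-1 - e))) := by gcongr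
      _ = _ := by ring
  refine (Finset.sum_le_sum h1).trans ?_
  rw [← Finset.mul_sum]
  have h7 : ∑ m ∈ FF M Y l, (sf m : ℝ) ^ (-1 - e) ≤ Z := by
    rw [← Finset.sum_image (s := FF M Y l) (g := sf) (f := fun s : ℕ => (s:ℝ) ^ (-1 - e)) (fun x hx y hy h => FF_inj M Y l hx hy h)]
    exact hZ _
  calc C ^ 2 * (Y:ℝ) ^ (-(1/2) + 3 * e) * ((l:ℝ) ^ (-1 - e)) ^ 2 * ∑ m ∈ FF M Y l, (sf m : ℝ) ^ (-1 - e)
      ≤ C ^ 2 * (Y:ℝ) ^ (-(1/2) + 3 * e) * ((l:ℝ) ^ (-1 - e)) ^ 2 * Z := mul_le_mul_of_nonneg_left h7 (by positivity)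
    _ = _ := by ring

/-- Markov's inequality for powers -/
lemma cheb {g : ℝ → ℂ} (hg : Continuous g) {c d v : ℝ} (hcd : c ≤ d) (hv : 0 < v) (k : ℕ) :
    volume.real ({y | v < ‖g y‖} ∩ Set.Ioc c d) ≤ (∫ y in c..d, ‖g y‖ ^ (2 * k)) / v ^ (2 * k) := by
  have h1 : Integrable (fun y => ‖g y‖ ^ (2 * k)) (volume.restrict (Set.Ioc c d)) :=
    ((hg.norm.pow _).integrableOn_Icc (a := c) (b := d)).mono_set Set.Ioc_subset_Icc_self
  have h2 := mul_meas_ge_le_integral_of_nonneg (μ := volume.restrict (Set.Ioc c d))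
    (f := fun y => ‖g y‖ ^ (2 * k)) (Filter.Eventually.of_forall fun y => by positivity) h1 (v ^ (2 * k))
  rw [le_div_iff₀ (by positivity), mul_comm, intervalIntegral.integral_of_le hcd]
  refine le_trans ?_ h2
  apply mul_le_mul_of_nonneg_left _ (by positivity)
  have hm : MeasurableSet {y : ℝ | v < ‖g y‖} := measurableSet_lt measurable_const hg.norm.measurable
  rw [← measureReal_restrict_apply hm]
  apply measureReal_mono _ (by finiteness)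
  intro y hy
  have hy' : v < ‖g y‖ := hy
  exact pow_le_pow_left₀ hv.le hy'.le _

end Pool.Agent.Helper932CL
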