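import Mathlib
import Pool.Agent.Helper932CL.Up1

/-!
The measure of the set of large values of a model polynomial.
-/

set_option autoImplicit false

open MeasureTheory Finset

namespace Pool.Agent.Helper932CL

open Pool.Agent.R306.GP (pt pt_cont)
open Pool.Agent.H383.Gen (U)

theorem bad_bd {a b : ℕ → ℝ} {δ c d : ℝ} (h : Sq a b δ) (hcd : c ≤ d) {af : ℕ → ℝ} {φ C Z e : ℝ} (hC : 1 ≤ C)
    (hZ1 : 1 ≤ Z) (hZ : ∀ S : Finset ℕ, ∑ s ∈ S, (s:ℝ) ^ (-1 - e) ≤ Z) (he : 0 < e) (he2 : 3 * e ≤ 1/2)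
    (haf : ∀ m : ℕ, 1 ≤ m → |af m| ≤ C * (m:ℝ) ^ (-(3/4) + e)) {n k M Y : ℕ} (hk : 1 ≤ k) (hM : 1 ≤ M) (hY : 1 ≤ Y)
    {V : ℝ} (hV : 1 ≤ V) (hT : C * Z * (Y:ℝ) ^ (1/4 + 2 * e) ≤ V / 2) :
    volume.real ({y | V < |U af φ (pt a b n y) M|} ∩ Set.Ioc c d) ≤
      M * ((k * (4 * Z ^ 3 * C ^ 2 * (Y:ℝ) ^ (-(1/2) + 3 * e) / V ^ 2)) ^ k * (d - c) +
        (2 * Z * C * (M:ℝ) ^ 4) ^ (2 * k) * (((2 * k * M : ℕ) : ℝ) ^ (4 ^ k) / pt a b n c)) := by
  classical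
  have hP := pt_pos h n c
  set P := pt a b n c with hPdef
  have hM0 : (1:ℝ) ≤ M := by exact_mod_cast hM
  have hMp : (0:ℝ) < M := by linarith
  set β : ℕ → ℂ := bp af φ with hβ
  have hβn : ∀ m : ℕ, 1 ≤ m → ‖β m‖ ≤ C * (m:ℝ) ^ (-(3/4) + e) := by
    intro m hm
    rw [hβ, norm_bp]; exact haf m hm
  have hC0 : 0 ≤ C := by linarith
  have hZ0 : 0 < Z := by linarith
  set v : ℕ → ℝ := fun l => V / (2 * Z) * (l:ℝ) ^ (-1 - e) with hv
  have hvpos : ∀ l : ℕ, 1 ≤ l → 0 < v l := by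
    intro l hl
    have : (0:ℝ) < l := by exact_mod_cast hl
    simp only [hv]; positivity
  have hvsum : ∑ l ∈ Finset.Icc 1 M, v l ≤ V / 2 := by
    simp only [hv]
    rw [← Finset.mul_sum]
    calc V / (2 * Z) * ∑ l ∈ Finset.Icc 1 M, (l:ℝ) ^ (-1 - e) ≤ V / (2 * Z) * Z :=
          mul_le_mul_of_nonneg_left (hZ _) (by positivity)
      _ = V / 2 := by field_simp
  have hsub : {y | V < |U af φ (pt a b n y) M|} ∩ Set.Ioc c d ⊆
      ⋃ l ∈ Finset.Icc 1 M, ({y | v l < ‖WW β M Y l (pt a b n y)‖} ∩ Set.Ioc c d) := by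
    rintro y ⟨hy, hyc⟩
    have hy' : V < |U af φ (pt a b n y) M| := hy
    simp only [Set.mem_iUnion]
    by_contra hcon
    push Not at hcon
    have h1 : ∀ l ∈ Finset.Icc 1 M, ‖WW β M Y l (pt a b n y)‖ ≤ v l := by
      intro l hl
      by_contra h2
      push Not at h2
      exact hcon l hl ⟨h2, hyc⟩
    have h2 : |U af φ (pt a b n y) M| ≤ ‖SS β M (pt a b n y)‖ := by
      rw [U_re]; exact Complex.abs_re_le_norm _
    have h3 := split_norm β M Y (pt a b n y)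
    have h4 := triv_sum hC0 hZ he hβn Y
    have h5 := Finset.sum_le_sum h1
    linarith
  have hcard : (Finset.Icc 1 M).card = M := by simp
  have hone : ∀ l ∈ Finset.Icc 1 M, volume.real ({y | v l < ‖WW β M Y l (pt a b n y)‖} ∩ Set.Ioc c d) ≤
      (k * (4 * Z ^ 3 * C ^ 2 * (Y:ℝ) ^ (-(1/2) + 3 * e) / V ^ 2)) ^ k * (d - c) +
        (2 * Z * C * (M:ℝ) ^ 4) ^ (2 * k) * (((2 * k * M : ℕ) : ℝ) ^ (4 ^ k) / P) := by
    intro l hl
    rw [Finset.mem_Icc] at hl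
    have hl0 : (0:ℝ) < l := by exact_mod_cast hl.1
    have hlM : (l:ℝ) ≤ M := by exact_mod_cast hl.2
    have hvl := hvpos l hl.1
    have h1 := cheb (g := fun y => WW β M Y l (pt a b n y)) ((WW_cont β M Y l).comp (pt_cont a b n)) hcd hvl k
    refine h1.trans ?_
    have hmem : ∀ m ∈ FF M Y l, 1 ≤ m ∧ m ≤ M ^ 2 := fun m hm => Finset.mem_Icc.mp (Finset.mem_filter.mp hm).1
    have hE0 : (0:ℝ) ≤ ((2 * k * M : ℕ) : ℝ) ^ (4 ^ k) / P := by positivity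
    have h2 := moment (F := FF M Y l) (fun m hm => FF_pos hm) (FF_inj M Y l) β k hcd (R := pt a b n) (pt_cont a b n)
      hE0 (by
        intro x hx x' hx' hne
        rw [Fintype.mem_piFinset] at hx hx'
        have h3 := gap_pair hk hM (fun i => hmem _ (hx i)) (fun i => hmem _ (hx' i)) hne
        have hA : 0 < a n := lt_of_lt_of_le one_pos (h.one n)
        have h4 := phase_bd hA (h.pos n) hcd hne
        refine h4.trans ?_
        have h5 : 0 < |∑ i, √(x i : ℝ) - ∑ i, √(x' i : ℝ)| := abs_pos.mpr hne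
        have h6 : P ≤ a n * P := by nlinarith [h.one n]
        have h7 : a n * (b n * Real.exp (a n * c)) = a n * P := rfl
        rw [h7]
        calc 1 / (|∑ i, √(x i : ℝ) - ∑ i, √(x' i : ℝ)| * (a n * P))
            ≤ 1 / (|∑ i, √(x i : ℝ) - ∑ i, √(x' i : ℝ)| * P) := by
              apply one_div_le_one_div_of_le (by positivity)
              exact mul_le_mul_of_nonneg_left h6 h5.le
          _ = (1 / |∑ i, √(x i : ℝ) - ∑ i, √(x' i : ℝ)|) / P := by field_simp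
          _ ≤ _ := by
              apply div_le_div_of_nonneg_right h3 hP.le)
    have h3 := sumsq hC0 hZ he he2 hβn (M := M) hY hl.1
    set S2 := ∑ m ∈ FF M Y l, ‖β m‖ ^ 2 with hS2
    set S1 := ∑ m ∈ FF M Y l, ‖β m‖ with hS1
    have hS1 : S1 ≤ C * (M:ℝ) ^ 2 := by
      calc S1 ≤ ∑ m ∈ FF M Y l, C := by
            apply Finset.sum_le_sum
            intro m hm
            refine (hβn m (FF_pos hm)).trans ?_
            have hm1 : (1:ℝ) ≤ m := by exact_mod_cast FF_pos hm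
            have : (m:ℝ) ^ (-(3/4) + e) ≤ 1 := Real.rpow_le_one_of_one_le_of_nonpos hm1 (by linarith)
            nlinarith
        _ = (FF M Y l).card * C := by rw [Finset.sum_const, nsmul_eq_mul]
        _ ≤ (M:ℝ) ^ 2 * C := by
            apply mul_le_mul_of_nonneg_right _ hC0
            have : (FF M Y l).card ≤ M ^ 2 := by
              calc (FF M Y l).card ≤ (Finset.Icc 1 (M^2)).card := Finset.card_filter_le _ _
                _ = M ^ 2 := by simp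
            exact_mod_cast this
        _ = _ := by ring
    have hS10 : 0 ≤ S1 := Finset.sum_nonneg fun _ _ => norm_nonneg _
    have hS20 : 0 ≤ S2 := Finset.sum_nonneg fun _ _ => by positivity
    have hdc : 0 ≤ d - c := by linarith
    have hfac : (k.factorial : ℝ) ≤ (k:ℝ) ^ k := by exact_mod_cast Nat.factorial_le_pow k
    have hlo : (1:ℝ) / (2 * Z * (M:ℝ) ^ 2) ≤ v l := by
      simp only [hv]
      have h8 : ((M:ℝ) ^ 2)⁻¹ ≤ (l:ℝ) ^ (-1 - e) := by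
        calc ((M:ℝ) ^ 2)⁻¹ = (M:ℝ) ^ (-2:ℝ) := by rw [Real.rpow_neg hMp.le, Real.rpow_two]
          _ ≤ (M:ℝ) ^ (-1 - e) := Real.rpow_le_rpow_of_exponent_le hM0 (by linarith)
          _ ≤ (l:ℝ) ^ (-1 - e) := Real.rpow_le_rpow_of_nonpos hl0 hlM (by linarith)
      calc (1:ℝ) / (2 * Z * (M:ℝ) ^ 2) = 1 / (2 * Z) * ((M:ℝ) ^ 2)⁻¹ := by field_simp
        _ ≤ V / (2 * Z) * (l:ℝ) ^ (-1 - e) := by
            apply mul_le_mul _ h8 (by positivity) (by positivity)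
            exact div_le_div_of_nonneg_right hV (by positivity)
    have h9 : S2 / (v l) ^ 2 ≤ 4 * Z ^ 3 * C ^ 2 * (Y:ℝ) ^ (-(1/2) + 3 * e) / V ^ 2 := by
      rw [div_le_iff₀ (by positivity)]
      refine h3.trans (le_of_eq ?_)
      simp only [hv]
      have hV0 : V ≠ 0 := by linarith
      field_simp
      ring
    have h10 : S1 / v l ≤ 2 * Z * C * (M:ℝ) ^ 4 := by
      rw [div_le_iff₀ hvl]
      refine hS1.trans ?_
      calc C * (M:ℝ) ^ 2 = (2 * Z * C * (M:ℝ) ^ 4) * (1 / (2 * Z * (M:ℝ) ^ 2)) := by field_simp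
        _ ≤ (2 * Z * C * (M:ℝ) ^ 4) * v l := mul_le_mul_of_nonneg_left hlo (by positivity)
    rw [div_le_iff₀ (by positivity)]
    refine h2.trans ?_
    have e1 : (k.factorial : ℝ) * S2 ^ k * (d - c) ≤ ((k * (4 * Z ^ 3 * C ^ 2 * (Y:ℝ) ^ (-(1/2) + 3 * e) / V ^ 2)) ^ k * (d - c)) * (v l) ^ (2 * k) := by
      have e2 : S2 ^ k = (S2 / (v l) ^ 2) ^ k * (v l) ^ (2 * k) := by
        rw [div_pow, ← pow_mul, div_mul_cancel₀ _ (by positivity)]
      rw [e2, mul_pow (k:ℝ) (4 * Z ^ 3 * C ^ 2 * (Y:ℝ) ^ (-(1/2) + 3 * e) / V ^ 2) k]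
      generalize 4 * Z ^ 3 * C ^ 2 * (Y:ℝ) ^ (-(1/2) + 3 * e) / V ^ 2 = X at h9
      calc (k.factorial : ℝ) * ((S2 / (v l) ^ 2) ^ k * (v l) ^ (2 * k)) * (d - c)
          ≤ (k:ℝ) ^ k * (X ^ k * (v l) ^ (2 * k)) * (d - c) := by
            gcongr
        _ = _ := by ring
    have e3 : S1 ^ (2 * k) * (((2 * k * M : ℕ) : ℝ) ^ (4 ^ k) / P) ≤
        ((2 * Z * C * (M:ℝ) ^ 4) ^ (2 * k) * (((2 * k * M : ℕ) : ℝ) ^ (4 ^ k) / P)) * (v l) ^ (2 * k) := by
      have e4 : S1 ^ (2 * k) = (S1 / v l) ^ (2 * k) * (v l) ^ (2 * k) := by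
        rw [div_pow, div_mul_cancel₀ _ (by positivity)]
      rw [e4]
      calc (S1 / v l) ^ (2 * k) * (v l) ^ (2 * k) * (((2 * k * M : ℕ) : ℝ) ^ (4 ^ k) / P)
          ≤ (2 * Z * C * (M:ℝ) ^ 4) ^ (2 * k) * (v l) ^ (2 * k) * (((2 * k * M : ℕ) : ℝ) ^ (4 ^ k) / P) := by
            gcongr
        _ = _ := by ring
    rw [add_mul]
    exact add_le_add e1 e3
  calc volume.real ({y | V < |U af φ (pt a b n y) M|} ∩ Set.Ioc c d)
      ≤ volume.real (⋃ l ∈ Finset.Icc 1 M, ({y | v l < ‖WW β M Y l (pt a b n y)‖} ∩ Set.Ioc c d)) := by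
        refine measureReal_mono hsub ?_
        apply ne_of_lt
        refine lt_of_le_of_lt (measure_mono (t := Set.Ioc c d) ?_) (by rw [Real.volume_Ioc]; exact ENNReal.ofReal_lt_top)
        intro y hy
        simp only [Set.mem_iUnion] at hy
        obtain ⟨l, hl, hy⟩ := hy
        exact hy.2
    _ ≤ ∑ l ∈ Finset.Icc 1 M, volume.real ({y | v l < ‖WW β M Y l (pt a b n y)‖} ∩ Set.Ioc c d) :=
        measureReal_biUnion_finset_le _ _
    _ ≤ ∑ _l ∈ Finset.Icc 1 M, ((k * (4 * Z ^ 3 * C ^ 2 * (Y:ℝ) ^ (-(1/2) + 3 * e) / V ^ 2)) ^ k * (d - c) +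
        (2 * Z * C * (M:ℝ) ^ 4) ^ (2 * k) * (((2 * k * M : ℕ) : ℝ) ^ (4 ^ k) / P)) := Finset.sum_le_sum hone
    _ = _ := by rw [Finset.sum_const, hcard, nsmul_eq_mul]

end Pool.Agent.Helper932CL
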