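import Mathlib
import Pool.Agent.Helper932CL.Up2

/-!
The upper bound for the model polynomials, almost everywhere.
-/

set_option autoImplicit false

open MeasureTheory Finset Filter Topology Asymptotics

namespace Pool.Agent.Helper932CL

open Pool.Agent.R306.GP (pt pt_cont)
open Pool.Agent.H383.Gen (U)

/-- Borel–Cantelli -/
lemma bc {μ : Measure ℝ} [IsFiniteMeasure μ] {S : ℕ → Set ℝ} {B : ℕ → ℝ} (hB : Summable B)
    (h : ∀ᶠ n in atTop, μ.real (S n) ≤ B n) : ∀ᵐ y ∂μ, ∀ᶠ n in atTop, y ∉ S n := by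
  rw [eventually_atTop] at h
  obtain ⟨n0, h⟩ := h
  have hB' : Summable fun j => |B (j + n0)| := ((summable_nat_add_iff n0).mpr hB).abs
  have h1 : ∑' j, μ (S (j + n0)) ≤ ∑' j, ENNReal.ofReal |B (j + n0)| := by
    apply ENNReal.tsum_le_tsum
    intro j
    rw [← ENNReal.ofReal_toReal (measure_ne_top μ (S (j + n0)))]
    exact ENNReal.ofReal_le_ofReal ((h _ (by omega)).trans (le_abs_self _))
  have h2 : ∑' j, ENNReal.ofReal |B (j + n0)| ≠ ⊤ := by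
    rw [← ENNReal.ofReal_tsum_of_nonneg (fun _ => abs_nonneg _) hB']
    exact ENNReal.ofReal_ne_top
  have h3 := ae_eventually_notMem (μ := μ) (s := fun j => S (j + n0)) (ne_top_of_le_ne_top h2 h1)
  filter_upwards [h3] with y hy
  rw [eventually_atTop] at hy ⊢
  obtain ⟨j0, hy⟩ := hy
  refine ⟨j0 + n0, fun n hn => ?_⟩
  have := hy (n - n0) (by omega)
  rwa [Nat.sub_add_cancel (by omega)] at this

lemma ev_lin (A B D : ℝ) {κ : ℝ} (hκ : 0 < κ) : ∀ᶠ n : ℕ in atTop, D + √(n:ℝ) * (A + B * Real.log n) ≤ κ * n := by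
  have h1 : (fun x : ℝ => D + √x * (A + B * Real.log x)) =o[atTop] fun x : ℝ => x := by
    apply IsLittleO.add
    · exact isLittleO_const_id_atTop D
    · have h2 : (fun x : ℝ => A + B * Real.log x) =o[atTop] fun x : ℝ => √x := by
        apply IsLittleO.add
        · rw [isLittleO_const_left]
          right
          simp only [Function.comp_def]
          refine (tendsto_norm_atTop_atTop.comp Real.tendsto_sqrt_atTop)
        · have h3 := (isLittleO_log_rpow_atTop (r := 1/2) (by norm_num)).const_mul_left B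
          simpa only [Real.sqrt_eq_rpow] using h3
      have h4 : (fun x : ℝ => √x * (A + B * Real.log x)) =o[atTop] fun x : ℝ => √x * √x :=
        (isBigO_refl _ _).mul_isLittleO h2
      refine h4.trans_eventuallyEq ?_
      filter_upwards [eventually_ge_atTop 0] with x hx
      exact Real.mul_self_sqrt hx
  have h5 := (h1.def hκ).natCast_atTop
  filter_upwards [h5] with n hn
  have h6 : ‖((n:ℕ):ℝ)‖ = n := by rw [Real.norm_eq_abs, abs_of_nonneg (Nat.cast_nonneg _)]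
  rw [h6] at hn
  exact (Real.le_norm_self _).trans hn

lemma log16_tendsto : Tendsto (fun n : ℕ => Nat.log 16 n) atTop atTop := by
  rw [tendsto_atTop]
  intro K
  filter_upwards [eventually_ge_atTop (16 ^ K)] with n hn
  exact Nat.le_log_of_pow_le (by norm_num) hn

/-- the second part of the bound -/
lemma ev_second {Z C β κ : ℝ} (hZ : 1 ≤ Z) (hC : 1 ≤ C) (hβ : 0 < β) (hκ : 0 < κ) :
    ∀ᶠ n : ℕ in atTop, ∀ P : ℝ, β * Real.exp (κ * n) ≤ P →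
      ((n ^ 800 : ℕ) : ℝ) * ((2 * Z * C * ((n ^ 800 : ℕ) : ℝ) ^ 4) ^ (2 * Nat.log 16 n) *
        (((2 * Nat.log 16 n * (n ^ 800) : ℕ) : ℝ) ^ (4 ^ Nat.log 16 n) / P)) ≤ ((n:ℝ) ^ 2)⁻¹ := by
  have hZC : 1 ≤ Z * C := by nlinarith
  filter_upwards [ev_lin (4 * Real.log (4 * (Z * C)) + 2) (4 * 3201 + 2) (-Real.log β) hκ, eventually_ge_atTop 1] with n hn hn1 P hP
  set k := Nat.log 16 n with hk
  have hn0 : (1:ℝ) ≤ n := by exact_mod_cast hn1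
  have hnp : (0:ℝ) < n := by linarith
  have hPp : 0 < P := lt_of_lt_of_le (by positivity) hP
  have h16 : 16 ^ k ≤ n := Nat.pow_log_le_self 16 (by omega)
  have h4 : (4:ℝ) ^ k ≤ √(n:ℝ) := by
    apply Real.le_sqrt_of_sq_le
    have : ((4:ℝ) ^ k) ^ 2 = ((16 ^ k : ℕ) : ℝ) := by
      push_cast
      rw [← pow_mul, mul_comm, pow_mul]; norm_num
    rw [this]
    exact_mod_cast h16
  set Q : ℝ := 4 * (Z * C) * (n:ℝ) ^ 3201 with hQ
  have hnpow : ∀ p q : ℕ, p ≤ q → (n:ℝ) ^ p ≤ (n:ℝ) ^ q := fun p q hpq => pow_le_pow_right₀ hn0 hpq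
  have hn3201 : (1:ℝ) ≤ (n:ℝ) ^ 3201 := one_le_pow₀ hn0
  have hQ1 : 1 ≤ Q := by rw [hQ]; nlinarith
  have hM : ((n ^ 800 : ℕ) : ℝ) = (n:ℝ) ^ 800 := by push_cast; rfl
  have q1 : ((n ^ 800 : ℕ) : ℝ) ≤ Q := by
    rw [hM, hQ]
    have := hnpow 800 3201 (by norm_num)
    nlinarith
  have q2 : 2 * Z * C * ((n ^ 800 : ℕ) : ℝ) ^ 4 ≤ Q := by
    rw [hM, hQ, ← pow_mul]
    have := hnpow (800 * 4) 3201 (by norm_num)
    nlinarith
  have q3 : ((2 * k * (n ^ 800) : ℕ) : ℝ) ≤ Q := by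
    push_cast
    rw [hQ]
    have hkn : (k:ℝ) ≤ n := by
      have : k ≤ n := by
        calc k ≤ 16 ^ k := (Nat.lt_pow_self (by norm_num)).le
          _ ≤ n := h16
      exact_mod_cast this
    calc 2 * (k:ℝ) * (n:ℝ) ^ 800 ≤ 2 * (n:ℝ) * (n:ℝ) ^ 800 := by gcongr
      _ = 2 * 1 * (n:ℝ) ^ 801 := by ring
      _ ≤ 4 * (Z * C) * (n:ℝ) ^ 3201 := by
        apply mul_le_mul _ (hnpow _ _ (by norm_num)) (by positivity) (by positivity)
        linarith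
  have hprod : ((n ^ 800 : ℕ) : ℝ) * ((2 * Z * C * ((n ^ 800 : ℕ) : ℝ) ^ 4) ^ (2 * k) *
        ((2 * k * (n ^ 800) : ℕ) : ℝ) ^ (4 ^ k)) ≤ Q ^ (4 * 4 ^ k) := by
    calc ((n ^ 800 : ℕ) : ℝ) * ((2 * Z * C * ((n ^ 800 : ℕ) : ℝ) ^ 4) ^ (2 * k) *
        ((2 * k * (n ^ 800) : ℕ) : ℝ) ^ (4 ^ k)) ≤ Q * (Q ^ (2 * k) * Q ^ (4 ^ k)) := by gcongr
      _ = Q ^ (1 + (2 * k + 4 ^ k)) := by rw [pow_add, pow_add, pow_one]
      _ ≤ Q ^ (4 * 4 ^ k) := by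
        apply pow_le_pow_right₀ hQ1
        have h5 : k < 4 ^ k := Nat.lt_pow_self (by norm_num)
        omega
  have hlogQ : Real.log Q = Real.log (4 * (Z * C)) + 3201 * Real.log n := by
    rw [hQ, Real.log_mul (by positivity) (by positivity), Real.log_pow]
    push_cast; ring
  have hlogQ0 : 0 ≤ Real.log Q := Real.log_nonneg hQ1
  have hln : 0 ≤ Real.log n := Real.log_nonneg hn0
  have hQe : Q ^ (4 * 4 ^ k) ≤ Real.exp (4 * √(n:ℝ) * Real.log Q) := by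
    have h6 : Q ^ (4 * 4 ^ k) = Real.exp ((4 * 4 ^ k : ℕ) * Real.log Q) := by
      rw [Real.exp_nat_mul, Real.exp_log (by linarith)]
    rw [h6]
    apply Real.exp_le_exp.mpr
    apply mul_le_mul_of_nonneg_right _ hlogQ0
    push_cast
    linarith
  have hfin : (n:ℝ) ^ 2 * Real.exp (4 * √(n:ℝ) * Real.log Q) ≤ P := by
    have h7 : (n:ℝ) ^ 2 = Real.exp (2 * Real.log n) := by
      rw [show (2:ℝ) * Real.log n = ((2:ℕ):ℝ) * Real.log n by norm_num, Real.exp_nat_mul, Real.exp_log hnp]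
    rw [h7, ← Real.exp_add]
    refine le_trans ?_ hP
    have h8 : β = Real.exp (Real.log β) := (Real.exp_log hβ).symm
    rw [h8, ← Real.exp_add]
    apply Real.exp_le_exp.mpr
    have hs1 : 1 ≤ √(n:ℝ) := Real.one_le_sqrt.mpr hn0
    rw [hlogQ]
    nlinarith
  have hn2 : (0:ℝ) < (n:ℝ) ^ 2 := by positivity
  rw [← mul_div_assoc, ← mul_div_assoc, div_le_iff₀ hPp, inv_mul_eq_div, le_div_iff₀ hn2]
  calc _ ≤ Q ^ (4 * 4 ^ k) * (n:ℝ) ^ 2 := mul_le_mul_of_nonneg_right hprod hn2.le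
    _ ≤ Real.exp (4 * √(n:ℝ) * Real.log Q) * (n:ℝ) ^ 2 := mul_le_mul_of_nonneg_right hQe hn2.le
    _ = (n:ℝ) ^ 2 * Real.exp (4 * √(n:ℝ) * Real.log Q) := mul_comm _ _
    _ ≤ P := hfin

/-- small constants -/
lemma ev_first {ε Z C : ℝ} (hε : 0 < ε) {e : ℝ} (he : e = min (ε / 4) (1/12)) :
    ∀ᶠ k : ℕ in atTop, 1 ≤ k ∧ C * Z * (k:ℝ) ^ (1/4 + 2 * e) ≤ (k:ℝ) ^ (1/4 + ε) / 2 ∧
      k * (4 * Z ^ 3 * C ^ 2 * (k:ℝ) ^ (-(1/2) + 3 * e) / ((k:ℝ) ^ (1/4 + ε)) ^ 2) ≤ (16:ℝ)⁻¹ ^ 802 := by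
  have he1 : e ≤ ε / 4 := he ▸ min_le_left _ _
  have he0 : 0 < e := by rw [he]; exact lt_min (by positivity) (by norm_num)
  have h1 : Tendsto (fun k : ℕ => (k:ℝ) ^ (ε - 2 * e)) atTop atTop :=
    (tendsto_rpow_atTop (by linarith)).comp tendsto_natCast_atTop_atTop
  have h2 : Tendsto (fun k : ℕ => 4 * Z ^ 3 * C ^ 2 * (k:ℝ) ^ (-(2 * ε - 3 * e))) atTop (𝓝 (4 * Z ^ 3 * C ^ 2 * 0)) :=
    ((tendsto_rpow_neg_atTop (by linarith)).comp tendsto_natCast_atTop_atTop).const_mul _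
  rw [mul_zero] at h2
  filter_upwards [h1.eventually_ge_atTop (2 * (C * Z)), h2.eventually (gt_mem_nhds (by positivity : (0:ℝ) < (16:ℝ)⁻¹ ^ 802)),
    eventually_ge_atTop 1] with k hk1 hk2 hk3
  have hk0 : (0:ℝ) < k := by exact_mod_cast hk3
  refine ⟨hk3, ?_, ?_⟩
  · have h3 : (k:ℝ) ^ (1/4 + ε) = (k:ℝ) ^ (1/4 + 2 * e) * (k:ℝ) ^ (ε - 2 * e) := by
      rw [← Real.rpow_add hk0]; congr 1; ring
    rw [h3]
    have h4 : 0 < (k:ℝ) ^ (1/4 + 2 * e) := by positivity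
    nlinarith
  · refine le_trans (le_of_eq ?_) hk2.le
    have h3 : (k:ℝ) ^ (-(2 * ε - 3 * e)) = k * (k:ℝ) ^ (-(1/2) + 3 * e) / ((k:ℝ) ^ (1/4 + ε)) ^ 2 := by
      rw [eq_div_iff (by positivity)]
      have h5 : ((k:ℝ) ^ (1/4 + ε)) ^ 2 = (k:ℝ) ^ (1/2 + 2 * ε) := by
        rw [← Real.rpow_natCast, ← Real.rpow_mul hk0.le]; congr 1; push_cast; ring
      rw [h5, ← Real.rpow_add hk0]
      have h6 : (k:ℝ) * (k:ℝ) ^ (-(1/2) + 3 * e) = (k:ℝ) ^ (1 + (-(1/2) + 3 * e)) := by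
        rw [Real.rpow_add hk0 1 (-(1/2) + 3 * e), Real.rpow_one]
      rw [h6]
      congr 1; ring
    rw [h3]
    ring

/-- the upper bound for the model polynomials -/
theorem upper_y {a b : ℕ → ℝ} {δ c d : ℝ} (h : Sq a b δ) (hc : 0 < c) (hc1 : c ≤ 1) (hcd : c ≤ d) {af : ℕ → ℝ} (hS : Sm af) (φ : ℝ)
    {ε : ℝ} (hε : 0 < ε) : ∀ᵐ y ∂(volume.restrict (Set.Ioc c d)), ∀ᶠ n : ℕ in atTop,
      |U af φ (pt a b n y) (n ^ 800)| ≤ (Nat.log 16 n : ℝ) ^ (1/4 + ε) := by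
  set e : ℝ := min (ε / 4) (1/12) with he
  have he0 : 0 < e := lt_min (by positivity) (by norm_num)
  have he2 : 3 * e ≤ 1/2 := by
    have : e ≤ 1/12 := min_le_right _ _
    linarith
  obtain ⟨C, hC, hCa⟩ := hS e he0
  obtain ⟨Z, hZ1, hZ⟩ := zeta_fin he0
  have hκ : 0 < δ * c := mul_pos h.dpos hc
  have hb0 := h.pos 0
  have hdc : 0 ≤ d - c := by linarith
  have hmain : ∀ᶠ n : ℕ in atTop, (volume.restrict (Set.Ioc c d)).real
      {y | (Nat.log 16 n : ℝ) ^ (1/4 + ε) < |U af φ (pt a b n y) (n ^ 800)|} ≤ (16 ^ 802 * (d - c) + 1) * ((n:ℝ) ^ 2)⁻¹ := by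
    filter_upwards [log16_tendsto.eventually (ev_first (Z := Z) (C := C) hε he), ev_second hZ1 hC hb0 hκ,
      eventually_ge_atTop 1] with n hn1 hn2 hn3
    set k := Nat.log 16 n with hk
    obtain ⟨hk1, hT, hX⟩ := hn1
    have hk0 : (1:ℝ) ≤ k := by exact_mod_cast hk1
    have hn0 : (0:ℝ) < n := by exact_mod_cast hn3
    have hV : 1 ≤ (k:ℝ) ^ (1/4 + ε) := Real.one_le_rpow hk0 (by positivity)
    have hm : MeasurableSet {y | (k : ℝ) ^ (1/4 + ε) < |U af φ (pt a b n y) (n ^ 800)|} :=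
      measurableSet_lt measurable_const (((U_cont' af φ (n ^ 800)).comp (pt_cont a b n)).abs.measurable)
    rw [measureReal_restrict_apply hm]
    have hM1 : 1 ≤ n ^ 800 := Nat.one_le_iff_ne_zero.mpr (by positivity)
    refine (bad_bd h hcd hC hZ1 hZ he0 he2 hCa hk1 hM1 hk1 hV hT).trans ?_
    have hP := pt_low h hc hc1 n
    have h2 := hn2 _ hP
    set X := k * (4 * Z ^ 3 * C ^ 2 * (k:ℝ) ^ (-(1/2) + 3 * e) / ((k:ℝ) ^ (1/4 + ε)) ^ 2) with hXdef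
    have hX0 : 0 ≤ X := by rw [hXdef]; positivity
    rw [mul_add]
    have h3 : ((n ^ 800 : ℕ) : ℝ) * (X ^ k * (d - c)) ≤ 16 ^ 802 * (d - c) * ((n:ℝ) ^ 2)⁻¹ := by
      have h4 : X ^ k ≤ ((16:ℝ) ^ k)⁻¹ ^ 802 := by
        calc X ^ k ≤ ((16:ℝ)⁻¹ ^ 802) ^ k := pow_le_pow_left₀ hX0 hX k
          _ = _ := by rw [← pow_mul, mul_comm, pow_mul, inv_pow]
      have h5 : (n:ℝ) ≤ 16 * 16 ^ k := by
        have : n < 16 ^ (k + 1) := Nat.lt_pow_succ_log_self (by norm_num) n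
        rw [pow_succ] at this
        have h6 : (n:ℝ) < ((16 ^ k * 16 : ℕ) : ℝ) := by exact_mod_cast this
        push_cast at h6
        linarith
      have h7 : (n:ℝ) * ((16:ℝ) ^ k)⁻¹ ≤ 16 := by
        rw [← div_eq_mul_inv, div_le_iff₀ (by positivity)]
        exact h5
      have h8 : (n:ℝ) ^ 802 * ((16:ℝ) ^ k)⁻¹ ^ 802 ≤ 16 ^ 802 := by
        rw [← mul_pow]
        exact pow_le_pow_left₀ (by positivity) h7 802
      have h9 : (n:ℝ) ^ 802 = (n:ℝ) ^ 800 * (n:ℝ) ^ 2 := by rw [← pow_add]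
      have h10 : (n:ℝ) ^ 800 * ((16:ℝ) ^ k)⁻¹ ^ 802 ≤ 16 ^ 802 * ((n:ℝ) ^ 2)⁻¹ := by
        rw [← div_eq_mul_inv, le_div_iff₀ (by positivity)]
        calc (n:ℝ) ^ 800 * ((16:ℝ) ^ k)⁻¹ ^ 802 * (n:ℝ) ^ 2 = (n:ℝ) ^ 802 * ((16:ℝ) ^ k)⁻¹ ^ 802 := by rw [h9]; ring
          _ ≤ _ := h8
      push_cast
      calc (n:ℝ) ^ 800 * (X ^ k * (d - c)) ≤ (n:ℝ) ^ 800 * (((16:ℝ) ^ k)⁻¹ ^ 802 * (d - c)) := by gcongr
        _ = ((n:ℝ) ^ 800 * ((16:ℝ) ^ k)⁻¹ ^ 802) * (d - c) := by ring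
        _ ≤ (16 ^ 802 * ((n:ℝ) ^ 2)⁻¹) * (d - c) := mul_le_mul_of_nonneg_right h10 hdc
        _ = _ := by ring
    rw [add_mul, one_mul]
    exact add_le_add h3 h2
  have hsum : Summable fun n : ℕ => (16 ^ 802 * (d - c) + 1) * ((n:ℝ) ^ 2)⁻¹ :=
    (Real.summable_nat_pow_inv.mpr (by norm_num)).mul_left _
  filter_upwards [bc hsum hmain] with y hy
  filter_upwards [hy] with n hn
  by_contra hcon
  push Not at hcon
  exact hn hcon

end Pool.Agent.Helper932CL
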