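import Mathlib
import Pool.Agent.Helper932CL.Lo1
import Pool.Agent.Helper932CL.Up3
import Pool.Agent.Helper932CL.Asy

/-!
The lower bound for the model polynomials, almost everywhere.
-/

set_option autoImplicit false

open MeasureTheory Finset Filter Topology

namespace Pool.Agent.Helper932CL

open Pool.Agent.R306.GP (pt pt_cont)
open Pool.Agent.H383.Gen (U)

/-- many large coefficients at indices with distinct squarefree parts -/
def Lg (a : ℕ → ℝ) : Prop := ∀ e : ℝ, 0 < e → ∀ᶠ Y : ℕ in atTop, ∃ D : Finset ℕ,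
  (∀ m ∈ D, 1 ≤ m ∧ m ≤ Y) ∧ Set.InjOn sf D ∧ (Y:ℝ) ^ (1/4 - e) ≤ ∑ m ∈ D, a m

lemma sq_bd {af : ℕ → ℝ} (hS : Sm af) : ∃ C2 : ℝ, 1 ≤ C2 ∧ ∀ M : ℕ, ∑ m ∈ Finset.Icc 1 (M^2), (af m) ^ 2 + 1 ≤ C2 := by
  obtain ⟨C, hC, hCa⟩ := hS (1/8) (by norm_num)
  obtain ⟨Z, hZ1, hZ⟩ := zeta_fin (e := 1/4) (by norm_num)
  refine ⟨C ^ 2 * Z + 1, by nlinarith [sq_nonneg C, mul_nonneg (sq_nonneg C) (by linarith : (0:ℝ) ≤ Z)], fun M => ?_⟩
  have h1 : ∀ m ∈ Finset.Icc 1 (M^2), (af m) ^ 2 ≤ C ^ 2 * (m:ℝ) ^ (-1 - (1/4:ℝ)) := by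
    intro m hm
    rw [Finset.mem_Icc] at hm
    have hm0 : (0:ℝ) < m := by exact_mod_cast hm.1
    have h2 := hCa m hm.1
    calc (af m) ^ 2 = |af m| ^ 2 := (sq_abs _).symm
      _ ≤ (C * (m:ℝ) ^ (-(3/4) + 1/8 : ℝ)) ^ 2 := pow_le_pow_left₀ (abs_nonneg _) h2 2
      _ = C ^ 2 * ((m:ℝ) ^ (-(3/4) + 1/8 : ℝ) * (m:ℝ) ^ (-(3/4) + 1/8 : ℝ)) := by ring
      _ = _ := by
        rw [← Real.rpow_add hm0]
        congr 2; norm_num
  have h3 := Finset.sum_le_sum h1
  rw [← Finset.mul_sum] at h3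
  have h4 := mul_le_mul_of_nonneg_left (hZ (Finset.Icc 1 (M^2))) (sq_nonneg C)
  linarith

lemma A1_le {af : ℕ → ℝ} (hS : Sm af) : ∃ C : ℝ, 1 ≤ C ∧ ∀ M : ℕ, A1 af M ≤ C * (M:ℝ) ^ 2 := by
  obtain ⟨C, hC, hCa⟩ := hS (1/8) (by norm_num)
  refine ⟨C, hC, fun M => ?_⟩
  unfold A1
  calc ∑ m ∈ Finset.Icc 1 (M^2), |af m| ≤ ∑ _m ∈ Finset.Icc 1 (M^2), C := by
        apply Finset.sum_le_sum
        intro m hm
        rw [Finset.mem_Icc] at hm
        refine (hCa m hm.1).trans ?_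
        have hm1 : (1:ℝ) ≤ m := by exact_mod_cast hm.1
        have : (m:ℝ) ^ (-(3/4) + 1/8 : ℝ) ≤ 1 := Real.rpow_le_one_of_one_le_of_nonpos hm1 (by norm_num)
        nlinarith
    _ = _ := by
        rw [Finset.sum_const, nsmul_eq_mul]
        have : (Finset.Icc 1 (M^2)).card = M ^ 2 := by simp
        rw [this]
        push_cast; ring

/-- the lower bound for the model polynomials -/
theorem lower_y {a b : ℕ → ℝ} {δ c d : ℝ} (h : Sq a b δ) (hc : 0 < c) (hc1 : c ≤ 1) (hcd : c < d) {af : ℕ → ℝ} (hS : Sm af)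
    (hLg : Lg af) {φ s : ℝ} (hs : s = 1 ∨ s = -1) {ε η : ℝ} (hε : 0 < ε) (hε1 : ε ≤ 1/8) (hη : 0 < η) (hη1 : η ≤ 1) :
    ∀ᵐ y ∂(volume.restrict (Set.Ioc c d)), ∀ᶠ N : ℕ in atTop, ∃ n : ℕ, N < n ∧ (n:ℝ) ≤ N + (N:ℝ) ^ η ∧
      (Real.log N) ^ (1/4 - ε) + 1 < s * U af φ (pt a b n y) (n ^ 800) := by
  obtain ⟨C2, hC21, hC2⟩ := sq_bd hS
  obtain ⟨C, hC, hA⟩ := A1_le hS
  have hκ : 0 < δ * c := mul_pos h.dpos hc
  have hb0 := h.pos 0
  have hdc : 0 < d - c := by linarith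
  have hpi := Real.pi_gt_three
  have hpi4 := Real.pi_lt_d2
  set Tf : ℕ → ℝ := fun N => (N:ℝ) ^ (η / 8) with hTf
  set gf : ℕ → ℕ := fun N => ⌈(Tf N) ^ 4⌉₊ with hgf
  set mf : ℕ → ℕ := fun N => ⌊(Tf N) ^ 2⌋₊ with hmf
  set Vf : ℕ → ℝ := fun N => (Real.log N) ^ (1/4 - ε) + 1 with hVf
  set Bad : ℕ → Set ℝ := fun N => {y | ∀ i, i < mf N →
    s * U af φ (pt a b (N + 1 + i * gf N) y) ((min (N + 1 + i * gf N) (2 * N)) ^ 800) ≤ Vf N} with hBad
  have hYt : Tendsto (fun N : ℕ => ⌊(Real.log N) ^ (1 - 2 * ε)⌋₊) atTop atTop :=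
    tendsto_nat_floor_atTop.comp ((tendsto_rpow_atTop (by linarith)).comp
      (Real.tendsto_log_atTop.comp tendsto_natCast_atTop_atTop))
  have hasy := asy_all (ε := ε) (η := η) (κ := δ * c) (K := 6 * C2) (K1 := Real.log (7 * C ^ 2))
    (K2 := |Real.log (b 0)| + |Real.log (d - c)|) hε hε1 hη hη1 hκ (by linarith)
  have hDD := hYt.eventually (hLg (ε/4) (by positivity))
  have hall := hasy.and hDD
  -- the measure of the bad sets
  have hmain : ∀ᶠ N : ℕ in atTop, (volume.restrict (Set.Ioc c d)).real (Bad N) ≤ (d - c) * ((N:ℝ) ^ 2)⁻¹ := by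
    filter_upwards [hall] with N hN
    obtain ⟨⟨hN1, hL1, hT10, hf2, hf3, hf4, hf5, hf6, hf7, hf8⟩, D, hD, hinj, hDsum⟩ := hN
    set T := (N:ℝ) ^ (η / 8) with hTd
    set L := Real.log N with hLd
    set Y := ⌊L ^ (1 - 2 * ε)⌋₊ with hYd
    have hNr : (1:ℝ) ≤ N := by exact_mod_cast hN1
    have hN0 : (0:ℝ) < N := by linarith
    have hT0 : 0 < T := by linarith
    -- card of D
    have hcardY : D.card ≤ Y := by
      calc D.card ≤ (Finset.Icc 1 Y).card := Finset.card_le_card (fun m hm => Finset.mem_Icc.mpr (hD m hm))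
        _ = Y := by simp
    have hYN : Y ≤ N := by
      have h1 : 2 * (Y:ℝ) ^ 2 ≤ N := hf7
      have h2 : (Y:ℝ) ≤ 2 * (Y:ℝ) ^ 2 := by
        rcases Nat.eq_zero_or_pos Y with h3 | h3
        · rw [h3]; simp
        · have : (1:ℝ) ≤ Y := by exact_mod_cast h3
          nlinarith
      exact_mod_cast h2.trans h1
    obtain ⟨Mx, hMxd⟩ : ∃ Mx : ℕ, Mx = (2 * N) ^ 800 := ⟨_, rfl⟩
    obtain ⟨M', hM'⟩ : ∃ M' : ℕ → ℕ, M' = fun i => (min (N + 1 + i * gf N) (2 * N)) ^ 800 := ⟨_, rfl⟩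
    have hM'i : ∀ i, M' i = (min (N + 1 + i * gf N) (2 * N)) ^ 800 := fun i => by rw [hM']
    have hM'Mx : ∀ i, M' i ≤ Mx := by
      intro i
      rw [hM'i, hMxd]
      exact Nat.pow_le_pow_left (min_le_right _ _) 800
    have hmin : ∀ i, N ≤ min (N + 1 + i * gf N) (2 * N) := fun i => le_min (by omega) (by omega)
    have hle800 : ∀ x : ℕ, 1 ≤ x → x ≤ x ^ 800 := fun x hx => Nat.le_self_pow (by norm_num) x
    have hM'N : ∀ i, N ≤ M' i := by
      intro i
      rw [hM'i]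
      exact (hle800 N hN1).trans (Nat.pow_le_pow_left (hmin i) 800)
    have hMxN : 2 * N ≤ Mx := by
      rw [hMxd]
      exact hle800 _ (by omega)
    have hMx1 : (1:ℝ) ≤ Mx := by exact_mod_cast (by omega : 1 ≤ Mx)
    have hMx0 : (0:ℝ) < Mx := by linarith
    have hA1 := hA Mx
    have hA10 := A1_nonneg af Mx
    -- powers of Mx
    have hexp : 7 * C ^ 2 * (Mx:ℝ) ^ 10 ≤ Real.exp T := by
      have h7C : 0 < 7 * C ^ 2 := by positivity
      have e1 : 7 * C ^ 2 * (Mx:ℝ) ^ 10 = Real.exp (Real.log (7 * C ^ 2) + 8000 * Real.log (2 * N)) := by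
        rw [Real.exp_add, Real.exp_log h7C]
        congr 1
        rw [hMxd]
        push_cast
        rw [← pow_mul, show (8000:ℝ) * Real.log (2 * (N:ℝ)) = ((800 * 10 : ℕ) : ℝ) * Real.log (2 * N) by norm_num,
          Real.exp_nat_mul, Real.exp_log (by positivity)]
      rw [e1]
      exact Real.exp_le_exp.mpr hf3
    have hpw : ∀ p : ℕ, p ≤ 10 → (Mx:ℝ) ^ p ≤ (Mx:ℝ) ^ 10 := fun p hp => pow_le_pow_right₀ hMx1 hp
    have hCsq : C ≤ C ^ 2 := by nlinarith
    have hMx10 : (1:ℝ) ≤ (Mx:ℝ) ^ 10 := one_le_pow₀ hMx1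
    have hET : 1 ≤ Real.exp T := Real.one_le_exp hT0.le
    set ET := Real.exp T with hETd
    -- numeric consequences
    have c1 : 7 * (A1 af Mx * Mx) ≤ ET := by
      calc 7 * (A1 af Mx * Mx) ≤ 7 * (C * (Mx:ℝ) ^ 2 * Mx) := by gcongr
        _ = 7 * C * (Mx:ℝ) ^ 3 := by ring
        _ ≤ 7 * C ^ 2 * (Mx:ℝ) ^ 10 := by
            apply mul_le_mul _ (hpw 3 (by norm_num)) (by positivity) (by positivity)
            linarith
        _ ≤ _ := hexp
    have c2 : 2 * Mx * (A1 af Mx + 1) ≤ ET := by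
      calc 2 * Mx * (A1 af Mx + 1) ≤ 2 * Mx * (C * (Mx:ℝ) ^ 2 + C * (Mx:ℝ) ^ 2) := by
            have : 1 ≤ C * (Mx:ℝ) ^ 2 := by
              have h1 : (1:ℝ) ≤ (Mx:ℝ) ^ 2 := one_le_pow₀ hMx1
              nlinarith
            gcongr
        _ = 4 * C * (Mx:ℝ) ^ 3 := by ring
        _ ≤ 7 * C ^ 2 * (Mx:ℝ) ^ 10 := by
            apply mul_le_mul _ (hpw 3 (by norm_num)) (by positivity) (by positivity)
            linarith
        _ ≤ _ := hexp
    have c3 : (((D.card + 1) * Mx : ℕ) : ℝ) ≤ ET := by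
      have h1 : D.card + 1 ≤ Mx := by omega
      calc (((D.card + 1) * Mx : ℕ) : ℝ) ≤ ((Mx * Mx : ℕ) : ℝ) := by exact_mod_cast Nat.mul_le_mul_right _ h1
        _ = 1 * (Mx:ℝ) ^ 2 := by push_cast; ring
        _ ≤ 7 * C ^ 2 * (Mx:ℝ) ^ 10 := by
            apply mul_le_mul _ (hpw 2 (by norm_num)) (by positivity) (by positivity)
            nlinarith
        _ ≤ _ := hexp
    have c4 : Mx * (A1 af Mx) ^ 2 ≤ ET := by
      calc Mx * (A1 af Mx) ^ 2 ≤ Mx * (C * (Mx:ℝ) ^ 2) ^ 2 := by gcongr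
        _ = C ^ 2 * (Mx:ℝ) ^ 5 := by ring
        _ ≤ 7 * C ^ 2 * (Mx:ℝ) ^ 10 := by
            apply mul_le_mul _ (hpw 5 (by norm_num)) (by positivity) (by positivity)
            nlinarith
        _ ≤ _ := hexp
    have hT2 : T ≤ T ^ 2 := by nlinarith
    have h4Y : (4:ℝ) ^ D.card ≤ 4 ^ Y := pow_le_pow_right₀ (by norm_num) hcardY
    have h4D : (1:ℝ) ≤ 4 ^ D.card := one_le_pow₀ (by norm_num)
    have c5 : 6 * (4 ^ D.card * C2) ≤ T := by
      calc 6 * (4 ^ D.card * C2) ≤ 6 * (4 ^ Y * C2) := by gcongr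
        _ = 6 * C2 * 4 ^ Y := by ring
        _ ≤ T := hf2
    have h24 : (2:ℝ) ^ D.card ≤ 4 ^ D.card := pow_le_pow_left₀ (by norm_num) (by norm_num) _
    have c6 : 6 * (2:ℝ) ^ D.card ≤ T := by nlinarith
    have c7 : ((((D.card + 1) * Mx : ℕ) : ℝ) ^ (2 ^ (D.card + 1))) ≤ Real.exp (T ^ 2 / 3) := by
      calc ((((D.card + 1) * Mx : ℕ) : ℝ) ^ (2 ^ (D.card + 1))) ≤ ET ^ (2 ^ (D.card + 1)) :=
            pow_le_pow_left₀ (Nat.cast_nonneg _) c3 _
        _ = Real.exp ((2 ^ (D.card + 1) : ℕ) * T) := by rw [hETd, ← Real.exp_nat_mul]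
        _ ≤ _ := by
            apply Real.exp_le_exp.mpr
            push_cast
            rw [pow_succ]
            nlinarith
    have c8 : 2 ^ D.card * (2 * Mx * ((((D.card + 1) * Mx : ℕ) : ℝ) ^ (2 ^ (D.card + 1)))) * (A1 af Mx + 1) ≤ Real.exp (T ^ 2) := by
      have h2D : (2:ℝ) ^ D.card ≤ ET := by
        have h1 := Real.add_one_le_exp T
        have h2 : (0:ℝ) < 2 ^ D.card := by positivity
        linarith
      calc 2 ^ D.card * (2 * Mx * ((((D.card + 1) * Mx : ℕ) : ℝ) ^ (2 ^ (D.card + 1)))) * (A1 af Mx + 1)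
          = 2 ^ D.card * ((((D.card + 1) * Mx : ℕ) : ℝ) ^ (2 ^ (D.card + 1))) * (2 * Mx * (A1 af Mx + 1)) := by ring
        _ ≤ ET * Real.exp (T ^ 2 / 3) * ET := by gcongr
        _ = Real.exp (T + T ^ 2 / 3 + T) := by rw [hETd, ← Real.exp_add, ← Real.exp_add]
        _ ≤ _ := by
            apply Real.exp_le_exp.mpr
            nlinarith
    have hETT : ET ≤ Real.exp (T ^ 2) := Real.exp_le_exp.mpr hT2
    have hm : MeasurableSet (Bad N) := by
      have : Bad N = ⋂ i : ℕ, ⋂ _ : i < mf N, {y | s * U af φ (pt a b (N + 1 + i * gf N) y) ((min (N + 1 + i * gf N) (2 * N)) ^ 800) ≤ Vf N} := by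
        ext y; simp [hBad]
      rw [this]
      exact MeasurableSet.iInter fun i => MeasurableSet.iInter fun _ =>
        measurableSet_le (continuous_const.mul ((U_cont' af φ _).comp (pt_cont _ _ _))).measurable measurable_const
    rw [measureReal_restrict_apply hm]
    have hg4 : T ^ 4 ≤ (gf N : ℝ) := Nat.le_ceil _
    have hpt : b 0 * Real.exp (δ * c * N) ≤ pt a b (N + 1) c := (pt_low h hc hc1 N).trans (pt_mono h hc.le (Nat.le_succ N))
    have hlogb := neg_abs_le (Real.log (b 0))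
    have hlogd := neg_abs_le (Real.log (d - c))
    have hlow : Real.exp (T ^ 2) ≤ pt a b (N + 1) c := by
      refine le_trans ?_ hpt
      have h1 : b 0 = Real.exp (Real.log (b 0)) := (Real.exp_log hb0).symm
      rw [h1, ← Real.exp_add]
      apply Real.exp_le_exp.mpr
      have := abs_nonneg (Real.log (d - c))
      linarith
    have hlen : Real.exp (T ^ 2) ≤ pt a b (N + 1) d - pt a b (N + 1) c := by
      have h1 : pt a b (N + 1) c * (d - c) ≤ pt a b (N + 1) d - pt a b (N + 1) c := by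
        have e1 : pt a b (N + 1) d = pt a b (N + 1) c * Real.exp (a (N + 1) * (d - c)) := by
          unfold pt
          rw [mul_assoc, ← Real.exp_add]; congr 2; ring
        have h2 := Real.add_one_le_exp (a (N + 1) * (d - c))
        have h3 : d - c ≤ a (N + 1) * (d - c) := by nlinarith [h.one (N + 1)]
        have h4 := pt_pos h (N + 1) c
        rw [e1]
        nlinarith
      refine le_trans ?_ h1
      refine le_trans ?_ (mul_le_mul_of_nonneg_right hpt hdc.le)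
      have h5 : b 0 * Real.exp (δ * c * N) * (d - c) = Real.exp (Real.log (b 0) + δ * c * N + Real.log (d - c)) := by
        rw [Real.exp_add, Real.exp_add, Real.exp_log hb0, Real.exp_log hdc]
      rw [h5]
      apply Real.exp_le_exp.mpr
      linarith
    have htr := trial h hc hc1 hcd (af := af) (φ := φ) hs (D := D) (n0 := N + 1) (g := gf N) (Mx := Mx) (M' := M')
      (fun j => by have := hM'N j; omega)
      hM'Mx
      (fun m hm => (hD m hm).1)
      (fun j m hm => by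
        have h1 := hM'N j
        have h2 := (hD m hm).2
        calc m ≤ M' j := by omega
          _ ≤ (M' j) ^ 2 := Nat.le_self_pow (by norm_num) _)
      hinj
      (fun j => by
        have h1 : ∑ m ∈ D, √(m:ℝ) ≤ ∑ _m ∈ D, (Y:ℝ) := by
          apply Finset.sum_le_sum
          intro m hm
          have h2 : (m:ℝ) ≤ Y := by exact_mod_cast (hD m hm).2
          have h3 : (1:ℝ) ≤ m := by exact_mod_cast (hD m hm).1
          calc √(m:ℝ) ≤ m := by
                rw [Real.sqrt_le_left (by linarith)]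
                nlinarith
            _ ≤ Y := h2
        have h4 : ∑ _m ∈ D, (Y:ℝ) = D.card * Y := by rw [Finset.sum_const, nsmul_eq_mul]
        have h5 : (D.card:ℝ) ≤ Y := by exact_mod_cast hcardY
        have h6 : (N:ℝ) ≤ M' j := by exact_mod_cast hM'N j
        have h7 : (0:ℝ) ≤ Y := Nat.cast_nonneg _
        have h8 : (D.card:ℝ) * Y ≤ Y * Y := mul_le_mul_of_nonneg_right h5 h7
        rw [h4] at h1
        nlinarith)
      (V := Vf N) (H := Real.exp (T ^ 2)) (ρ := Real.exp (-T)) (C2 := C2)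
      (by simp only [hVf]; positivity) (Real.exp_pos _) (Real.exp_pos _)
      (Real.exp_le_exp.mpr (by nlinarith))
      (by
        have h1 : 2 * Real.pi * (A1 af Mx * Mx) ≤ 7 * (A1 af Mx * Mx) := by
          apply mul_le_mul_of_nonneg_right _ (by positivity)
          linarith
        calc 2 * Real.pi * (A1 af Mx * Mx) * Real.exp (-T) ≤ ET * Real.exp (-T) := by
              apply mul_le_mul_of_nonneg_right _ (Real.exp_pos _).le
              linarith
          _ = 1 := by rw [hETd, ← Real.exp_add]; simp)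
      (hC2 Mx)
      (by
        refine le_trans ?_ hDsum
        simp only [hVf]
        linarith)
      c8 (c4.trans hETT)
      (by
        rw [mul_div_assoc, ← Real.exp_sub]
        have h1 : (2:ℝ) ≤ Real.exp 1 := by
          have := Real.add_one_le_exp (1:ℝ)
          linarith
        calc 2 * Real.exp (T ^ 2 - -T) ≤ Real.exp 1 * Real.exp (T ^ 2 - -T) := by
              apply mul_le_mul_of_nonneg_right h1 (Real.exp_pos _).le
          _ = Real.exp (1 + (T ^ 2 - -T)) := by rw [← Real.exp_add]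
          _ ≤ _ := by
              apply Real.exp_le_exp.mpr
              have h2 : δ * c * T ^ 4 ≤ δ * c * (gf N : ℝ) := mul_le_mul_of_nonneg_left hg4 hκ.le
              linarith)
      hlow hlen (mf N)
    have hset : Bad N = {y | ∀ i, i < mf N → s * U af φ (pt a b (N + 1 + i * gf N) y) (M' i) ≤ Vf N} := by
      rw [hM']
    rw [hset]
    refine htr.trans ?_
    -- numeric
    set q := 6 * (4 ^ D.card * C2) with hq
    have hq0 : 0 < q := by positivity
    have hq6 : 6 ≤ q := by rw [hq]; nlinarith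
    have h1q : 1 / q ≤ 1 := by rw [div_le_one hq0]; linarith
    have h1 : (1 - 1 / q) ^ (mf N) ≤ Real.exp (-(1 / q) * mf N) := by
      have h2 := Real.add_one_le_exp (-(1 / q))
      calc (1 - 1 / q) ^ (mf N) ≤ (Real.exp (-(1 / q))) ^ (mf N) := pow_le_pow_left₀ (by linarith) (by linarith) _
        _ = _ := by rw [← Real.exp_nat_mul]; congr 1; ring
    have h2 : T ^ 2 < mf N + 1 := Nat.lt_floor_add_one _
    have h3 : 2 * L ≤ (1 / q) * mf N := by
      have h4 : 1 / T ≤ 1 / q := one_div_le_one_div_of_le hq0 c5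
      calc 2 * L ≤ T - 1 := by linarith
        _ ≤ (1 / T) * (T ^ 2 - 1) := by
            have : 1 / T ≤ 1 := by rw [div_le_one hT0]; linarith
            have e : (1 / T) * (T ^ 2 - 1) = T - 1 / T := by field_simp
            rw [e]; linarith
        _ ≤ (1 / T) * mf N := by
            apply mul_le_mul_of_nonneg_left _ (by positivity)
            linarith
        _ ≤ (1 / q) * mf N := mul_le_mul_of_nonneg_right h4 (Nat.cast_nonneg _)
    have h4 : Real.exp (-(1 / q) * mf N) ≤ ((N:ℝ) ^ 2)⁻¹ := by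
      have e1 : ((N:ℝ) ^ 2)⁻¹ = Real.exp (-(2 * L)) := by
        rw [Real.exp_neg]
        congr 1
        rw [show (2:ℝ) * L = ((2:ℕ):ℝ) * L by norm_num, Real.exp_nat_mul, hLd, Real.exp_log hN0]
      rw [e1]
      apply Real.exp_le_exp.mpr
      linarith
    calc (1 - 1 / q) ^ (mf N) * (d - c) ≤ ((N:ℝ) ^ 2)⁻¹ * (d - c) :=
          mul_le_mul_of_nonneg_right (h1.trans h4) hdc.le
      _ = _ := mul_comm _ _
  have hsum : Summable fun N : ℕ => (d - c) * ((N:ℝ) ^ 2)⁻¹ :=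
    (Real.summable_nat_pow_inv.mpr (by norm_num)).mul_left _
  filter_upwards [bc hsum hmain] with y hy
  filter_upwards [hy, hasy] with N hNy hN
  obtain ⟨hN1, hL1, hT10, hf2, hf3, hf4, hf5, hf6, hf7, hf8⟩ := hN
  have hNr : (1:ℝ) ≤ N := by exact_mod_cast hN1
  have hN0 : (0:ℝ) < N := by linarith
  have hny : ¬ ∀ i, i < mf N → s * U af φ (pt a b (N + 1 + i * gf N) y) ((min (N + 1 + i * gf N) (2 * N)) ^ 800) ≤ Vf N := hNy
  push Not at hny
  obtain ⟨i, him, hi⟩ := hny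
  set T := (N:ℝ) ^ (η / 8) with hTd
  have hT0 : 0 < T := by linarith
  have hT8 : T ^ 8 = (N:ℝ) ^ η := by
    rw [hTd, ← Real.rpow_natCast, ← Real.rpow_mul hN0.le]; congr 1; push_cast; ring
  have hmT : (mf N : ℝ) ≤ T ^ 2 := Nat.floor_le (by positivity)
  have hgT : (gf N : ℝ) < T ^ 4 + 1 := Nat.ceil_lt_add_one (by positivity)
  have hi' : (i:ℝ) ≤ T ^ 2 := by
    have : (i:ℝ) ≤ mf N := by exact_mod_cast him.le
    linarith
  have hbound : (1:ℝ) + i * gf N ≤ T ^ 8 := by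
    have h1 : (i:ℝ) * gf N ≤ T ^ 2 * (T ^ 4 + 1) := by
      apply mul_le_mul hi' hgT.le (Nat.cast_nonneg _) (by positivity)
    have h2 : 10 ≤ T := hT10
    have h3 : (1:ℝ) ≤ T ^ 2 := one_le_pow₀ (by linarith)
    have h4 : T ^ 2 ≤ T ^ 6 := pow_le_pow_right₀ (by linarith) (by norm_num)
    have h5 : T ^ 8 = T ^ 2 * T ^ 6 := by ring
    have h6 : 100 ≤ T ^ 2 := by nlinarith
    have h7 : T ^ 2 * (T ^ 4 + 1) = T ^ 6 + T ^ 2 := by ring
    nlinarith
  have hNη : (N:ℝ) ^ η ≤ N := by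
    calc (N:ℝ) ^ η ≤ (N:ℝ) ^ (1:ℝ) := Real.rpow_le_rpow_of_exponent_le hNr hη1
      _ = N := Real.rpow_one _
  have hn2N : N + 1 + i * gf N ≤ 2 * N := by
    have : (((N + 1 + i * gf N : ℕ)) : ℝ) ≤ ((2 * N : ℕ) : ℝ) := by
      push_cast
      linarith
    exact_mod_cast this
  rw [min_eq_left hn2N] at hi
  refine ⟨N + 1 + i * gf N, by omega, ?_, hi⟩
  push_cast
  linarith

end Pool.Agent.Helper932CL
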