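import Mathlib
import Pool.Agent.H383.GaussW
import Pool.Agent.Helper112.Arith
import Pool.Agent.Helper932CL.Lo2

/-!
The coefficients of the circle problem.
-/

set_option autoImplicit false

open MeasureTheory Finset Filter Topology

namespace Pool.Agent.Helper932CL

open Pool.Agent.H383.Circ (ag ag_nonneg)
open Pool.Agent.H383.Gauss (rA A card_A_le A_finite mem_A norm_eq)

lemma sqrt_pow (m : ℕ) : (√(m:ℝ)) ^ (-(3/2):ℝ) = (m:ℝ) ^ (-(3/4):ℝ) := by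
  rw [Real.sqrt_eq_rpow, ← Real.rpow_mul (Nat.cast_nonneg _)]
  norm_num

lemma rA_bd (e : ℝ) (he : 0 < e) : ∃ C : ℝ, 1 ≤ C ∧ ∀ m : ℕ, 1 ≤ m → rA m ≤ C * (m:ℝ) ^ e := by
  obtain ⟨C, hC, h⟩ := Pool.Agent.Helper112.divisor_bound e he
  refine ⟨max 1 (4 * C), le_max_left _ _, fun m hm => ?_⟩
  have h1 : rA m ≤ 4 * (m.divisors.card : ℝ) := by
    unfold rA
    exact_mod_cast card_A_le m hm
  have h2 := h m hm
  calc rA m ≤ 4 * (C * (m:ℝ) ^ e) := by linarith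
    _ = (4 * C) * (m:ℝ) ^ e := by ring
    _ ≤ _ := mul_le_mul_of_nonneg_right (le_max_right _ _) (by positivity)

lemma ag_Sm : Sm ag := by
  intro e he
  obtain ⟨C, hC, h⟩ := rA_bd e he
  refine ⟨C, hC, fun m hm => ?_⟩
  have hm0 : (0:ℝ) < m := by exact_mod_cast hm
  rw [abs_of_nonneg (ag_nonneg m)]
  unfold ag
  rw [sqrt_pow, Real.rpow_add hm0]
  have hpi := Real.pi_gt_three
  have h1 := h m hm
  have h0 : 0 ≤ rA m := by unfold rA; positivity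
  have h2 : rA m / Real.pi ≤ rA m := by
    rw [div_le_iff₀ (by linarith)]
    nlinarith
  have h3 : (0:ℝ) < (m:ℝ) ^ (-(3/4):ℝ) := by positivity
  calc rA m / Real.pi * (m:ℝ) ^ (-(3/4):ℝ) ≤ (C * (m:ℝ) ^ e) * (m:ℝ) ^ (-(3/4):ℝ) :=
        mul_le_mul_of_nonneg_right (h2.trans h1) h3.le
    _ = _ := by ring

/-- a set of sums of two squares -/
lemma exists_T (Y : ℕ) (hY : 2 ≤ Y) {C e : ℝ} (hC : 1 ≤ C) (he : 0 < e) (h : ∀ m : ℕ, 1 ≤ m → rA m ≤ C * (m:ℝ) ^ e) :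
    ∃ T : Finset ℕ, (∀ m ∈ T, 1 ≤ m ∧ m ≤ Y) ∧ (∀ m ∈ T, 1 ≤ rA m) ∧ (Y:ℝ) / 16 ≤ T.card * (C * (Y:ℝ) ^ e) := by
  classical
  set q := Nat.sqrt (Y / 2) with hq
  have hY2 : 1 ≤ Y / 2 := by omega
  have hq1 : 1 ≤ q := by
    rw [hq]
    exact Nat.sqrt_pos.mpr hY2
  have hqle : q * q ≤ Y / 2 := Nat.sqrt_le _
  have hqlt : Y / 2 < (q + 1) * (q + 1) := Nat.lt_succ_sqrt _
  set f : ℕ × ℕ → ℕ := fun p => p.1 ^ 2 + p.2 ^ 2 with hf
  set S := Finset.Icc 1 q ×ˢ Finset.Icc 1 q with hS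
  set T := S.image f with hT
  have hfib : ∀ m ∈ T, ((S.filter (fun p => f p = m)).card : ℝ) ≤ rA m := by
    intro m _
    unfold rA
    have h1 : ((S.filter (fun p => f p = m)).image (fun p => (⟨(p.1:ℤ), (p.2:ℤ)⟩ : GaussianInt))).card =
        (S.filter (fun p => f p = m)).card := by
      apply Finset.card_image_of_injective
      intro p p' hpp
      simp only [Zsqrtd.mk.injEq, Nat.cast_inj] at hpp
      exact Prod.ext hpp.1 hpp.2
    rw [← h1, ← Set.ncard_coe_finset]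
    have h2 : ((((S.filter (fun p => f p = m)).image (fun p => (⟨(p.1:ℤ), (p.2:ℤ)⟩ : GaussianInt)) : Finset GaussianInt)) : Set GaussianInt) ⊆ A m := by
      intro z hz
      rw [Finset.mem_coe, Finset.mem_image] at hz
      obtain ⟨p, hp, rfl⟩ := hz
      rw [mem_A, norm_eq]
      have h3 := (Finset.mem_filter.mp hp).2
      simp only [hf] at h3
      rw [← h3]
      push_cast
      ring
    exact_mod_cast Set.ncard_le_ncard h2 (A_finite m)
  have hTm : ∀ m ∈ T, 1 ≤ m ∧ m ≤ Y := by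
    intro m hm
    rw [hT, Finset.mem_image] at hm
    obtain ⟨p, hp, rfl⟩ := hm
    rw [hS, Finset.mem_product, Finset.mem_Icc, Finset.mem_Icc] at hp
    simp only [hf]
    obtain ⟨⟨h1, h2⟩, h3, h4⟩ := hp
    constructor
    · nlinarith
    · have h5 : p.1 ^ 2 ≤ q * q := by nlinarith
      have h6 : p.2 ^ 2 ≤ q * q := by nlinarith
      omega
  have hT1 : ∀ m ∈ T, 1 ≤ rA m := by
    intro m hm
    refine le_trans ?_ (hfib m hm)
    rw [hT, Finset.mem_image] at hm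
    obtain ⟨p, hp, hpm⟩ := hm
    have : 1 ≤ (S.filter (fun p => f p = m)).card :=
      Finset.card_pos.mpr ⟨p, Finset.mem_filter.mpr ⟨hp, hpm⟩⟩
    exact_mod_cast this
  refine ⟨T, hTm, hT1, ?_⟩
  have hcard : S.card = q * q := by
    rw [hS, Finset.card_product, Nat.card_Icc]; simp
  have h1 : (S.card : ℝ) = ∑ m ∈ T, ((S.filter (fun p => f p = m)).card : ℝ) := by
    have := Finset.card_eq_sum_card_image f S
    exact_mod_cast this
  have h2 : (S.card : ℝ) ≤ T.card * (C * (Y:ℝ) ^ e) := by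
    rw [h1]
    calc ∑ m ∈ T, ((S.filter (fun p => f p = m)).card : ℝ) ≤ ∑ _m ∈ T, (C * (Y:ℝ) ^ e) := by
          apply Finset.sum_le_sum
          intro m hm
          refine (hfib m hm).trans ((h m (hTm m hm).1).trans ?_)
          apply mul_le_mul_of_nonneg_left _ (by linarith)
          exact Real.rpow_le_rpow (Nat.cast_nonneg _) (by exact_mod_cast (hTm m hm).2) he.le
      _ = _ := by rw [Finset.sum_const, nsmul_eq_mul]
  refine le_trans ?_ h2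
  rw [hcard]
  have h3 : Y ≤ 16 * (q * q) := by
    have h4 : (q + 1) * (q + 1) ≤ 4 * (q * q) := by nlinarith
    omega
  have h5 : (Y:ℝ) ≤ 16 * ((q * q : ℕ) : ℝ) := by exact_mod_cast h3
  linarith

lemma ag_Lg : Lg ag := by
  intro e he
  set e' := e / 3 with he'
  have he0 : 0 < e' := by positivity
  obtain ⟨C, hC, h⟩ := rA_bd e' he0
  have hlim : Tendsto (fun Y : ℕ => (Y:ℝ) ^ e') atTop atTop :=
    (tendsto_rpow_atTop he0).comp tendsto_natCast_atTop_atTop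
  filter_upwards [hlim.eventually_ge_atTop (9216 * C ^ 2), eventually_ge_atTop 2] with Y hY1 hY2
  obtain ⟨T, hTm, hT1, hTc⟩ := exists_T Y hY2 hC he0 h
  obtain ⟨D, hDT, hinj, hDc⟩ := exists_ker hTm
  have hY0 : (0:ℝ) < Y := by
    have : 0 < Y := by omega
    exact_mod_cast this
  refine ⟨D, fun m hm => hTm m (hDT hm), hinj, ?_⟩
  have hpi := Real.pi_gt_three
  have hpi4 := Real.pi_lt_d2
  have h1 : (D.card:ℝ) * ((1/4) * (Y:ℝ) ^ (-(3/4):ℝ)) ≤ ∑ m ∈ D, ag m := by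
    have h2 : ∀ m ∈ D, (1/4) * (Y:ℝ) ^ (-(3/4):ℝ) ≤ ag m := by
      intro m hm
      have h3 := hTm m (hDT hm)
      have h4 := hT1 m (hDT hm)
      have hm0 : (0:ℝ) < m := by exact_mod_cast h3.1
      unfold ag
      rw [sqrt_pow]
      have h5 : (Y:ℝ) ^ (-(3/4):ℝ) ≤ (m:ℝ) ^ (-(3/4):ℝ) :=
        Real.rpow_le_rpow_of_nonpos hm0 (by exact_mod_cast h3.2) (by norm_num)
      have h6 : (1/4:ℝ) ≤ rA m / Real.pi := by
        rw [le_div_iff₀ (by linarith)]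
        linarith
      apply mul_le_mul h6 h5 (by positivity) (by linarith)
    calc (D.card:ℝ) * ((1/4) * (Y:ℝ) ^ (-(3/4):ℝ)) = ∑ _m ∈ D, (1/4) * (Y:ℝ) ^ (-(3/4):ℝ) := by
          rw [Finset.sum_const, nsmul_eq_mul]
      _ ≤ _ := Finset.sum_le_sum h2
  refine le_trans ?_ h1
  have hYe : 0 < (Y:ℝ) ^ e' := by positivity
  have hC0 : 0 < C := by linarith
  -- card of T
  have h2 : (Y:ℝ) / (16 * (C * (Y:ℝ) ^ e')) ≤ T.card := by
    rw [div_le_iff₀ (by positivity)]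
    rw [div_le_iff₀ (by norm_num)] at hTc
    linarith
  have h3 : ((Y:ℝ) / (16 * (C * (Y:ℝ) ^ e'))) ^ 2 ≤ 9 * Y * D.card :=
    (pow_le_pow_left₀ (by positivity) h2 2).trans hDc
  have h4 : (Y:ℝ) / (2304 * (C ^ 2 * ((Y:ℝ) ^ e') ^ 2)) ≤ D.card := by
    rw [div_le_iff₀ (by positivity)]
    rw [div_pow, div_le_iff₀ (by positivity)] at h3
    have h5 : (Y:ℝ) * Y ≤ Y * (D.card * (2304 * (C ^ 2 * ((Y:ℝ) ^ e') ^ 2))) := by nlinarith
    exact le_of_mul_le_mul_left h5 hY0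
  have h5 : (Y:ℝ) ^ (1/4 - e) ≤ (Y:ℝ) / (2304 * (C ^ 2 * ((Y:ℝ) ^ e') ^ 2)) * ((1/4) * (Y:ℝ) ^ (-(3/4):ℝ)) := by
    have e1 : (Y:ℝ) / (2304 * (C ^ 2 * ((Y:ℝ) ^ e') ^ 2)) * ((1/4) * (Y:ℝ) ^ (-(3/4):ℝ)) =
        (Y * (Y:ℝ) ^ (-(3/4):ℝ)) / (9216 * C ^ 2 * ((Y:ℝ) ^ e') ^ 2) := by
      field_simp
      ring
    rw [e1, le_div_iff₀ (by positivity)]
    have e2 : (Y:ℝ) * (Y:ℝ) ^ (-(3/4):ℝ) = (Y:ℝ) ^ (1/4 - e) * ((Y:ℝ) ^ e' * ((Y:ℝ) ^ e') ^ 2) := by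
      rw [← Real.rpow_natCast ((Y:ℝ) ^ e') 2, ← Real.rpow_mul hY0.le, ← Real.rpow_add hY0, ← Real.rpow_add hY0]
      nth_rewrite 1 [← Real.rpow_one (Y:ℝ)]
      rw [← Real.rpow_add hY0]
      congr 1
      rw [he']; push_cast; ring
    rw [e2]
    apply mul_le_mul_of_nonneg_left _ (by positivity)
    apply mul_le_mul_of_nonneg_right hY1 (by positivity)
  refine h5.trans ?_
  exact mul_le_mul_of_nonneg_right h4 (by positivity)

end Pool.Agent.Helper932CL
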