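import Mathlib
import Pool.Agent.Helper932CL.Apx
import Pool.Agent.Helper932CL.Up3
import Pool.Agent.Helper932CL.Lo2

/-!
Extreme values of the error term along `b_n α ^ (a_n)`.
-/

set_option autoImplicit false

open MeasureTheory Filter Topology

namespace Pool.Agent.Helper932CL

open Pool.Agent.R306.GP (pt pt_cont)
open Pool.Agent.H383.Gen (U Bd)
open Pool.Agent.H383.GW (Wt Sand)

lemma ae_pos {p : ℝ → Prop} (h : ∀ c d : ℝ, 0 < c → c ≤ 1 → c < d → ∀ᵐ y ∂(volume.restrict (Set.Ioc c d)), p y) :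
    ∀ᵐ y : ℝ, 0 < y → p y := by
  have h1 : ∀ k : ℕ, ∀ᵐ y : ℝ, y ∈ Set.Ioc (1 / ((k:ℝ) + 2)) ((k:ℝ) + 2) → p y := by
    intro k
    have hk : (0:ℝ) ≤ k := Nat.cast_nonneg k
    rw [← ae_restrict_iff' measurableSet_Ioc]
    apply h
    · positivity
    · rw [div_le_one (by positivity)]
      linarith
    · rw [div_lt_iff₀ (by positivity)]
      nlinarith
  filter_upwards [ae_all_iff.mpr h1] with y hy hy0
  obtain ⟨k, hk⟩ := exists_nat_ge (max y (1 / y))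
  apply hy k
  have h2 : y ≤ k := (le_max_left _ _).trans hk
  have h3 : 1 / y ≤ k := (le_max_right _ _).trans hk
  rw [Set.mem_Ioc]
  constructor
  · rw [div_lt_iff₀ (by positivity)]
    rw [div_le_iff₀ hy0] at h3
    nlinarith
  · linarith

/-- from `y` to `α = exp y` -/
lemma ae_exp {p : ℝ → Prop} (h : ∀ᵐ y : ℝ, 0 < y → p (Real.exp y)) : ∀ᵐ α : ℝ, 1 < α → p α := by
  rw [ae_iff] at h ⊢
  have h3 := MeasureTheory.addHaar_image_eq_zero_of_differentiableOn_of_addHaar_eq_zero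
    (volume : Measure ℝ) (f := Real.exp) Real.differentiable_exp.differentiableOn h
  refine measure_mono_null ?_ h3
  intro α hα
  have hα' : ¬ (1 < α → p α) := hα
  push Not at hα'
  obtain ⟨hα1, hα2⟩ := hα'
  have hα0 : 0 < α := by linarith
  refine ⟨Real.log α, ?_, Real.exp_log hα0⟩
  change ¬ _
  intro hall
  apply hα2
  have := hall (Real.log_pos hα1)
  rwa [Real.exp_log hα0] at this

lemma log16_le {n : ℕ} (hn : 1 ≤ n) : (Nat.log 16 n : ℝ) ≤ Real.log n := by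
  have h1 : 16 ^ (Nat.log 16 n) ≤ n := Nat.pow_log_le_self 16 (by omega)
  have h2 : ((16:ℝ)) ^ (Nat.log 16 n) ≤ n := by exact_mod_cast h1
  have h3 := Real.log_le_log (by positivity) h2
  rw [Real.log_pow] at h3
  have h4 : (1:ℝ) ≤ Real.log 16 := by
    rw [Real.le_log_iff_exp_le (by norm_num)]
    have := Real.exp_one_lt_d9
    linarith
  have h5 : (0:ℝ) ≤ Nat.log 16 n := Nat.cast_nonneg _
  nlinarith

/-- one choice of the parameters -/
theorem one_y {a b : ℕ → ℝ} {δ : ℝ} (h : Sq a b δ) {E : ℝ → ℝ} {af : ℕ → ℝ} {φ : ℝ}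
    {w : ℝ → ℂ} {κ₁ κ₂ C0 : ℝ} (ha : Bd af) (ha0 : af 0 = 0) (hw : Wt w) (hC0 : 0 < C0)
    (hS : Sand E af φ w κ₁ κ₂ C0) (hE : Measurable E) (hSm : Sm af) (hLg : Lg af) {ε η : ℝ} (hε : 0 < ε)
    (hε1 : ε ≤ 1/8) (hη : 0 < η) (hη1 : η ≤ 1) :
    ∀ᵐ y : ℝ, 0 < y →
      (∀ᶠ n : ℕ in atTop, |E (pt a b n y)| ≤ (Real.log n) ^ (1/4 + ε) + 1) ∧
      (∀ᶠ N : ℕ in atTop, ∃ n : ℕ, N < n ∧ (n:ℝ) ≤ N + (N:ℝ) ^ η ∧ (Real.log N) ^ (1/4 - ε) ≤ E (pt a b n y)) ∧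
      (∀ᶠ N : ℕ in atTop, ∃ n : ℕ, N < n ∧ (n:ℝ) ≤ N + (N:ℝ) ^ η ∧ E (pt a b n y) ≤ -(Real.log N) ^ (1/4 - ε)) := by
  apply ae_pos
  intro c d hc hc1 hcd
  have h1 := apx h hc hc1 hcd.le ha ha0 hw hC0 hS hE
  have h1' : ∀ᵐ y ∂(volume.restrict (Set.Ioc c d)),
      Tendsto (fun n : ℕ => (E (pt a b n y) - U af φ (pt a b n y) (n ^ 800)) ^ 2) atTop (𝓝 0) :=
    ae_restrict_of_ae_restrict_of_subset Set.Ioc_subset_Icc_self h1
  filter_upwards [h1', upper_y h hc hc1 hcd.le hSm φ hε, lower_y h hc hc1 hcd hSm hLg (φ := φ) (Or.inl rfl) hε hε1 hη hη1,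
    lower_y h hc hc1 hcd hSm hLg (φ := φ) (Or.inr rfl) hε hε1 hη hη1] with y hy1 hy2 hy3 hy4
  have hap : ∀ᶠ n : ℕ in atTop, |E (pt a b n y) - U af φ (pt a b n y) (n ^ 800)| ≤ 1 := by
    filter_upwards [hy1.eventually (gt_mem_nhds one_pos)] with n hn
    rw [← sq_abs] at hn
    have := abs_nonneg (E (pt a b n y) - U af φ (pt a b n y) (n ^ 800))
    nlinarith
  refine ⟨?_, ?_, ?_⟩
  · filter_upwards [hap, hy2, eventually_ge_atTop 1] with n hn1 hn2 hn3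
    have h5 := log16_le hn3
    have h6 : (Nat.log 16 n : ℝ) ^ (1/4 + ε) ≤ (Real.log n) ^ (1/4 + ε) :=
      Real.rpow_le_rpow (Nat.cast_nonneg _) h5 (by linarith)
    have h7 : |E (pt a b n y)| ≤ |E (pt a b n y) - U af φ (pt a b n y) (n ^ 800)| + |U af φ (pt a b n y) (n ^ 800)| := by
      have := abs_add_le (E (pt a b n y) - U af φ (pt a b n y) (n ^ 800)) (U af φ (pt a b n y) (n ^ 800))
      rwa [sub_add_cancel] at this
    linarith
  · rw [eventually_atTop] at hap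
    obtain ⟨n0, hap⟩ := hap
    filter_upwards [hy3, eventually_ge_atTop n0] with N hN hN0
    obtain ⟨n, hn1, hn2, hn3⟩ := hN
    refine ⟨n, hn1, hn2, ?_⟩
    have h5 := abs_le.mp (hap n (by omega))
    rw [one_mul] at hn3
    linarith
  · rw [eventually_atTop] at hap
    obtain ⟨n0, hap⟩ := hap
    filter_upwards [hy4, eventually_ge_atTop n0] with N hN hN0
    obtain ⟨n, hn1, hn2, hn3⟩ := hN
    refine ⟨n, hn1, hn2, ?_⟩
    have h5 := abs_le.mp (hap n (by omega))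
    linarith

/-- all parameters -/
theorem all_y {a b : ℕ → ℝ} {δ : ℝ} (h : Sq a b δ) {E : ℝ → ℝ} {af : ℕ → ℝ} {φ : ℝ}
    {w : ℝ → ℂ} {κ₁ κ₂ C0 : ℝ} (ha : Bd af) (ha0 : af 0 = 0) (hw : Wt w) (hC0 : 0 < C0)
    (hS : Sand E af φ w κ₁ κ₂ C0) (hE : Measurable E) (hSm : Sm af) (hLg : Lg af) :
    ∀ᵐ y : ℝ, 0 < y →
      (∀ ε : ℝ, 0 < ε → ∀ᶠ n : ℕ in atTop, |E (pt a b n y)| ≤ (Real.log n) ^ (1/4 + ε)) ∧
      (∀ ε η : ℝ, 0 < ε → 0 < η → ∀ᶠ N : ℕ in atTop,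
        (∃ n : ℕ, N < n ∧ (n:ℝ) ≤ N + (N:ℝ) ^ η ∧ 2 * (Real.log N) ^ (1/4 - ε) ≤ E (pt a b n y)) ∧
        (∃ n : ℕ, N < n ∧ (n:ℝ) ≤ N + (N:ℝ) ^ η ∧ E (pt a b n y) ≤ -(2 * (Real.log N) ^ (1/4 - ε)))) := by
  have h1 : ∀ᵐ y : ℝ, ∀ j : ℕ, 0 < y →
      (∀ᶠ n : ℕ in atTop, |E (pt a b n y)| ≤ (Real.log n) ^ (1/4 + 1 / ((j:ℝ) + 8)) + 1) ∧
      (∀ᶠ N : ℕ in atTop, ∃ n : ℕ, N < n ∧ (n:ℝ) ≤ N + (N:ℝ) ^ (1 / ((j:ℝ) + 8)) ∧
        (Real.log N) ^ (1/4 - 1 / ((j:ℝ) + 8)) ≤ E (pt a b n y)) ∧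
      (∀ᶠ N : ℕ in atTop, ∃ n : ℕ, N < n ∧ (n:ℝ) ≤ N + (N:ℝ) ^ (1 / ((j:ℝ) + 8)) ∧
        E (pt a b n y) ≤ -(Real.log N) ^ (1/4 - 1 / ((j:ℝ) + 8))) := by
    rw [ae_all_iff]
    intro j
    have hj : (0:ℝ) ≤ j := Nat.cast_nonneg j
    have hj8 : 1 / ((j:ℝ) + 8) ≤ 1/8 := one_div_le_one_div_of_le (by norm_num) (by linarith)
    exact one_y h ha ha0 hw hC0 hS hE hSm hLg (by positivity) hj8 (by positivity) (by linarith)
  have hlog : Tendsto (fun N : ℕ => Real.log N) atTop atTop := Real.tendsto_log_atTop.comp tendsto_natCast_atTop_atTop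
  filter_upwards [h1] with y hy hy0
  refine ⟨?_, ?_⟩
  · intro ε hε
    obtain ⟨j, hj⟩ := exists_nat_gt (1 / ε)
    have hj0 : (0:ℝ) ≤ j := Nat.cast_nonneg j
    have hjε : 1 / ((j:ℝ) + 8) < ε := by
      rw [div_lt_iff₀ (by positivity)]
      rw [div_lt_iff₀ hε] at hj
      nlinarith
    obtain ⟨h2, -, -⟩ := hy j hy0
    have hj8 : 0 < 1 / ((j:ℝ) + 8) := by positivity
    have h3 := hlog.eventually (asy_pow 1 1 (p := 1/4 + 1 / ((j:ℝ) + 8)) (q := 1/4 + ε) (κ := 1) (by linarith) (by linarith) one_pos)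
    filter_upwards [h2, h3] with n hn1 hn2
    linarith
  · intro ε η hε hη
    obtain ⟨j, hj⟩ := exists_nat_gt (max (1 / ε) (1 / η))
    have hj0 : (0:ℝ) ≤ j := Nat.cast_nonneg j
    have hj1 : 1 / ε < j := (le_max_left _ _).trans_lt hj
    have hj2 : 1 / η < j := (le_max_right _ _).trans_lt hj
    have hjε : 1 / ((j:ℝ) + 8) < ε := by
      rw [div_lt_iff₀ (by positivity)]
      rw [div_lt_iff₀ hε] at hj1
      nlinarith
    have hjη : 1 / ((j:ℝ) + 8) < η := by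
      rw [div_lt_iff₀ (by positivity)]
      rw [div_lt_iff₀ hη] at hj2
      nlinarith
    have hj8 : 1 / ((j:ℝ) + 8) ≤ 1/8 := one_div_le_one_div_of_le (by norm_num) (by linarith)
    obtain ⟨-, h2, h3⟩ := hy j hy0
    have h4 := hlog.eventually (asy_pow 0 2 (p := 1/4 - ε) (q := 1/4 - 1 / ((j:ℝ) + 8)) (κ := 1) (by linarith) (by linarith) one_pos)
    filter_upwards [h2, h3, h4, eventually_ge_atTop 1] with N hN1 hN2 hN3 hN4
    have hN1' : (1:ℝ) ≤ N := by exact_mod_cast hN4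
    have h5 : (N:ℝ) ^ (1 / ((j:ℝ) + 8)) ≤ (N:ℝ) ^ η := Real.rpow_le_rpow_of_exponent_le hN1' hjη.le
    obtain ⟨n, hn1, hn2, hn3⟩ := hN1
    obtain ⟨m, hm1, hm2, hm3⟩ := hN2
    exact ⟨⟨n, hn1, by linarith, by linarith⟩, ⟨m, hm1, by linarith, by linarith⟩⟩

/-- scaling -/
lemma ae_scale {p : ℝ → Prop} {t : ℝ} (ht : 0 < t) (h : ∀ᵐ y : ℝ, 0 < y → p y) : ∀ᵐ y : ℝ, 0 < y → p (t * y) := by
  rw [ae_iff] at h ⊢
  have h1 := Real.volume_preimage_mul_left ht.ne' {y : ℝ | ¬ (0 < y → p y)}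
  rw [h, mul_zero] at h1
  refine measure_mono_null ?_ h1
  intro y hy
  have hy' : ¬ (0 < y → p (t * y)) := hy
  push Not at hy'
  obtain ⟨hy1, hy2⟩ := hy'
  show ¬ (0 < t * y → p (t * y))
  push Not
  exact ⟨by positivity, hy2⟩

/-- almost all `α` -/
theorem all_alpha {E : ℝ → ℝ} {af : ℕ → ℝ} {φ : ℝ}
    {w : ℝ → ℂ} {κ₁ κ₂ C0 : ℝ} (ha : Bd af) (ha0 : af 0 = 0) (hw : Wt w) (hC0 : 0 < C0)
    (hS : Sand E af φ w κ₁ κ₂ C0) (hE : Measurable E) (hSm : Sm af) (hLg : Lg af)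
    {a b : ℕ → ℝ} {δ : ℝ} (hδ : 0 < δ) (ham : Monotone a) (hap : ∃ n, 0 < a n) (hb : ∀ n, 0 < b n) (hmono : Monotone b)
    (hgap : ∀ n, δ ≤ (a (n + 1) - a n) + (Real.log (b (n + 1)) - Real.log (b n))) :
    ∀ᵐ α : ℝ, 1 < α →
      (∀ ε : ℝ, 0 < ε → ∀ᶠ n : ℕ in atTop, |E (b n * α ^ (a n))| ≤ (Real.log n) ^ (1/4 + ε)) ∧
      (∀ ε η : ℝ, 0 < ε → 0 < η → ∀ᶠ N : ℕ in atTop,
        (∃ n : ℕ, N < n ∧ (n:ℝ) ≤ N + (N:ℝ) ^ η ∧ (Real.log N) ^ (1/4 - ε) ≤ E (b n * α ^ (a n))) ∧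
        (∃ n : ℕ, N < n ∧ (n:ℝ) ≤ N + (N:ℝ) ^ η ∧ E (b n * α ^ (a n)) ≤ -(Real.log N) ^ (1/4 - ε))) := by
  obtain ⟨n0, hn0⟩ := hap
  set t := a n0 with ht
  have hone : ∀ n : ℕ, 1 ≤ a (n + n0) / t := by
    intro n
    rw [le_div_iff₀ hn0, one_mul]
    exact ham (Nat.le_add_left n0 n)
  set δ' := min 1 (1 / t) * δ with hδ'
  have hm0 : 0 < min 1 (1 / t) := lt_min one_pos (by positivity)
  have hSq : Sq (fun n => a (n + n0) / t) (fun n => b (n + n0)) δ' :=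
    ⟨by positivity, hone, fun n m hnm => by
      show a (n + n0) / t ≤ a (m + n0) / t
      exact div_le_div_of_nonneg_right (ham (by omega)) hn0.le, fun n => hb _, fun n m hnm => hmono (by omega), fun n => by
      show δ' ≤ (a (n + 1 + n0) / t - a (n + n0) / t) + (Real.log (b (n + 1 + n0)) - Real.log (b (n + n0)))
      have h1 := hgap (n + n0)
      have h3 : n + 1 + n0 = n + n0 + 1 := by ring
      rw [h3]
      have h4 : 0 ≤ a (n + n0 + 1) - a (n + n0) := by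
        have := ham (Nat.le_succ (n + n0))
        linarith
      have h5 : 0 ≤ Real.log (b (n + n0 + 1)) - Real.log (b (n + n0)) := by
        have := Real.log_le_log (hb (n + n0)) (hmono (Nat.le_succ (n + n0)))
        linarith
      have h6 : a (n + n0 + 1) / t - a (n + n0) / t = (1 / t) * (a (n + n0 + 1) - a (n + n0)) := by ring
      rw [h6]
      calc δ' ≤ min 1 (1 / t) * ((a (n + n0 + 1) - a (n + n0)) + (Real.log (b (n + n0 + 1)) - Real.log (b (n + n0)))) :=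
            mul_le_mul_of_nonneg_left h1 hm0.le
        _ = min 1 (1 / t) * (a (n + n0 + 1) - a (n + n0)) + min 1 (1 / t) * (Real.log (b (n + n0 + 1)) - Real.log (b (n + n0))) := by ring
        _ ≤ (1 / t) * (a (n + n0 + 1) - a (n + n0)) + 1 * (Real.log (b (n + n0 + 1)) - Real.log (b (n + n0))) :=
            add_le_add (mul_le_mul_of_nonneg_right (min_le_right _ _) h4) (mul_le_mul_of_nonneg_right (min_le_left _ _) h5)
        _ = _ := by rw [one_mul]⟩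
  apply ae_exp
  filter_upwards [ae_scale hn0 (all_y hSq ha ha0 hw hC0 hS hE hSm hLg)] with y hy hy0
  obtain ⟨h1, h2⟩ := hy hy0
  have hpt : ∀ n : ℕ, n0 ≤ n → pt (fun n => a (n + n0) / t) (fun n => b (n + n0)) (n - n0) (t * y) = b n * Real.exp y ^ (a n) := by
    intro n hn
    show b (n - n0 + n0) * Real.exp (a (n - n0 + n0) / t * (t * y)) = _
    rw [Nat.sub_add_cancel hn, ← Real.exp_mul]
    congr 2
    field_simp
  have hlog : Tendsto (fun N : ℕ => Real.log N) atTop atTop := Real.tendsto_log_atTop.comp tendsto_natCast_atTop_atTop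
  refine ⟨?_, ?_⟩
  · intro ε hε
    have h3 := (tendsto_sub_atTop_nat n0).eventually (h1 ε hε)
    filter_upwards [h3, eventually_ge_atTop (n0 + 1)] with n hn1 hn2
    rw [hpt n (by omega)] at hn1
    refine hn1.trans ?_
    have h4 : (1:ℝ) ≤ ((n - n0 : ℕ) : ℝ) := by exact_mod_cast (by omega : 1 ≤ n - n0)
    have h5 : ((n - n0 : ℕ) : ℝ) ≤ n := by exact_mod_cast Nat.sub_le n n0
    apply Real.rpow_le_rpow (Real.log_nonneg h4) _ (by linarith)
    exact Real.log_le_log (by linarith) h5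
  · intro ε η hε hη
    have hεm : 0 < min (ε/2) (1/8) := lt_min (by linarith) (by norm_num)
    have hεm1 : min (ε/2) (1/8) ≤ ε/2 := min_le_left _ _
    have hεm2 : min (ε/2) (1/8) ≤ 1/8 := min_le_right _ _
    have h3 := (tendsto_sub_atTop_nat n0).eventually (h2 (min (ε/2) (1/8)) η hεm hη)
    filter_upwards [h3, eventually_ge_atTop (4 * n0 + 16), hlog.eventually_ge_atTop 2] with N hN1 hN2 hN3
    set N' := N - n0 with hN'
    have hNN : N = N' + n0 := by omega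
    have h4 : (1:ℝ) ≤ (N':ℝ) := by exact_mod_cast (by omega : 1 ≤ N')
    have h5 : (N':ℝ) ≤ N := by exact_mod_cast (by omega : N' ≤ N)
    have hN0 : (0:ℝ) < N := by linarith
    -- log N ≤ 2 log N'
    have h6 : Real.log N ≤ 2 * Real.log N' := by
      have h7 : (N:ℝ) ≤ (N':ℝ) ^ 2 := by
        have h8 : N ≤ N' ^ 2 := by
          have : 2 ≤ N' := by omega
          have : N ≤ 2 * N' := by omega
          nlinarith
        exact_mod_cast h8
      have h8 := Real.log_le_log hN0 h7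
      rw [Real.log_pow] at h8
      push_cast at h8
      exact h8
    have h7 : (Real.log N) ^ (1/4 - ε) ≤ 2 * (Real.log N') ^ (1/4 - min (ε/2) (1/8)) := by
      have hL' : 0 < Real.log N' := by linarith
      calc (Real.log N) ^ (1/4 - ε) ≤ (Real.log N) ^ (1/4 - min (ε/2) (1/8)) :=
            Real.rpow_le_rpow_of_exponent_le (by linarith) (by linarith)
        _ ≤ (2 * Real.log N') ^ (1/4 - min (ε/2) (1/8)) := Real.rpow_le_rpow (by linarith) h6 (by linarith)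
        _ = 2 ^ (1/4 - min (ε/2) (1/8)) * (Real.log N') ^ (1/4 - min (ε/2) (1/8)) :=
            Real.mul_rpow (by norm_num) hL'.le
        _ ≤ 2 ^ (1:ℝ) * (Real.log N') ^ (1/4 - min (ε/2) (1/8)) := by
            apply mul_le_mul_of_nonneg_right _ (by positivity)
            exact Real.rpow_le_rpow_of_exponent_le (by norm_num) (by linarith)
        _ = _ := by rw [Real.rpow_one]
    have h8 : (N':ℝ) ^ η ≤ (N:ℝ) ^ η := Real.rpow_le_rpow (by linarith) h5 hη.le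
    have hNc : (N:ℝ) = N' + n0 := by exact_mod_cast hNN
    obtain ⟨⟨n, hn1, hn2, hn3⟩, ⟨m, hm1, hm2, hm3⟩⟩ := hN1
    have e1 := hpt (n + n0) (by omega)
    rw [Nat.add_sub_cancel] at e1
    have e2 := hpt (m + n0) (by omega)
    rw [Nat.add_sub_cancel] at e2
    refine ⟨⟨n + n0, by omega, by push_cast; linarith, ?_⟩, ⟨m + n0, by omega, by push_cast; linarith, ?_⟩⟩
    · rw [← e1]; linarith
    · rw [← e2]; linarith

end Pool.Agent.Helper932CL
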