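import Mathlib
import Pool.Agent.Helper932CL.Main
import Pool.Agent.Helper932CL.CircD

/-!
Extreme values of the error term of the circle problem along `b_n α ^ (a_n)`.
-/

set_option autoImplicit false

open MeasureTheory Filter Topology

namespace Pool.Agent.Helper932CL

open Pool.Agent.H383.Circ
open Pool.Agent.H383.Gauss (En)

/-- the number of integer points with `|p| ^ 2 ≤ x` -/
noncomputable def Nn (x : ℝ) : ℝ := (Nat.card {p : ℤ × ℤ // (p.1 : ℝ) ^ 2 + (p.2 : ℝ) ^ 2 ≤ x} : ℝ)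

lemma fin (x : ℝ) : {p : ℤ × ℤ | (p.1 : ℝ) ^ 2 + (p.2 : ℝ) ^ 2 ≤ x}.Finite := by
  have h : {p : ℤ × ℤ | (p.1 : ℝ) ^ 2 + (p.2 : ℝ) ^ 2 ≤ x} ⊆
      (Set.Icc (-⌈|x| + 1⌉) ⌈|x| + 1⌉) ×ˢ (Set.Icc (-⌈|x| + 1⌉) ⌈|x| + 1⌉) := by
    rintro ⟨m, n⟩ hp
    have hp' : (m : ℝ) ^ 2 + (n : ℝ) ^ 2 ≤ x := hp
    have hx : x ≤ |x| := le_abs_self x
    have h0 : 0 ≤ |x| := abs_nonneg x
    have key : ∀ k : ℤ, (k : ℝ) ^ 2 ≤ |x| → -⌈|x| + 1⌉ ≤ k ∧ k ≤ ⌈|x| + 1⌉ := by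
      intro k hk
      have h1 : |(k : ℝ)| ≤ |x| + 1 := by
        rw [← sq_abs] at hk
        nlinarith [abs_nonneg (k : ℝ)]
      have h2 := Int.le_ceil (|x| + 1)
      obtain ⟨h3, h4⟩ := abs_le.1 h1
      constructor
      · have : (-(⌈|x| + 1⌉ : ℤ) : ℝ) ≤ k := by push_cast; linarith
        exact_mod_cast this
      · have : (k : ℝ) ≤ (⌈|x| + 1⌉ : ℤ) := by linarith
        exact_mod_cast this
    refine ⟨key m ?_, key n ?_⟩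
    · nlinarith [sq_nonneg (n : ℝ)]
    · nlinarith [sq_nonneg (m : ℝ)]
  exact ((Set.finite_Icc _ _).prod (Set.finite_Icc _ _)).subset h

lemma Nn_mono : Monotone Nn := by
  intro x y hxy
  unfold Nn
  have h : {p : ℤ × ℤ | (p.1 : ℝ) ^ 2 + (p.2 : ℝ) ^ 2 ≤ x} ⊆
      {p : ℤ × ℤ | (p.1 : ℝ) ^ 2 + (p.2 : ℝ) ^ 2 ≤ y} := fun p hp => le_trans hp hxy
  exact_mod_cast Nat.card_mono (fin y) h

lemma En_meas : Measurable En := by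
  have h1 : Measurable fun R : ℝ => Nn (R ^ 2) := Nn_mono.measurable.comp (by fun_prop)
  have h2 : En = fun R => (Nn (R ^ 2) - Real.pi * R ^ 2) / √R := rfl
  rw [h2]
  exact (h1.sub (by fun_prop)).div (by fun_prop)

/-- the error term of the circle problem -/
noncomputable def P (R : ℝ) : ℝ :=
  (Nat.card {p : ℤ × ℤ // (p.1 : ℝ) ^ 2 + (p.2 : ℝ) ^ 2 ≤ R ^ 2} : ℝ) - Real.pi * R ^ 2

theorem circMain (a b : ℕ → ℝ) (δ : ℝ) (hδ : 0 < δ) (ha : Monotone a) (ha0 : ∃ n, 0 < a n) (hb : Monotone b)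
    (hb0 : ∀ n, 0 < b n) (hgap : ∀ n, δ ≤ (a (n + 1) - a n) + (Real.log (b (n + 1)) - Real.log (b n))) :
    ∀ᵐ α : ℝ, 1 < α →
      (∀ ε : ℝ, 0 < ε → ∀ᶠ n : ℕ in atTop,
        |P (b n * α ^ (a n))| ≤ (Real.log n) ^ (1 / 4 + ε) * √(b n * α ^ (a n))) ∧
      (∀ ε η : ℝ, 0 < ε → 0 < η → ∀ᶠ N : ℕ in atTop,
        (∃ n : ℕ, N < n ∧ (n : ℝ) ≤ N + (N : ℝ) ^ η ∧
          (Real.log N) ^ (1 / 4 - ε) * √(b n * α ^ (a n)) ≤ P (b n * α ^ (a n))) ∧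
        (∃ n : ℕ, N < n ∧ (n : ℝ) ≤ N + (N : ℝ) ^ η ∧
          P (b n * α ^ (a n)) ≤ -(Real.log N) ^ (1 / 4 - ε) * √(b n * α ^ (a n)))) := by
  obtain ⟨C0, hC0, hS⟩ := En_Sand
  filter_upwards [all_alpha ag_Bd ag_zero wg_Wt hC0 hS En_meas ag_Sm ag_Lg hδ ha ha0 hb0 hb hgap] with α hα hα1
  obtain ⟨h1, h2⟩ := hα hα1
  have hpos : ∀ n, 0 < √(b n * α ^ (a n)) := fun n => by
    apply Real.sqrt_pos.mpr
    exact mul_pos (hb0 n) (Real.rpow_pos_of_pos (by linarith) _)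
  have hP : ∀ n, P (b n * α ^ (a n)) = En (b n * α ^ (a n)) * √(b n * α ^ (a n)) := by
    intro n
    have h3 : En (b n * α ^ (a n)) = P (b n * α ^ (a n)) / √(b n * α ^ (a n)) := rfl
    rw [h3, div_mul_cancel₀ _ (hpos n).ne']
  refine ⟨?_, ?_⟩
  · intro ε hε
    filter_upwards [h1 ε hε] with n hn
    rw [hP, abs_mul, abs_of_pos (hpos n)]
    exact mul_le_mul_of_nonneg_right hn (hpos n).le
  · intro ε η hε hη
    filter_upwards [h2 ε η hε hη] with N hN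
    obtain ⟨⟨n, hn1, hn2, hn3⟩, ⟨m, hm1, hm2, hm3⟩⟩ := hN
    refine ⟨⟨n, hn1, hn2, ?_⟩, ⟨m, hm1, hm2, ?_⟩⟩
    · rw [hP]
      exact mul_le_mul_of_nonneg_right hn3 (hpos n).le
    · rw [hP]
      exact mul_le_mul_of_nonneg_right hm3 (hpos m).le

end Pool.Agent.Helper932CL
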