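import Mathlib
import Pool.Agent.H383.DivF
import Pool.Agent.H383.DivC
import Pool.Agent.Helper112.Arith
import Pool.Agent.Helper932CL.Main

/-!
Extreme values of the error term of the divisor problem along `b_n α ^ (a_n)`.
-/

set_option autoImplicit false

open MeasureTheory Filter Topology

namespace Pool.Agent.Helper932CL

open Pool.Agent.H383.Div (ad ad_nonneg ad_zero ad_Bd wd wd_Wt E2 E2_Sand vor)
open Pool.Agent.H387R2.Vor (Ed Del Dsum dv)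

lemma ad_Sm : Sm ad := by
  intro e he
  obtain ⟨C, hC, h⟩ := Pool.Agent.Helper112.divisor_bound e he
  refine ⟨max 1 C, le_max_left _ _, fun m hm => ?_⟩
  have hm0 : (0:ℝ) < m := by exact_mod_cast hm
  rw [abs_of_nonneg (ad_nonneg m)]
  unfold ad dv
  have hpi := Real.pi_gt_three
  have h2 : 1 ≤ √2 := Real.one_le_sqrt.mpr (by norm_num)
  have h3 : 1 / (Real.pi * √2) ≤ 1 := by
    rw [div_le_one (by positivity)]; nlinarith
  have h4 : (m.divisors.card : ℝ) ≤ max 1 C * (m:ℝ) ^ e :=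
    (h m hm).trans (mul_le_mul_of_nonneg_right (le_max_right _ _) (by positivity))
  rw [Real.rpow_add hm0]
  calc (m.divisors.card : ℝ) * (m : ℝ) ^ (-(3 / 4) : ℝ) * (1 / (Real.pi * √2)) ≤
      (max 1 C * (m:ℝ) ^ e) * (m : ℝ) ^ (-(3 / 4) : ℝ) * 1 := by
        gcongr
    _ = _ := by ring

lemma ad_Lg : Lg ad := by
  intro e he
  have hlim : Tendsto (fun Y : ℕ => (Y:ℝ) ^ e) atTop atTop :=
    (tendsto_rpow_atTop he).comp tendsto_natCast_atTop_atTop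
  filter_upwards [hlim.eventually_ge_atTop 54, eventually_ge_atTop 1] with Y hY1 hY2
  obtain ⟨D, hDT, hinj, hDc⟩ := exists_ker (T := Finset.Icc 1 Y) (Y := Y) (fun m hm => Finset.mem_Icc.mp hm)
  have hY0 : (0:ℝ) < Y := by exact_mod_cast hY2
  refine ⟨D, fun m hm => Finset.mem_Icc.mp (hDT hm), hinj, ?_⟩
  have hpi := Real.pi_gt_three
  have hpi4 := Real.pi_lt_d2
  have hs2 : √2 ≤ 3/2 := by
    rw [Real.sqrt_le_left (by norm_num)]; norm_num
  have hs20 : 0 < √(2:ℝ) := Real.sqrt_pos.mpr (by norm_num)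
  have h1 : (D.card:ℝ) * ((1/6) * (Y:ℝ) ^ (-(3/4):ℝ)) ≤ ∑ m ∈ D, ad m := by
    have h2 : ∀ m ∈ D, (1/6) * (Y:ℝ) ^ (-(3/4):ℝ) ≤ ad m := by
      intro m hm
      have h3 := Finset.mem_Icc.mp (hDT hm)
      have hm0 : (0:ℝ) < m := by exact_mod_cast h3.1
      have h5 : (Y:ℝ) ^ (-(3/4):ℝ) ≤ (m:ℝ) ^ (-(3/4):ℝ) :=
        Real.rpow_le_rpow_of_nonpos hm0 (by exact_mod_cast h3.2) (by norm_num)
      have h6 : (1/6:ℝ) ≤ 1 / (Real.pi * √2) := by
        apply one_div_le_one_div_of_le (by positivity)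
        nlinarith
      have h7 : (1:ℝ) ≤ (m.divisors.card : ℝ) := by
        have : 1 ≤ m.divisors.card := Finset.card_pos.mpr ⟨1, Nat.one_mem_divisors.mpr (by omega)⟩
        exact_mod_cast this
      unfold ad dv
      have h8 : 0 < (m:ℝ) ^ (-(3/4):ℝ) := by positivity
      calc (1/6) * (Y:ℝ) ^ (-(3/4):ℝ) ≤ (1 / (Real.pi * √2)) * (m:ℝ) ^ (-(3/4):ℝ) :=
            mul_le_mul h6 h5 (by positivity) (by positivity)
        _ = 1 * (m:ℝ) ^ (-(3/4):ℝ) * (1 / (Real.pi * √2)) := by ring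
        _ ≤ _ := by gcongr
    calc (D.card:ℝ) * ((1/6) * (Y:ℝ) ^ (-(3/4):ℝ)) = ∑ _m ∈ D, (1/6) * (Y:ℝ) ^ (-(3/4):ℝ) := by
          rw [Finset.sum_const, nsmul_eq_mul]
      _ ≤ _ := Finset.sum_le_sum h2
  refine le_trans ?_ h1
  have hcard : ((Finset.Icc 1 Y).card : ℝ) = Y := by simp
  rw [hcard] at hDc
  have h4 : (Y:ℝ) / 9 ≤ D.card := by
    have h5 : (Y:ℝ) * Y ≤ Y * (9 * D.card) := by nlinarith
    have := le_of_mul_le_mul_left h5 hY0
    linarith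
  have h5 : (Y:ℝ) ^ (1/4 - e) ≤ (Y:ℝ) / 9 * ((1/6) * (Y:ℝ) ^ (-(3/4):ℝ)) := by
    have e2 : (Y:ℝ) * (Y:ℝ) ^ (-(3/4):ℝ) = (Y:ℝ) ^ (1/4 - e) * (Y:ℝ) ^ e := by
      rw [← Real.rpow_add hY0]
      nth_rewrite 1 [← Real.rpow_one (Y:ℝ)]
      rw [← Real.rpow_add hY0]
      congr 1; ring
    have h6 : 0 < (Y:ℝ) ^ (1/4 - e) := by positivity
    nlinarith
  exact h5.trans (mul_le_mul_of_nonneg_right h4 (by positivity))

lemma Ed_meas : Measurable Ed := by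
  have h1 : Measurable Dsum := by
    have h2 : Dsum = (fun k : ℕ => ∑ n ∈ Finset.Icc 1 k, dv n) ∘ (fun x : ℝ => ⌊x⌋₊) := rfl
    rw [h2]
    exact measurable_from_nat.comp Nat.measurable_floor
  have h2 : Measurable Del := by
    unfold Del
    exact (h1.sub (measurable_id.mul Real.measurable_log)).sub (measurable_const.mul measurable_id)
  unfold Ed
  exact (h2.comp (measurable_id.pow_const 2)).div Real.continuous_sqrt.measurable

lemma E2_meas : Measurable E2 := by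
  unfold E2
  exact Ed_meas.comp (measurable_id.div_const 2)

/-- the error term of the divisor problem -/
noncomputable def Δd (x : ℝ) : ℝ :=
  ∑ n ∈ Finset.Icc 1 ⌊x⌋₊, (n.divisors.card : ℝ) - x * (Real.log x + 2 * Real.eulerMascheroniConstant - 1)

theorem divMain (a b : ℕ → ℝ) (δ : ℝ) (hδ : 0 < δ) (ha : Monotone a) (ha0 : ∃ n, 0 < a n) (hb : Monotone b)
    (hb0 : ∀ n, 0 < b n) (hgap : ∀ n, δ ≤ (a (n + 1) - a n) + (Real.log (b (n + 1)) - Real.log (b n))) :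
    ∀ᵐ α : ℝ, 1 < α →
      (∀ ε : ℝ, 0 < ε → ∀ᶠ n : ℕ in atTop,
        |Δd (b n * α ^ (a n))| ≤ (Real.log n) ^ (1 / 4 + ε) * (b n * α ^ (a n)) ^ (1 / 4 : ℝ)) ∧
      (∀ ε η : ℝ, 0 < ε → 0 < η → ∀ᶠ N : ℕ in atTop,
        (∃ n : ℕ, N < n ∧ (n : ℝ) ≤ N + (N : ℝ) ^ η ∧
          (Real.log N) ^ (1 / 4 - ε) * (b n * α ^ (a n)) ^ (1 / 4 : ℝ) ≤ Δd (b n * α ^ (a n))) ∧
        (∃ n : ℕ, N < n ∧ (n : ℝ) ≤ N + (N : ℝ) ^ η ∧
          Δd (b n * α ^ (a n)) ≤ -(Real.log N) ^ (1 / 4 - ε) * (b n * α ^ (a n)) ^ (1 / 4 : ℝ))) := by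
  obtain ⟨C0, hC0, hS⟩ := E2_Sand vor
  have hgap' : ∀ n, δ / 2 ≤ (a (n + 1) / 2 - a n / 2) + (Real.log (2 * √(b (n + 1))) - Real.log (2 * √(b n))) := by
    intro n
    have h1 := hgap n
    have h2 : ∀ k, Real.log (2 * √(b k)) = Real.log 2 + Real.log (b k) / 2 := by
      intro k
      rw [Real.log_mul (by norm_num) (Real.sqrt_pos.mpr (hb0 k)).ne', Real.log_sqrt (hb0 k).le]
    rw [h2, h2]
    linarith
  filter_upwards [all_alpha (a := fun n => a n / 2) (b := fun n => 2 * √(b n)) ad_Bd ad_zero wd_Wt hC0 hS E2_meas ad_Sm ad_Lg (half_pos hδ)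
    (fun n m hnm => by
      show a n / 2 ≤ a m / 2
      have := ha hnm
      linarith)
    (by
      obtain ⟨n, hn⟩ := ha0
      exact ⟨n, by show 0 < a n / 2; linarith⟩)
    (fun n => by
      show 0 < 2 * √(b n)
      have := Real.sqrt_pos.mpr (hb0 n)
      linarith)
    (fun n m hnm => by
      show 2 * √(b n) ≤ 2 * √(b m)
      have := Real.sqrt_le_sqrt (hb hnm)
      linarith) hgap'] with α hα hα1
  obtain ⟨h1, h2⟩ := hα hα1
  have hα0 : 0 < α := by linarith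
  have hx : ∀ n, 0 < b n * α ^ (a n) := fun n => mul_pos (hb0 n) (Real.rpow_pos_of_pos hα0 _)
  have hpos : ∀ n, 0 < (b n * α ^ (a n)) ^ (1 / 4 : ℝ) := fun n => Real.rpow_pos_of_pos (hx n) _
  have hP : ∀ n, Δd (b n * α ^ (a n)) = E2 (2 * √(b n) * α ^ (a n / 2)) * (b n * α ^ (a n)) ^ (1 / 4 : ℝ) := by
    intro n
    set x := b n * α ^ (a n) with hxd
    have hx0 : 0 < x := hx n
    have e1 : 2 * √(b n) * α ^ (a n / 2) / 2 = √x := by
      rw [hxd, Real.sqrt_mul (hb0 n).le, Real.sqrt_eq_rpow (α ^ (a n)), ← Real.rpow_mul hα0.le]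
      have : a n * (1 / 2) = a n / 2 := by ring
      rw [this]; ring
    have e2 : √(√x) = x ^ (1 / 4 : ℝ) := by
      rw [Real.sqrt_eq_rpow, Real.sqrt_eq_rpow, ← Real.rpow_mul hx0.le]
      norm_num
    unfold E2
    rw [e1]
    unfold Ed
    rw [Real.sq_sqrt hx0.le, e2, div_mul_cancel₀ _ (Real.rpow_pos_of_pos hx0 _).ne']
    unfold Δd Del Dsum dv
    ring
  refine ⟨?_, ?_⟩
  · intro ε hε
    filter_upwards [h1 ε hε] with n hn
    rw [hP, abs_mul, abs_of_pos (hpos n)]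
    exact mul_le_mul_of_nonneg_right hn (hpos n).le
  · intro ε η hε hη
    filter_upwards [h2 ε η hε hη] with N hN
    obtain ⟨⟨n, hn1, hn2, hn3⟩, ⟨m, hm1, hm2, hm3⟩⟩ := hN
    refine ⟨⟨n, hn1, hn2, ?_⟩, ⟨m, hm1, hm2, ?_⟩⟩
    · rw [hP]
      exact mul_le_mul_of_nonneg_right hn3 (hpos n).le
    · rw [hP]
      exact mul_le_mul_of_nonneg_right hm3 (hpos m).le

end Pool.Agent.Helper932CL
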